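import Pool.Agent.H50.SM.Stm
import Pool.Graph.R_pool_sql_team_seeded_3997aac3.Q216.TC.Cau

/-! Project SM (helper50), module WGT (helper75): the weight. -/

set_option autoImplicit false

namespace Pool.Agent.H50.SM.WGT

open MeasureTheory Set Metric Filter Topology
open scoped InnerProductSpace ENNReal NNReal ComplexConjugate
open Pool.Agent.Y283.NK (ct IsMul Repr)
open Pool.Agent.Q130.TC Pool.Agent.Q130.TR
open ContinuousLinearMap (adjoint)

/-- the `ℓ²` norm of a finite linear combination -/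
lemma n2_sum (hL : S_L2B) {ι : Type} (F : Finset ι) (b : ι → ℂ) (A : ι → ℕ → ℂ)
    (hA : ∀ k ∈ F, Sq (A k)) :
    Sq (fun j => ∑ k ∈ F, b k * A k j) ∧
      n2 (fun j => ∑ k ∈ F, b k * A k j) ≤ ∑ k ∈ F, ‖b k‖ * n2 (A k) := by
  classical
  induction F using Finset.induction_on with
  | empty =>
    simp only [Finset.sum_empty]
    constructor
    · unfold Sq
      simp only [norm_zero, ne_eq, OfNat.ofNat_ne_zero, not_false_eq_true, zero_pow]
      exact summable_zero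
    · unfold n2
      simp
  | insert a s ha ih =>
    obtain ⟨h1, h2⟩ := ih fun k hk => hA k (Finset.mem_insert_of_mem hk)
    obtain ⟨h3, h4⟩ := hL.2.1 (b a) (A a) (hA a (Finset.mem_insert_self a s))
    obtain ⟨h5, -, h6, -⟩ := hL.1 _ _ h3 h1
    simp only [Finset.sum_insert ha]
    refine ⟨h5, h6.trans ?_⟩
    rw [h4]
    linarith

section

variable {S : Type} [MeasurableSpace S] {μ : Measure S} {φ : S → ℂ}

/-- integrability of the integrand of `ct` -/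
def II (φ : S → ℂ) (x y : Lp ℂ 2 μ) (z : ℂ) : Prop :=
  Integrable (fun s => conj (x s) * y s * (z - φ s)⁻¹) μ

lemma ae_II [SigmaFinite μ] (hφ : Measurable φ) (x y : Lp ℂ 2 μ) : ∀ᵐ z : ℂ, II φ x y z := by
  have h1 : Integrable (fun s => conj (x s) * y s) μ := by
    have h2 := L2.integrable_inner (𝕜 := ℂ) x y
    refine h2.congr (Eventually.of_forall fun s => ?_)
    simp only [RCLike.inner_apply]
    exact mul_comm _ _
  exact (Pool.Agent.Q216.TC.cau_main.1 S μ φ _ hφ h1).2.2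

lemma II_add {x x' y : Lp ℂ 2 μ} {z : ℂ} (h1 : II φ x y z) (h2 : II φ x' y z) :
    II φ (x + x') y z ∧ ct φ (x + x') y z = ct φ x y z + ct φ x' y z := by
  have h3 : (fun s => conj ((x + x' : Lp ℂ 2 μ) s) * y s * (z - φ s)⁻¹) =ᵐ[μ]
      fun s => conj (x s) * y s * (z - φ s)⁻¹ + conj (x' s) * y s * (z - φ s)⁻¹ := by
    filter_upwards [Lp.coeFn_add x x'] with s hs
    rw [hs, Pi.add_apply, map_add]
    ring
  constructor
  · exact (h1.add h2).congr h3.symm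
  · unfold ct
    rw [← integral_add h1 h2]
    exact integral_congr_ae h3

lemma II_smul {x y : Lp ℂ 2 μ} {z : ℂ} (b : ℂ) (h1 : II φ x y z) :
    II φ (conj b • x) y z ∧ ct φ (conj b • x) y z = b * ct φ x y z := by
  have h3 : (fun s => conj ((conj b • x : Lp ℂ 2 μ) s) * y s * (z - φ s)⁻¹) =ᵐ[μ]
      fun s => b * (conj (x s) * y s * (z - φ s)⁻¹) := by
    filter_upwards [Lp.coeFn_smul (conj b) x] with s hs
    rw [hs, Pi.smul_apply, smul_eq_mul, map_mul, Complex.conj_conj]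
    ring
  constructor
  · exact (h1.const_mul b).congr h3.symm
  · unfold ct
    rw [← integral_const_mul]
    exact integral_congr_ae h3

lemma II_zero (y : Lp ℂ 2 μ) (z : ℂ) : II φ (0 : Lp ℂ 2 μ) y z ∧ ct φ (0 : Lp ℂ 2 μ) y z = 0 := by
  have h3 : (fun s => conj ((0 : Lp ℂ 2 μ) s) * y s * (z - φ s)⁻¹) =ᵐ[μ] fun _ => (0 : ℂ) := by
    filter_upwards [Lp.coeFn_zero ℂ 2 μ] with s hs
    rw [hs]
    simp
  constructor
  · exact (integrable_zero S ℂ μ).congr h3.symm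
  · unfold ct
    rw [integral_congr_ae h3]
    simp

lemma II_sum {ι : Type} (F : Finset ι) (b : ι → ℂ) (y : ι → Lp ℂ 2 μ) (w : Lp ℂ 2 μ) (z : ℂ)
    (h : ∀ k ∈ F, II φ (y k) w z) :
    II φ (∑ k ∈ F, conj (b k) • y k) w z ∧
      ct φ (∑ k ∈ F, conj (b k) • y k) w z = ∑ k ∈ F, b k * ct φ (y k) w z := by
  classical
  induction F using Finset.induction_on with
  | empty =>
    simp only [Finset.sum_empty]
    exact II_zero w z
  | insert a s ha ih =>
    obtain ⟨h1, h2⟩ := ih fun k hk => h k (Finset.mem_insert_of_mem hk)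
    obtain ⟨h3, h4⟩ := II_smul (b a) (h a (Finset.mem_insert_self a s))
    obtain ⟨h5, h6⟩ := II_add h3 h1
    simp only [Finset.sum_insert ha]
    refine ⟨h5, ?_⟩
    rw [h6, h4, h2]

end

/-- the vector of a finite sequence of coefficients -/
noncomputable def wv {H : Type} [AddCommGroup H] [Module ℂ H] (y : ℕ → H)
    (i : Σ n : ℕ, Fin n → ℕ) : H :=
  ∑ k : Fin i.1, conj (TopologicalSpace.denseSeq ℂ (i.2 k)) • y k

/-- the polynomial of a finite sequence of coefficients -/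
noncomputable def qv (i : Σ n : ℕ, Fin n → ℕ) (z : ℂ) : ℂ :=
  ∑ k : Fin i.1, TopologicalSpace.denseSeq ℂ (i.2 k) * z ^ (k : ℕ)

lemma yv_eq {H : Type} [NormedAddCommGroup H] [InnerProductSpace ℂ H] [CompleteSpace H]
    (T : H →L[ℂ] H) (x : H) (p : Polynomial ℂ) :
    yv T x p = ∑ k : Fin (p.natDegree + 1), conj (p.coeff k) • ((adjoint T) ^ (k : ℕ)) x := by
  unfold yv
  rw [Polynomial.sum_over_range' p _ (p.natDegree + 1) (Nat.lt_succ_self _), Finset.sum_range]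
  intro n
  simp

lemma eval_eq (p : Polynomial ℂ) (z : ℂ) :
    p.eval z = ∑ k : Fin (p.natDegree + 1), p.coeff k * z ^ (k : ℕ) := by
  rw [Polynomial.eval_eq_sum_range, Finset.sum_range]

/-- upper property at a point -/
lemma upp (h2 : S_L2B) (A : ℕ → ℕ → ℂ) (hASq : ∀ k, Sq (A k)) (z : ℂ) (W : ℝ) (hW0 : 0 ≤ W)
    (hW1 : W ≤ 1) (hix : ∀ i : (Σ n : ℕ, Fin n → ℕ), ‖qv i z‖ * W ≤
      n2 (fun j => ∑ k : Fin i.1, TopologicalSpace.denseSeq ℂ (i.2 k) * A k j))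
    (p : Polynomial ℂ) : ‖p.eval z‖ * W ≤
      n2 (fun j => ∑ k : Fin (p.natDegree + 1), p.coeff k * A k j) := by
  refine le_of_forall_pos_le_add fun ε hε => ?_
  obtain ⟨n, hn⟩ : ∃ n, n = p.natDegree + 1 := ⟨_, rfl⟩
  have hev : p.eval z = ∑ k : Fin n, p.coeff k * z ^ (k : ℕ) := by
    rw [hn]
    exact eval_eq p z
  rw [← hn]
  obtain ⟨M, hM⟩ : ∃ M, M = ∑ k : Fin n, n2 (A k) := ⟨_, rfl⟩
  obtain ⟨R, hR⟩ : ∃ R, R = ∑ k : Fin n, ‖z‖ ^ (k : ℕ) := ⟨_, rfl⟩
  have hM0 : 0 ≤ M := by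
    rw [hM]
    exact Finset.sum_nonneg fun k _ => Real.sqrt_nonneg _
  have hR0 : 0 ≤ R := by
    rw [hR]
    exact Finset.sum_nonneg fun k _ => pow_nonneg (norm_nonneg _) _
  have hMR : 0 < M + R + 1 := by linarith
  obtain ⟨κ, hκ⟩ : ∃ κ, κ = ε / (M + R + 1) := ⟨_, rfl⟩
  have hκ0 : 0 < κ := by
    rw [hκ]
    exact div_pos hε hMR
  have hd : ∀ a : ℂ, ∃ m : ℕ, ‖TopologicalSpace.denseSeq ℂ m - a‖ < κ := by
    intro a
    obtain ⟨m, hm⟩ := (TopologicalSpace.denseRange_denseSeq ℂ).exists_dist_lt a hκ0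
    refine ⟨m, ?_⟩
    rw [← dist_eq_norm, dist_comm]
    exact hm
  choose g hg using fun k : Fin n => hd (p.coeff k)
  have hd1 : ∀ k : Fin n, ‖TopologicalSpace.denseSeq ℂ (g k) - p.coeff k‖ ≤ κ := fun k =>
    (hg k).le
  obtain ⟨hSq, -⟩ := n2_sum h2 Finset.univ (fun k : Fin n => p.coeff k) (fun k : Fin n => A k)
    fun k _ => hASq k
  obtain ⟨hSq2, hn2⟩ := n2_sum h2 Finset.univ
    (fun k : Fin n => TopologicalSpace.denseSeq ℂ (g k) - p.coeff k) (fun k : Fin n => A k)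
    fun k _ => hASq k
  have e4 := (h2.1 _ _ hSq hSq2).2.2.1
  have e1 : (fun j => ∑ k : Fin n, TopologicalSpace.denseSeq ℂ (g k) * A k j) =
      fun j => (∑ k : Fin n, p.coeff k * A k j) +
        ∑ k : Fin n, (TopologicalSpace.denseSeq ℂ (g k) - p.coeff k) * A k j := by
    funext j
    rw [← Finset.sum_add_distrib]
    refine Finset.sum_congr rfl fun k _ => ?_
    ring
  have e5 : ∑ k : Fin n, ‖TopologicalSpace.denseSeq ℂ (g k) - p.coeff k‖ * n2 (A k) ≤ κ * M := by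
    rw [hM, Finset.mul_sum]
    exact Finset.sum_le_sum fun k _ => mul_le_mul_of_nonneg_right (hd1 k) (Real.sqrt_nonneg _)
  have hUz : n2 (fun j => ∑ k : Fin n, TopologicalSpace.denseSeq ℂ (g k) * A k j) ≤
      n2 (fun j => ∑ k : Fin n, p.coeff k * A k j) + κ * M := by
    rw [e1]
    exact e4.trans (by linarith)
  have e7 : ‖∑ k : Fin n, (TopologicalSpace.denseSeq ℂ (g k) - p.coeff k) * z ^ (k : ℕ)‖ ≤
      κ * R := by
    refine (norm_sum_le _ _).trans ?_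
    rw [hR, Finset.mul_sum]
    refine Finset.sum_le_sum fun k _ => ?_
    rw [norm_mul, norm_pow]
    exact mul_le_mul_of_nonneg_right (hd1 k) (pow_nonneg (norm_nonneg _) _)
  have hq : qv ⟨n, g⟩ z = ∑ k : Fin n, TopologicalSpace.denseSeq ℂ (g k) * z ^ (k : ℕ) := rfl
  have e6 : p.eval z = qv ⟨n, g⟩ z - ∑ k : Fin n, (TopologicalSpace.denseSeq ℂ (g k) - p.coeff k) *
      z ^ (k : ℕ) := by
    rw [hev, hq, ← Finset.sum_sub_distrib]
    refine Finset.sum_congr rfl fun k _ => ?_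
    ring
  have hqz : ‖p.eval z‖ ≤ ‖qv ⟨n, g⟩ z‖ + κ * R := by
    rw [e6]
    exact (norm_sub_le _ _).trans (by linarith)
  have h6 : ‖qv ⟨n, g⟩ z‖ * W ≤ n2 (fun j => ∑ k : Fin n, TopologicalSpace.denseSeq ℂ (g k) * A k j) :=
    hix ⟨n, g⟩
  have hκR : 0 ≤ κ * R := mul_nonneg hκ0.le hR0
  have h7 : ‖p.eval z‖ * W ≤ ‖qv ⟨n, g⟩ z‖ * W + κ * R := by
    have h8 : ‖p.eval z‖ * W ≤ (‖qv ⟨n, g⟩ z‖ + κ * R) * W := mul_le_mul_of_nonneg_right hqz hW0
    have h9 : κ * R * W ≤ κ * R * 1 := mul_le_mul_of_nonneg_left hW1 hκR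
    linarith
  have h8 : κ * M + κ * R ≤ ε := by
    have h9 : κ * (M + R + 1) = ε := by
      rw [hκ]
      exact div_mul_cancel₀ ε hMR.ne'
    linarith
  linarith

/-- lower property at a point -/
lemma low (h2 : S_L2B) (A : ℕ → ℕ → ℂ) (hASq : ∀ k, Sq (A k)) (z L : ℂ) (c : ℕ → ℂ) (hc : Sq c)
    (hc1 : n2 c ≤ 1) (hk : ∀ k, ∑' j, A k j * c j = z ^ k * L) (i : (Σ n : ℕ, Fin n → ℕ)) :
    ‖L‖ * ‖qv i z‖ ≤ n2 (fun j => ∑ k : Fin i.1, TopologicalSpace.denseSeq ℂ (i.2 k) * A k j) := by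
  obtain ⟨n, g⟩ := i
  have hs : ∀ k : ℕ, Summable fun j => A k j * c j := fun k =>
    (h2.1 _ _ (hASq k) hc).2.2.2.2.1
  have hSqw := (n2_sum h2 Finset.univ (fun k : Fin n => TopologicalSpace.denseSeq ℂ (g k))
    (fun k : Fin n => A k) fun k _ => hASq k).1
  have e5 := (h2.1 _ _ hSqw hc).2.2.2.2.2
  have e3 : (fun j => (∑ k : Fin n, TopologicalSpace.denseSeq ℂ (g k) * A k j) * c j) = fun j =>
      ∑ k : Fin n, TopologicalSpace.denseSeq ℂ (g k) * (A k j * c j) := by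
    funext j
    rw [Finset.sum_mul]
    refine Finset.sum_congr rfl fun k _ => ?_
    ring
  have e4 : ∑' j, ∑ k : Fin n, TopologicalSpace.denseSeq ℂ (g k) * (A k j * c j) =
      ∑ k : Fin n, ∑' j, TopologicalSpace.denseSeq ℂ (g k) * (A k j * c j) :=
    Summable.tsum_finsetSum (s := (Finset.univ : Finset (Fin n)))
      (f := fun (k : Fin n) (j : ℕ) => TopologicalSpace.denseSeq ℂ (g k) * (A k j * c j))
      (fun k _ => (hs k).mul_left _)
  have e2 : ∑' j, (∑ k : Fin n, TopologicalSpace.denseSeq ℂ (g k) * A k j) * c j =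
      qv ⟨n, g⟩ z * L := by
    rw [e3, e4]
    have hq : qv ⟨n, g⟩ z = ∑ k : Fin n, TopologicalSpace.denseSeq ℂ (g k) * z ^ (k : ℕ) := rfl
    rw [hq, Finset.sum_mul]
    refine Finset.sum_congr rfl fun k _ => ?_
    rw [tsum_mul_left, hk k]
    ring
  rw [e2, norm_mul] at e5
  have hn0 : 0 ≤ n2 (fun j => ∑ k : Fin n, TopologicalSpace.denseSeq ℂ (g k) * A k j) :=
    Real.sqrt_nonneg _
  calc ‖L‖ * ‖qv ⟨n, g⟩ z‖ = ‖qv ⟨n, g⟩ z‖ * ‖L‖ := mul_comm _ _
    _ ≤ n2 (fun j => ∑ k : Fin n, TopologicalSpace.denseSeq ℂ (g k) * A k j) * n2 c := e5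
    _ ≤ n2 (fun j => ∑ k : Fin n, TopologicalSpace.denseSeq ℂ (g k) * A k j) * 1 :=
        mul_le_mul_of_nonneg_left hc1 hn0
    _ = _ := mul_one _

/-- the weight of a family -/
noncomputable def ff (U : (Σ n : ℕ, Fin n → ℕ) → ℂ → ℝ) (i : (Σ n : ℕ, Fin n → ℕ)) (z : ℂ) : ℝ :=
  if qv i z = 0 then 1 else U i z / ‖qv i z‖

/-- the weight -/
noncomputable def Wf (U : (Σ n : ℕ, Fin n → ℕ) → ℂ → ℝ) (z : ℂ) : ℝ :=
  min 1 (⨅ i, ff U i z)

lemma qv_meas (i : (Σ n : ℕ, Fin n → ℕ)) : Measurable (qv i) := by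
  unfold qv
  apply Finset.measurable_sum
  intro k _
  exact measurable_const.mul (measurable_id.pow_const _)

instance : Nonempty (Σ n : ℕ, Fin n → ℕ) := ⟨⟨0, fun _ => 0⟩⟩

section

variable {U : (Σ n : ℕ, Fin n → ℕ) → ℂ → ℝ}

lemma ff_nonneg (hU0 : ∀ i z, 0 ≤ U i z) (i : (Σ n : ℕ, Fin n → ℕ)) (z : ℂ) : 0 ≤ ff U i z := by
  unfold ff
  split_ifs
  · exact zero_le_one
  · exact div_nonneg (hU0 i z) (norm_nonneg _)

lemma Wf_meas (hUm : ∀ i, Measurable (U i)) : Measurable (Wf U) := by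
  have hfm : ∀ i, Measurable (ff U i) := by
    intro i
    refine Measurable.ite ?_ measurable_const ?_
    · exact (measurableSet_singleton (0 : ℂ)).preimage (qv_meas i)
    · exact (hUm i).div (qv_meas i).norm
  exact measurable_const.min (Measurable.iInf hfm)

lemma Wf_nonneg (hU0 : ∀ i z, 0 ≤ U i z) (z : ℂ) : 0 ≤ Wf U z :=
  le_min zero_le_one (le_ciInf fun i => ff_nonneg hU0 i z)

lemma Wf_le (z : ℂ) : Wf U z ≤ 1 := min_le_left _ _

lemma Wf_mul (hU0 : ∀ i z, 0 ≤ U i z) (i : (Σ n : ℕ, Fin n → ℕ)) (z : ℂ) :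
    ‖qv i z‖ * Wf U z ≤ U i z := by
  by_cases hq : qv i z = 0
  · rw [hq, norm_zero, zero_mul]
    exact hU0 i z
  · have hq0 : 0 < ‖qv i z‖ := norm_pos_iff.2 hq
    have hbdd : BddBelow (Set.range fun i => ff U i z) := by
      refine ⟨0, ?_⟩
      rintro _ ⟨i, rfl⟩
      exact ff_nonneg hU0 i z
    have h4 : Wf U z ≤ ff U i z := (min_le_right _ _).trans (ciInf_le hbdd i)
    have h5 : ff U i z = U i z / ‖qv i z‖ := by
      unfold ff
      rw [if_neg hq]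
    rw [h5, le_div_iff₀ hq0] at h4
    linarith

lemma Wf_ge (z : ℂ) (t : ℝ) (h : ∀ i, t * ‖qv i z‖ ≤ U i z) : min 1 t ≤ Wf U z := by
  refine le_min (min_le_left _ _) (le_ciInf fun i => ?_)
  unfold ff
  split_ifs with hq
  · exact min_le_left _ _
  · have hq0 : 0 < ‖qv i z‖ := norm_pos_iff.2 hq
    refine (min_le_right _ _).trans ?_
    rw [le_div_iff₀ hq0]
    exact h i

end

theorem wgt (h1 : S_EVL) (h2 : S_L2B) (h3 : S_HSB) : S_WGT := by
  intro S _ μ _ φ N K hN u v hK x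
  have hφ : Measurable φ := hN.meas
  have hu : Summable (fun j => ‖u j‖ ^ 2) := hK.1
  obtain ⟨y, hy⟩ : ∃ y : ℕ → Lp ℂ 2 μ, ∀ k, y k = ((adjoint (N + K)) ^ k) x := ⟨_, fun _ => rfl⟩
  have hy0 : y 0 = x := by
    rw [hy, pow_zero]
    rfl
  have hysucc : ∀ k, y (k + 1) = adjoint (N + K) (y k) := by
    intro k
    rw [hy, hy, pow_succ']
    rfl
  -- the good points
  have g1 : ∀ᵐ z : ℂ, ∀ k, Sq (fun j => ct φ (y k) (u j) z) := by
    rw [ae_all_iff]
    intro k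
    filter_upwards [(h3.2.1 S μ φ hφ u hu (y k)).1] with z hz
    exact hz.1
  have g2 : ∀ᵐ z : ℂ, ∀ k j, II φ (y k) (u j) z := by
    rw [ae_all_iff]
    intro k
    rw [ae_all_iff]
    intro j
    exact ae_II hφ (y k) (u j)
  have g3 : ∀ᵐ z : ℂ, ∀ k, ∀ c : ℕ → ℂ, Sq c → (∀ i, c i = act (Fm φ u v z) c i) →
      ∑' j, ct φ (y (k + 1)) (u j) z * c j = z * ∑' j, ct φ (y k) (u j) z * c j := by
    rw [ae_all_iff]
    intro k
    filter_upwards [h1 S μ φ N K hN u v hK (y k)] with z hz c hc hF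
    rw [hysucc]
    exact hz c hc hF
  obtain ⟨U, hU⟩ : ∃ U : (Σ n : ℕ, Fin n → ℕ) → ℂ → ℝ,
      ∀ i z, U i z = n2 (fun j => ct φ (wv y i) (u j) z) := ⟨_, fun _ _ => rfl⟩
  have hUm : ∀ i, Measurable (U i) := by
    intro i
    have h4 : U i = fun z => n2 (fun j => ct φ (wv y i) (u j) z) := funext (hU i)
    rw [h4]
    exact (h3.2.1 S μ φ hφ u hu (wv y i)).2.1
  have hU0 : ∀ i z, 0 ≤ U i z := by
    intro i z
    rw [hU]
    exact Real.sqrt_nonneg _
  -- the values at the good points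
  have hval : ∀ z, (∀ k j, II φ (y k) (u j) z) → ∀ i, U i z =
      n2 (fun j => ∑ k : Fin i.1, TopologicalSpace.denseSeq ℂ (i.2 k) * ct φ (y k) (u j) z) := by
    intro z k2 i
    rw [hU]
    congr 1
    funext j
    exact (II_sum Finset.univ (fun k : Fin i.1 => TopologicalSpace.denseSeq ℂ (i.2 k))
      (fun k : Fin i.1 => y k) (u j) z fun k _ => k2 k j).2
  refine ⟨Wf U, Wf_meas hUm, fun z => ⟨Wf_nonneg hU0 z, Wf_le z⟩, ?_, ?_⟩
  · intro p
    filter_upwards [g1, g2] with z k1 k2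
    have h4 := upp h2 (fun k j => ct φ (y k) (u j) z) k1 z (Wf U z) (Wf_nonneg hU0 z) (Wf_le z)
      (fun i => by
        have := Wf_mul hU0 i z
        rw [hval z k2 i] at this
        exact this) p
    have h5 : (fun j => ct φ (yv (N + K) x p) (u j) z) =
        fun j => ∑ k : Fin (p.natDegree + 1), p.coeff k * ct φ (y k) (u j) z := by
      funext j
      have h6 : yv (N + K) x p = ∑ k : Fin (p.natDegree + 1), conj (p.coeff k) • y k := by
        rw [yv_eq]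
        exact Finset.sum_congr rfl fun k _ => by rw [hy]
      rw [h6]
      exact (II_sum Finset.univ (fun k : Fin (p.natDegree + 1) => p.coeff k)
        (fun k : Fin (p.natDegree + 1) => y k) (u j) z fun k _ => k2 k j).2
    rw [h5]
    exact h4
  · filter_upwards [g1, g2, g3] with z k1 k2 k3 c hc hc1 hF
    have hk : ∀ k, ∑' j, ct φ (y k) (u j) z * c j = z ^ k * ∑' j, ct φ x (u j) z * c j := by
      intro k
      induction k with
      | zero => rw [hy0, pow_zero, one_mul]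
      | succ k ih => rw [k3 k c hc hF, ih, pow_succ]; ring
    refine Wf_ge z _ fun i => ?_
    rw [hval z k2 i]
    exact low h2 (fun k j => ct φ (y k) (u j) z) k1 z _ c hc hc1 hk i

end Pool.Agent.H50.SM.WGT
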