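import Pool.Agent.H50.SM.Stm
import Pool.Graph.R_pool_sql_team_seeded_3997aac3.Q87.TR.HSB
import Pool.Graph.R_seed8.Y271.RO.Final
import Pool.Graph.R_seed8.Y941.RO.CUTV

/-!
# Project SM, module HVY: heavy barriers give bounded point evaluations
-/

set_option autoImplicit false
set_option linter.unusedSectionVars false
set_option linter.unusedVariables false

namespace Pool.Agent.H50.SM.HVY

open MeasureTheory Set Metric Filter Topology
open scoped InnerProductSpace ENNReal NNReal ComplexConjugate ContDiff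
open Pool.Agent.Y283.NK (ct ea IsMul Repr)
open Pool.Agent.Y271.RO (db ht)
open Pool.Agent.Y604.NK (meas_ct meas_coe meas_ea meas_ea2 ea_ball)
open Pool.Agent.Q130.TR
open Pool.Agent.Q87.TR.HSB
open ContinuousLinearMap (adjoint)

section

variable {S : Type} [MeasurableSpace S] {μ : Measure S}

/-- the integral over a disc of the vector of Cauchy transforms -/
theorem int_n2 [SigmaFinite μ] {φ : S → ℂ} (hφ : Measurable φ) (u : ℕ → Lp ℂ 2 μ)
    (hu : Summable (fun j => ‖u j‖ ^ 2)) (a : ℂ) (r : ℝ) :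
    ∃ B : ℝ, 0 ≤ B ∧ ∀ y : Lp ℂ 2 μ,
      ∫⁻ z in ball a r, ENNReal.ofReal (n2 fun j => ct φ y (u j) z) ≤ ENNReal.ofReal (B * ‖y‖) := by
  obtain ⟨C, hC⟩ := Pool.Agent.Y891.NK.main_area (‖a‖ + r)
  have hs0 : 0 ≤ ∑' j, ‖u j‖ ^ 2 := tsum_nonneg fun _ => by positivity
  refine ⟨(C : ℝ) * (1 + ∑' j, ‖u j‖ ^ 2), by positivity, fun y => ?_⟩
  have hsub : ball a r ⊆ ball (0 : ℂ) (‖a‖ + r) := by
    intro z hz
    rw [mem_ball_zero_iff]
    rw [mem_ball, dist_eq_norm] at hz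
    calc ‖z‖ = ‖a + (z - a)‖ := by congr 1; ring
      _ ≤ ‖a‖ + ‖z - a‖ := norm_add_le _ _
      _ < ‖a‖ + r := by linarith
  by_cases hy : y = 0
  · have h0 : ∀ z, n2 (fun j => ct φ y (u j) z) = 0 := fun z => by
      rw [hy]
      simp only [ct_zero_left]
      simp [n2]
    simp [h0]
  have hy0 : 0 < ‖y‖ := norm_pos_iff.2 hy
  have hyt : ENNReal.ofReal ‖y‖ ≠ ⊤ := ENNReal.ofReal_ne_top
  have hyz : ENNReal.ofReal ‖y‖ ≠ 0 := by
    rw [Ne, ENNReal.ofReal_eq_zero, not_le]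
    exact hy0
  have hpt : ∀ z, ENNReal.ofReal (n2 fun j => ct φ y (u j) z) ≤
      (ENNReal.ofReal ‖y‖)⁻¹ * ea φ y z + ENNReal.ofReal ‖y‖ * ∑' j, ea φ (u j) z := by
    intro z
    rw [← hs_row, ← Fm_row]
    refine hs_le ((H2_Fm hφ u (sg y) z).trans ?_)
    have h1 : ∑' i, ea φ (sg y i) z ≤ ea φ y z := by
      rw [tsum_eq_single 0 fun j hj => ?_]
      · simp [sg]
      · unfold ea
        have h2 : sg y j = 0 := by simp [sg, hj]
        rw [h2, lintegral_congr_ae (g := fun _ => 0)]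
        · simp
        · filter_upwards [Lp.coeFn_zero ℂ 2 μ] with s hs
          rw [hs]
          simp
    calc (∑' i, ea φ (sg y i) z) * ∑' j, ea φ (u j) z
        ≤ ea φ y z * ∑' j, ea φ (u j) z := by gcongr
      _ = (ENNReal.ofReal ‖y‖)⁻¹ * ea φ y z * (ENNReal.ofReal ‖y‖ * ∑' j, ea φ (u j) z) := by
        calc ea φ y z * ∑' j, ea φ (u j) z
            = ((ENNReal.ofReal ‖y‖)⁻¹ * ENNReal.ofReal ‖y‖) *
                (ea φ y z * ∑' j, ea φ (u j) z) := by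
              rw [ENNReal.inv_mul_cancel hyz hyt, one_mul]
          _ = _ := by ring
  have h3 : ∫⁻ z in ball (0:ℂ) (‖a‖ + r), ∑' j, ea φ (u j) z ≤
      C * ENNReal.ofReal (∑' j, ‖u j‖ ^ 2) := by
    rw [lintegral_tsum fun j => (meas_ea hφ (u j)).aemeasurable]
    calc ∑' j, ∫⁻ z in ball (0:ℂ) (‖a‖ + r), ea φ (u j) z
        ≤ ∑' j, C * ENNReal.ofReal (‖u j‖ ^ 2) :=
          ENNReal.tsum_le_tsum fun j => ea_ball hφ (u j) _ C hC
      _ = C * ENNReal.ofReal (∑' j, ‖u j‖ ^ 2) := by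
        rw [ENNReal.tsum_mul_left, ENNReal.ofReal_tsum_of_nonneg (fun _ => by positivity) hu]
  have h4 := ea_ball hφ y (‖a‖ + r) C hC
  calc ∫⁻ z in ball a r, ENNReal.ofReal (n2 fun j => ct φ y (u j) z)
      ≤ ∫⁻ z in ball (0:ℂ) (‖a‖ + r), ENNReal.ofReal (n2 fun j => ct φ y (u j) z) :=
        lintegral_mono_set hsub
    _ ≤ ∫⁻ z in ball (0:ℂ) (‖a‖ + r), ((ENNReal.ofReal ‖y‖)⁻¹ * ea φ y z +
          ENNReal.ofReal ‖y‖ * ∑' j, ea φ (u j) z) := lintegral_mono fun z => hpt z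
    _ = (ENNReal.ofReal ‖y‖)⁻¹ * (∫⁻ z in ball (0:ℂ) (‖a‖ + r), ea φ y z) +
          ENNReal.ofReal ‖y‖ * (∫⁻ z in ball (0:ℂ) (‖a‖ + r), ∑' j, ea φ (u j) z) := by
        rw [lintegral_add_left ((meas_ea hφ y).const_mul _), lintegral_const_mul _ (meas_ea hφ y),
          lintegral_const_mul _ (Measurable.tsum fun i => meas_ea hφ (u i))]
    _ ≤ (ENNReal.ofReal ‖y‖)⁻¹ * (C * ENNReal.ofReal (‖y‖ ^ 2)) +
          ENNReal.ofReal ‖y‖ * (C * ENNReal.ofReal (∑' j, ‖u j‖ ^ 2)) := by gcongr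
    _ = ENNReal.ofReal ((C : ℝ) * (1 + ∑' j, ‖u j‖ ^ 2) * ‖y‖) := by
        have e1 : (ENNReal.ofReal ‖y‖)⁻¹ * (C * ENNReal.ofReal (‖y‖ ^ 2)) =
            C * ENNReal.ofReal ‖y‖ := by
          rw [sq, ENNReal.ofReal_mul (norm_nonneg y)]
          calc (ENNReal.ofReal ‖y‖)⁻¹ * (C * (ENNReal.ofReal ‖y‖ * ENNReal.ofReal ‖y‖))
              = ((ENNReal.ofReal ‖y‖)⁻¹ * ENNReal.ofReal ‖y‖) * (C * ENNReal.ofReal ‖y‖) := by ring
            _ = _ := by rw [ENNReal.inv_mul_cancel hyz hyt, one_mul]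
        rw [e1, ENNReal.ofReal_mul (by positivity), ENNReal.ofReal_mul (by positivity),
          ENNReal.ofReal_add zero_le_one hs0, ENNReal.ofReal_one, ENNReal.ofReal_coe_nnreal]
        ring

end

/-- the formula of Cauchy and Pompeiu for a polynomial times a cut-off function -/
theorem eval_le {Θ : ℂ → ℂ} {a : ℂ} {τ r : ℝ} (hτ : 0 < τ)
    (h : Pool.Agent.Y941.RO.CO Θ a τ r) (p : Polynomial ℂ) :
    ENNReal.ofReal (Real.pi * ‖p.eval a‖) ≤ ∫⁻ z, ‖p.eval z * db Θ z * (z - a)⁻¹‖ₑ := by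
  have hPOM := Pool.Agent.Y839.RO.main
  have h1 : (fun z => p.eval z * db Θ z) = db (fun w => p.eval w * Θ w) := by
    funext z
    have hd : DifferentiableAt ℂ (fun w : ℂ => p.eval w) z := p.differentiable.differentiableAt
    have hd' : DifferentiableAt ℝ (fun w : ℂ => p.eval w) z := hd.restrictScalars ℝ
    rw [hPOM.2.1 (fun w => p.eval w) Θ z hd'
      ((h.smooth.differentiable (by norm_num)).differentiableAt), hPOM.2.2.1 _ z hd]
    ring
  have hs : ContDiff ℝ 1 (fun w : ℂ => p.eval w * Θ w) := by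
    refine ContDiff.mul ?_ h.smooth
    have h5 : ContDiff ℂ 1 (fun w : ℂ => p.eval w) := p.differentiable.contDiff
    exact h5.restrict_scalars ℝ
  have h2 := hPOM.1 _ hs (h.cpt.mul_left) a
  rw [← h1, h.one a (mem_ball_self hτ), mul_one] at h2
  have h3 : ENNReal.ofReal (Real.pi * ‖p.eval a‖) = ‖ht (fun z => p.eval z * db Θ z) a‖ₑ := by
    rw [h2, ← ofReal_norm, norm_neg, norm_mul]
    congr 2
    rw [Complex.norm_real, Real.norm_of_nonneg Real.pi_pos.le]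
  rw [h3]
  exact enorm_integral_le_lintegral_enorm _

/-- **Module HVY.** -/
theorem hvy (_h1 : S_L2B) (_h2 : S_HSB) : S_HVY := by
  intro S _ μ _ φ N K hN u v hK x W hWm hW01 hup a τ r hτ hτr hcut
  obtain ⟨Θ, g, C₁, c1, c2, c3, c4, c5, c6, c7, c8, c9⟩ := hcut
  have hPOM := Pool.Agent.Y839.RO.main
  have hC₁ : 0 ≤ C₁ := (norm_nonneg _).trans (c5 0 a)
  have hCO : ∀ n, Pool.Agent.Y941.RO.CO (Θ n) a τ r := fun n =>
    ⟨(c1 n).of_le (by exact_mod_cast le_top), c2 n, c3 n⟩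
  obtain ⟨B, hB0, hB⟩ := int_n2 hN.meas u hK.1 a r
  refine ⟨C₁ * B / (Real.pi * τ), fun p => ?_⟩
  obtain ⟨y, hy⟩ : ∃ y, y = yv (N + K) x p := ⟨_, rfl⟩
  rw [← hy]
  -- the supremum of the polynomial
  obtain ⟨M, hM⟩ := (isCompact_closedBall a r).exists_bound_of_continuousOn
    (f := fun z : ℂ => p.eval z) (p.continuous.continuousOn)
  have hM' : ∀ z, ‖z - a‖ ≤ r → ‖p.eval z‖ ≤ M := fun z hz => hM z (by
    rwa [mem_closedBall, dist_eq_norm])
  have hdbm : ∀ n, Measurable (db (Θ n)) := fun n =>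
    (hPOM.2.2.2.2.1 (Θ n) (hCO n).smooth).measurable
  have hpm : Measurable fun z : ℂ => p.eval z := p.continuous.measurable
  have hWc : Measurable fun z => (W z : ℂ) := Complex.measurable_ofReal.comp hWm
  -- the pointwise bound
  have hpt : ∀ n z, ‖p.eval z * db (Θ n) z * (z - a)⁻¹‖ₑ ≤
      ENNReal.ofReal τ⁻¹ * (ENNReal.ofReal C₁ *
        (ball a r).indicator (fun z => ENNReal.ofReal (‖p.eval z‖ * W z)) z +
        ENNReal.ofReal M * ‖(W z : ℂ) * g n z - db (Θ n) z‖ₑ) := by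
    intro n z
    by_cases h1 : z ∈ ball a τ
    · rw [(hCO n).db_in hPOM z h1]
      simp
    by_cases h2 : r < ‖z - a‖
    · rw [(hCO n).db_out hPOM z h2]
      simp
    rw [mem_ball, dist_eq_norm, not_lt] at h1
    rw [not_lt] at h2
    have e1 : ‖(z - a)⁻¹‖ₑ ≤ ENNReal.ofReal τ⁻¹ := by
      rw [← ofReal_norm, norm_inv]
      exact ENNReal.ofReal_le_ofReal (inv_anti₀ hτ h1)
    have e2 : ‖db (Θ n) z‖ₑ ≤ ‖(W z : ℂ) * g n z‖ₑ + ‖(W z : ℂ) * g n z - db (Θ n) z‖ₑ := by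
      calc ‖db (Θ n) z‖ₑ = ‖(W z : ℂ) * g n z - ((W z : ℂ) * g n z - db (Θ n) z)‖ₑ := by
            congr 1; ring
        _ ≤ _ := enorm_sub_le
    have e3 : ‖p.eval z‖ₑ * ‖(W z : ℂ) * g n z‖ₑ ≤ ENNReal.ofReal C₁ *
        (ball a r).indicator (fun z => ENNReal.ofReal (‖p.eval z‖ * W z)) z := by
      by_cases h3 : z ∈ ball a r
      · rw [indicator_of_mem h3, ← ofReal_norm, ← ofReal_norm, ← ENNReal.ofReal_mul (norm_nonneg _),
          ← ENNReal.ofReal_mul hC₁]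
        refine ENNReal.ofReal_le_ofReal ?_
        rw [norm_mul, Complex.norm_real, Real.norm_of_nonneg (hW01 z).1]
        have h4 := c5 n z
        have h5 : 0 ≤ ‖p.eval z‖ * W z := mul_nonneg (norm_nonneg _) (hW01 z).1
        nlinarith [mul_le_mul_of_nonneg_left h4 h5]
      · rw [mem_ball, dist_eq_norm, not_lt] at h3
        rw [c7 n z h3]
        simp
    have e4 : ‖p.eval z‖ₑ ≤ ENNReal.ofReal M := by
      rw [← ofReal_norm]
      exact ENNReal.ofReal_le_ofReal (hM' z h2)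
    rw [enorm_mul, enorm_mul]
    calc ‖p.eval z‖ₑ * ‖db (Θ n) z‖ₑ * ‖(z - a)⁻¹‖ₑ
        ≤ ‖p.eval z‖ₑ * (‖(W z : ℂ) * g n z‖ₑ + ‖(W z : ℂ) * g n z - db (Θ n) z‖ₑ) *
            ENNReal.ofReal τ⁻¹ := by gcongr
      _ = ENNReal.ofReal τ⁻¹ * (‖p.eval z‖ₑ * ‖(W z : ℂ) * g n z‖ₑ +
            ‖p.eval z‖ₑ * ‖(W z : ℂ) * g n z - db (Θ n) z‖ₑ) := by ring
      _ ≤ _ := by gcongr
  have hind : Measurable ((ball a r).indicator fun z => ENNReal.ofReal (‖p.eval z‖ * W z)) :=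
    ((hpm.norm.mul hWm).ennreal_ofReal).indicator measurableSet_ball
  have hint : ∀ n, ENNReal.ofReal (Real.pi * ‖p.eval a‖) ≤
      ENNReal.ofReal τ⁻¹ * (ENNReal.ofReal C₁ * ENNReal.ofReal (B * ‖y‖) +
        ENNReal.ofReal M * ∫⁻ z, ‖(W z : ℂ) * g n z - db (Θ n) z‖ₑ) := by
    intro n
    refine (eval_le hτ (hCO n) p).trans ((lintegral_mono fun z => hpt n z).trans ?_)
    have m1 : Measurable fun z => ‖(W z : ℂ) * g n z - db (Θ n) z‖ₑ :=
      ((hWc.mul (c4 n)).sub (hdbm n)).enorm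
    have m2 : Measurable fun z => ENNReal.ofReal C₁ *
        (ball a r).indicator (fun z => ENNReal.ofReal (‖p.eval z‖ * W z)) z := hind.const_mul _
    have m3 : Measurable fun z => ENNReal.ofReal M * ‖(W z : ℂ) * g n z - db (Θ n) z‖ₑ :=
      m1.const_mul _
    have m4 : Measurable fun z => (ENNReal.ofReal C₁ *
        (ball a r).indicator (fun z => ENNReal.ofReal (‖p.eval z‖ * W z)) z +
        ENNReal.ofReal M * ‖(W z : ℂ) * g n z - db (Θ n) z‖ₑ) := m2.add m3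
    rw [lintegral_const_mul _ m4, lintegral_add_left m2, lintegral_const_mul _ hind,
      lintegral_const_mul _ m1, lintegral_indicator measurableSet_ball]
    have h5 : ∫⁻ z in ball a r, ENNReal.ofReal (‖p.eval z‖ * W z) ≤
        ENNReal.ofReal (B * ‖y‖) := by
      refine le_trans ?_ (hB y)
      refine lintegral_mono_ae ?_
      refine ae_restrict_of_ae ?_
      filter_upwards [hup p] with z hz
      rw [hy]
      exact ENNReal.ofReal_le_ofReal hz
    gcongr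
  have hlim : Tendsto (fun n => ENNReal.ofReal τ⁻¹ * (ENNReal.ofReal C₁ * ENNReal.ofReal (B * ‖y‖) +
        ENNReal.ofReal M * ∫⁻ z, ‖(W z : ℂ) * g n z - db (Θ n) z‖ₑ)) atTop
      (𝓝 (ENNReal.ofReal τ⁻¹ * (ENNReal.ofReal C₁ * ENNReal.ofReal (B * ‖y‖) +
        ENNReal.ofReal M * 0))) := by
    refine ENNReal.Tendsto.const_mul ?_ (Or.inr ENNReal.ofReal_ne_top)
    exact tendsto_const_nhds.add (ENNReal.Tendsto.const_mul c9 (Or.inr ENNReal.ofReal_ne_top))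
  have hfin := ge_of_tendsto' hlim hint
  rw [mul_zero, add_zero, ← ENNReal.ofReal_mul hC₁, ← ENNReal.ofReal_mul (by positivity)] at hfin
  have hfin' := (ENNReal.ofReal_le_ofReal_iff (by positivity)).1 hfin
  have hpi := Real.pi_pos
  rw [div_mul_eq_mul_div, le_div_iff₀ (by positivity)]
  have h6 : τ⁻¹ * (C₁ * (B * ‖y‖)) * τ = C₁ * B * ‖y‖ := by
    field_simp
  calc ‖p.eval a‖ * (Real.pi * τ) = (Real.pi * ‖p.eval a‖) * τ := by ring
    _ ≤ τ⁻¹ * (C₁ * (B * ‖y‖)) * τ := mul_le_mul_of_nonneg_right hfin' hτ.le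
    _ = _ := h6

end Pool.Agent.H50.SM.HVY
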