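import Pool.Agent.H50.SM.Stm
import Pool.Graph.R_pool_sql_team_seeded_3997aac3.Q87.TR.HSB
import Pool.Graph.R_pool_sql_team_seeded_3997aac3.Q86.TR.Ea

/-!
# Project SM, module APX: approximate continuity of the matrix of Cauchy transforms
-/

set_option autoImplicit false
set_option linter.unusedSectionVars false
set_option linter.unusedVariables false

namespace Pool.Agent.H50.SM.APX

open MeasureTheory Set Metric Filter Topology
open scoped InnerProductSpace ENNReal NNReal ComplexConjugate ContDiff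
open Pool.Agent.Y283.NK (ct ea IsMul Repr)
open Pool.Agent.Y604.NK (meas_ct meas_coe meas_ea meas_ea2 ea_ball lint_sq)
open Pool.Agent.Q130.TC (WT)
open Pool.Agent.Q130.TR
open Pool.Agent.Q87.TR.HSB
open Pool.Agent.Q86.TR (ct_int noatom)

/-! ### Matrices -/

theorem enorm3 (x y w : ℂ) : ‖x + y + w‖ₑ ^ 2 ≤ 3 * (‖x‖ₑ ^ 2 + ‖y‖ₑ ^ 2 + ‖w‖ₑ ^ 2) := by
  have h1 : ‖x + y + w‖ ≤ ‖x‖ + ‖y‖ + ‖w‖ := norm_add₃_le
  have h2 : ‖x + y + w‖ ^ 2 ≤ 3 * (‖x‖ ^ 2 + ‖y‖ ^ 2 + ‖w‖ ^ 2) := by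
    have h3 := pow_le_pow_left₀ (norm_nonneg _) h1 2
    nlinarith [sq_nonneg (‖x‖ - ‖y‖), sq_nonneg (‖y‖ - ‖w‖), sq_nonneg (‖x‖ - ‖w‖)]
  have e : (3 : ℝ≥0∞) = ENNReal.ofReal 3 := by simp
  rw [← ofReal_norm, ← ofReal_norm, ← ofReal_norm, ← ofReal_norm,
    ← ENNReal.ofReal_pow (norm_nonneg _), ← ENNReal.ofReal_pow (norm_nonneg _),
    ← ENNReal.ofReal_pow (norm_nonneg _), ← ENNReal.ofReal_pow (norm_nonneg _),
    ← ENNReal.ofReal_add (by positivity) (by positivity),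
    ← ENNReal.ofReal_add (by positivity) (by positivity), e, ← ENNReal.ofReal_mul (by norm_num)]
  exact ENNReal.ofReal_le_ofReal h2

theorem H2_add3 (A B D : ℕ → ℕ → ℂ) :
    H2 (fun i j => A i j + B i j + D i j) ≤ 3 * (H2 A + H2 B + H2 D) := by
  unfold H2
  rw [← ENNReal.tsum_add, ← ENNReal.tsum_add, ← ENNReal.tsum_mul_left]
  exact ENNReal.tsum_le_tsum fun p => enorm3 _ _ _

theorem H2_neg (A : ℕ → ℕ → ℂ) : H2 (fun i j => -A i j) = H2 A := by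
  unfold H2
  simp only [enorm_neg]

theorem le_H2 {A : ℕ → ℕ → ℂ} {κ : ℝ} (hκ : 0 < κ) (h : κ ≤ hs A) :
    ENNReal.ofReal (κ ^ 2) ≤ H2 A := by
  rw [hs_eq] at h
  have h1 : κ ^ 2 ≤ (H2 A).toReal := by
    have h2 := pow_le_pow_left₀ hκ.le h 2
    rwa [Real.sq_sqrt ENNReal.toReal_nonneg] at h2
  exact ENNReal.ofReal_le_of_le_toReal h1

theorem hs_ge {A : ℕ → ℕ → ℂ} {x : ℝ} (hx : 0 ≤ x) (hA : H2 A ≠ ⊤)
    (h : ENNReal.ofReal (x ^ 2) ≤ H2 A) : x ≤ hs A := by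
  rw [hs_eq]
  refine Real.le_sqrt_of_sq_le ?_
  rwa [← ENNReal.ofReal_le_iff_le_toReal hA]

section

variable {S : Type} [MeasurableSpace S] {μ : Measure S}

/-- the restriction of a vector to a set -/
noncomputable def nr {D : Set S} (hD : MeasurableSet D) (f : Lp ℂ 2 μ) : Lp ℂ 2 μ :=
  ((Lp.memLp f).indicator hD).toLp _

theorem nr_ae {D : Set S} (hD : MeasurableSet D) (f : Lp ℂ 2 μ) :
    ⇑(nr hD f) =ᵐ[μ] D.indicator f := MemLp.coeFn_toLp _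

theorem nr_enorm {D : Set S} (hD : MeasurableSet D) (f : Lp ℂ 2 μ) :
    (fun s => ‖nr hD f s‖ₑ ^ 2) =ᵐ[μ] D.indicator fun s => ‖f s‖ₑ ^ 2 := by
  filter_upwards [nr_ae hD f] with s hs
  rw [hs]
  by_cases h : s ∈ D
  · rw [indicator_of_mem h, indicator_of_mem h]
  · rw [indicator_of_notMem h, indicator_of_notMem h]
    simp

theorem ea_nr {D : Set S} (hD : MeasurableSet D) {φ : S → ℂ} (f : Lp ℂ 2 μ) (z : ℂ) :
    ea φ (nr hD f) z = ∫⁻ s, D.indicator (fun s => ‖f s‖ₑ ^ 2 * ‖z - φ s‖ₑ⁻¹) s ∂μ := by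
  unfold ea
  refine lintegral_congr_ae ?_
  filter_upwards [nr_enorm hD f] with s hs
  have hs' : ‖nr hD f s‖ₑ ^ 2 = D.indicator (fun s => ‖f s‖ₑ ^ 2) s := hs
  show ‖nr hD f s‖ₑ ^ 2 * ‖z - φ s‖ₑ⁻¹ = _
  rw [hs']
  by_cases h : s ∈ D
  · rw [indicator_of_mem h, indicator_of_mem h]
  · rw [indicator_of_notMem h, indicator_of_notMem h, zero_mul]

theorem ea_nr_mono {D D' : Set S} (hD : MeasurableSet D) (hD' : MeasurableSet D') (h : D ⊆ D')
    {φ : S → ℂ} (f : Lp ℂ 2 μ) (z : ℂ) : ea φ (nr hD f) z ≤ ea φ (nr hD' f) z := by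
  rw [ea_nr, ea_nr]
  exact lintegral_mono fun s => indicator_le_indicator_of_subset h (fun _ => zero_le) s

theorem ea_nr_le {D : Set S} (hD : MeasurableSet D) {φ : S → ℂ} (f : Lp ℂ 2 μ) (z : ℂ) :
    ea φ (nr hD f) z ≤ ea φ f z := by
  rw [ea_nr]
  unfold ea
  exact lintegral_mono fun s => indicator_le_self' (fun _ _ => zero_le) s

/-- the splitting of the Cauchy transform -/
theorem ct_split {D : Set S} (hD : MeasurableSet D) {φ : S → ℂ} {z : ℂ} {g f : Lp ℂ 2 μ}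
    (hi : Integrable (fun s => conj (g s) * f s * (z - φ s)⁻¹) μ) :
    ct φ g f z = ct φ (nr hD g) (nr hD f) z +
      ∫ s in Dᶜ, conj (g s) * f s * (z - φ s)⁻¹ ∂μ := by
  have h1 : ct φ (nr hD g) (nr hD f) z = ∫ s in D, conj (g s) * f s * (z - φ s)⁻¹ ∂μ := by
    unfold ct
    rw [← integral_indicator hD]
    refine integral_congr_ae ?_
    filter_upwards [nr_ae hD g, nr_ae hD f] with s h1 h2
    rw [h1, h2]
    by_cases h : s ∈ D
    · rw [indicator_of_mem h, indicator_of_mem h, indicator_of_mem h]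
    · rw [indicator_of_notMem h, indicator_of_notMem h, indicator_of_notMem h]
      simp
  rw [h1, integral_add_compl hD hi]
  rfl

/-- Cauchy and Schwarz -/
theorem lint_cs {φ : S → ℂ} (hφ : Measurable φ) (g f : Lp ℂ 2 μ) (z : ℂ) :
    (∫⁻ s, ‖g s‖ₑ * ‖f s‖ₑ * ‖z - φ s‖ₑ⁻¹ ∂μ) ^ 2 ≤ ea φ g z * ea φ f z := by
  set k : S → ℝ≥0∞ := fun s => (‖z - φ s‖ₑ⁻¹) ^ (1 / 2 : ℝ) with hk
  have hkm : Measurable k := ((measurable_const.sub hφ).enorm.inv).pow_const _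
  have hk2 : ∀ s, k s ^ 2 = ‖z - φ s‖ₑ⁻¹ := fun s => by
    simp only [hk]
    rw [← ENNReal.rpow_natCast, ← ENNReal.rpow_mul]
    norm_num
  have h1 : ∫⁻ s, ‖g s‖ₑ * ‖f s‖ₑ * ‖z - φ s‖ₑ⁻¹ ∂μ ≤
      ∫⁻ s, ((fun s => ‖g s‖ₑ * k s) * fun s => ‖f s‖ₑ * k s) s ∂μ := by
    refine lintegral_mono fun s => ?_
    show ‖g s‖ₑ * ‖f s‖ₑ * ‖z - φ s‖ₑ⁻¹ ≤ (‖g s‖ₑ * k s) * (‖f s‖ₑ * k s)
    rw [← hk2 s]
    exact le_of_eq (by ring)
  have h2 := ENNReal.lintegral_mul_le_Lp_mul_Lq μ Real.HolderConjugate.two_two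
    ((meas_coe g).enorm.mul hkm).aemeasurable ((meas_coe f).enorm.mul hkm).aemeasurable
  have h3 : ∀ x : Lp ℂ 2 μ, ∫⁻ s, (‖x s‖ₑ * k s) ^ (2:ℝ) ∂μ = ea φ x z := by
    intro x
    unfold ea
    refine lintegral_congr fun s => ?_
    have : (2:ℝ) = ((2:ℕ) : ℝ) := by norm_num
    rw [this, ENNReal.rpow_natCast, mul_pow, hk2]
  have h4 : ∀ x : Lp ℂ 2 μ, (∫⁻ s, ((fun s => ‖x s‖ₑ) * k) s ^ (2:ℝ) ∂μ) = ea φ x z := h3
  rw [h4 g, h4 f] at h2
  have h5 := pow_le_pow_left' (h1.trans h2) 2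
  refine h5.trans (le_of_eq ?_)
  rw [mul_pow, ← ENNReal.rpow_natCast, ← ENNReal.rpow_natCast, ← ENNReal.rpow_mul,
    ← ENNReal.rpow_mul]
  norm_num

/-- the far part is almost constant -/
theorem far {φ : S → ℂ} (hφ : Measurable φ) {a z : ℂ} {r R : ℝ} (hr : 0 < r) (hR : 1 < R)
    (hz : ‖z - a‖ < r) {g f : Lp ℂ 2 μ}
    (hi : Integrable (fun s => conj (g s) * f s * (z - φ s)⁻¹) μ)
    (hi' : Integrable (fun s => conj (g s) * f s * (a - φ s)⁻¹) μ) :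
    ‖(∫ s in (φ ⁻¹' ball a (R * r))ᶜ, conj (g s) * f s * (z - φ s)⁻¹ ∂μ) -
      ∫ s in (φ ⁻¹' ball a (R * r))ᶜ, conj (g s) * f s * (a - φ s)⁻¹ ∂μ‖ₑ ^ 2 ≤
      ENNReal.ofReal ((R - 1)⁻¹ ^ 2) * (ea φ g a * ea φ f a) := by
  obtain ⟨D, hDdef⟩ : ∃ D, D = φ ⁻¹' ball a (R * r) := ⟨_, rfl⟩
  rw [← hDdef]
  have hD : MeasurableSet D := by rw [hDdef]; exact hφ measurableSet_ball
  rw [← integral_sub hi.integrableOn hi'.integrableOn]
  have hR0 : 0 < R - 1 := by linarith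
  have h1 : ‖∫ s in Dᶜ, (conj (g s) * f s * (z - φ s)⁻¹ - conj (g s) * f s * (a - φ s)⁻¹) ∂μ‖ₑ ≤
      ENNReal.ofReal (R - 1)⁻¹ * ∫⁻ s, ‖g s‖ₑ * ‖f s‖ₑ * ‖a - φ s‖ₑ⁻¹ ∂μ := by
    refine (enorm_integral_le_lintegral_enorm _).trans ?_
    have h2 : ∫⁻ s in Dᶜ, ‖conj (g s) * f s * (z - φ s)⁻¹ - conj (g s) * f s * (a - φ s)⁻¹‖ₑ ∂μ ≤
        ∫⁻ s in Dᶜ, ENNReal.ofReal (R - 1)⁻¹ * (‖g s‖ₑ * ‖f s‖ₑ * ‖a - φ s‖ₑ⁻¹) ∂μ := by
      refine setLIntegral_mono' hD.compl fun s hs => ?_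
      have h3 : R * r ≤ ‖φ s - a‖ := by
        rw [hDdef, mem_compl_iff, mem_preimage, mem_ball, dist_eq_norm, not_lt] at hs
        exact hs
      have h4 : R * r ≤ ‖a - φ s‖ := by rwa [norm_sub_rev]
      have h5 : (R - 1) * r ≤ ‖z - φ s‖ := by
        have h6 : ‖a - φ s‖ ≤ ‖z - φ s‖ + ‖z - a‖ := by
          calc ‖a - φ s‖ = ‖(z - φ s) - (z - a)‖ := by congr 1; ring
            _ ≤ _ := norm_sub_le _ _
        nlinarith
      have h7 : 0 < ‖a - φ s‖ := lt_of_lt_of_le (by positivity) h4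
      have h8 : 0 < ‖z - φ s‖ := lt_of_lt_of_le (by positivity) h5
      have h9 : a - φ s ≠ 0 := norm_pos_iff.1 h7
      have h10 : z - φ s ≠ 0 := norm_pos_iff.1 h8
      have h11 : conj (g s) * f s * (z - φ s)⁻¹ - conj (g s) * f s * (a - φ s)⁻¹ =
          (a - z) * (z - φ s)⁻¹ * (conj (g s) * f s * (a - φ s)⁻¹) := by
        field_simp
        ring
      have h12 : ‖(a - z) * (z - φ s)⁻¹‖ ≤ (R - 1)⁻¹ := by
        rw [norm_mul, norm_inv, norm_sub_rev a z, ← div_eq_mul_inv, div_le_iff₀ h8]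
        calc ‖z - a‖ ≤ r := hz.le
          _ = (R - 1)⁻¹ * ((R - 1) * r) := by field_simp
          _ ≤ (R - 1)⁻¹ * ‖z - φ s‖ := by gcongr
      rw [h11, enorm_mul]
      have h13 : ‖(a - z) * (z - φ s)⁻¹‖ₑ ≤ ENNReal.ofReal (R - 1)⁻¹ := by
        rw [← ofReal_norm]
        exact ENNReal.ofReal_le_ofReal h12
      have h14 : ‖conj (g s) * f s * (a - φ s)⁻¹‖ₑ = ‖g s‖ₑ * ‖f s‖ₑ * ‖a - φ s‖ₑ⁻¹ := by
        rw [enorm_mul, enorm_mul, enorm_inv h9]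
        congr 2
        rw [← ofReal_norm, Complex.norm_conj, ofReal_norm]
      rw [h14]
      gcongr
    refine h2.trans ?_
    refine (setLIntegral_le_lintegral _ _).trans ?_
    rw [lintegral_const_mul']
    exact ENNReal.ofReal_ne_top
  have h2 := pow_le_pow_left' h1 2
  refine h2.trans ?_
  rw [mul_pow, ← ENNReal.ofReal_pow (by positivity)]
  gcongr
  exact lint_cs hφ g f a

/-- the near part is small at the centre -/
theorem near_lim {φ : S → ℂ} (hφ : Measurable φ) {a : ℂ} (u : ℕ → Lp ℂ 2 μ)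
    (hu : ∑' j, ea φ (u j) a ≠ ⊤) :
    Tendsto (fun n : ℕ => ∑' j, ea φ (nr (hφ (measurableSet_ball (x := a)
      (ε := 1 / ((n : ℝ) + 1)))) (u j)) a) atTop (𝓝 0) := by
  have huj : ∀ j, ea φ (u j) a ≠ ⊤ := fun j => ENNReal.ne_top_of_tsum_ne_top hu j
  have hm : ∀ j, Measurable fun s => ‖u j s‖ₑ ^ 2 * ‖a - φ s‖ₑ⁻¹ := fun j =>
    ((Lp.stronglyMeasurable (u j)).measurable.enorm.pow_const 2).mul
      (measurable_const.sub hφ).enorm.inv
  have hw : Measurable fun s => ∑' j, ‖u j s‖ₑ ^ 2 * ‖a - φ s‖ₑ⁻¹ := Measurable.tsum hm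
  have h1 : ∀ n : ℕ, ∑' j, ea φ (nr (hφ (measurableSet_ball (x := a)
      (ε := 1 / ((n : ℝ) + 1)))) (u j)) a =
      ∫⁻ s, (φ ⁻¹' ball a (1 / ((n : ℝ) + 1))).indicator
        (fun s => ∑' j, ‖u j s‖ₑ ^ 2 * ‖a - φ s‖ₑ⁻¹) s ∂μ := by
    intro n
    simp only [ea_nr]
    rw [← lintegral_tsum fun j => ((hm j).indicator (hφ measurableSet_ball)).aemeasurable]
    refine lintegral_congr fun s => ?_
    by_cases h : s ∈ φ ⁻¹' ball a (1 / ((n : ℝ) + 1))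
    · simp only [indicator_of_mem h]
    · simp only [indicator_of_notMem h, tsum_zero]
  simp only [h1]
  have h2 : Tendsto (fun n : ℕ => ∫⁻ s, (φ ⁻¹' ball a (1 / ((n : ℝ) + 1))).indicator
        (fun s => ∑' j, ‖u j s‖ₑ ^ 2 * ‖a - φ s‖ₑ⁻¹) s ∂μ) atTop (𝓝 (∫⁻ _ : S, 0 ∂μ)) := ?_
  · rwa [lintegral_zero] at h2
  refine tendsto_lintegral_of_dominated_convergence
    (fun s => ∑' j, ‖u j s‖ₑ ^ 2 * ‖a - φ s‖ₑ⁻¹) (fun n => hw.indicator (hφ measurableSet_ball))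
    (fun n => Eventually.of_forall fun s => indicator_le_self' (fun _ _ => zero_le) s) ?_ ?_
  · rw [lintegral_tsum fun j => (hm j).aemeasurable]
    exact hu
  · have h3 : ∀ᵐ s ∂μ, ∀ j, φ s = a → u j s = 0 := ae_all_iff.2 fun j => noatom hφ (u j) (huj j)
    filter_upwards [h3] with s hs
    by_cases h4 : φ s = a
    · have h5 : ∑' j, ‖u j s‖ₑ ^ 2 * ‖a - φ s‖ₑ⁻¹ = 0 := by
        simp only [hs _ h4]
        simp
      refine tendsto_const_nhds.congr fun n => ?_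
      by_cases h : s ∈ φ ⁻¹' ball a (1 / ((n : ℝ) + 1))
      · rw [indicator_of_mem h, h5]
      · rw [indicator_of_notMem h]
    · have h5 : 0 < ‖φ s - a‖ := norm_pos_iff.2 (sub_ne_zero.2 h4)
      have h6 : Tendsto (fun n : ℕ => 1 / ((n : ℝ) + 1)) atTop (𝓝 0) :=
        tendsto_one_div_add_atTop_nhds_zero_nat
      refine tendsto_const_nhds.congr' ?_
      filter_upwards [h6.eventually (gt_mem_nhds h5)] with n hn
      rw [indicator_of_notMem]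
      rw [mem_preimage, mem_ball, dist_eq_norm]
      exact not_lt.2 hn.le

/-- the norms of the near parts -/
theorem near_norm {φ : S → ℂ} (hφ : Measurable φ) {a : ℂ} {t : ℝ} (ht : 0 < t) (f : Lp ℂ 2 μ) :
    ENNReal.ofReal (‖nr (hφ (measurableSet_ball (x := a) (ε := t))) f‖ ^ 2) ≤
      ENNReal.ofReal t * ea φ (nr (hφ (measurableSet_ball (x := a) (ε := t))) f) a := by
  rw [← lint_sq, ea_nr, lintegral_congr_ae (nr_enorm _ f), ← lintegral_const_mul' _ _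
    ENNReal.ofReal_ne_top]
  refine lintegral_mono fun s => ?_
  by_cases h : s ∈ φ ⁻¹' ball a t
  · rw [indicator_of_mem h, indicator_of_mem h]
    have h1 : ‖a - φ s‖ₑ ≤ ENNReal.ofReal t := by
      rw [mem_preimage, mem_ball, dist_eq_norm] at h
      rw [← ofReal_norm, norm_sub_rev]
      exact ENNReal.ofReal_le_ofReal h.le
    have h2 : 1 ≤ ENNReal.ofReal t * ‖a - φ s‖ₑ⁻¹ := by
      by_cases h3 : ‖a - φ s‖ₑ = 0
      · rw [h3, ENNReal.inv_zero, ENNReal.mul_top]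
        · exact le_top
        · rw [Ne, ENNReal.ofReal_eq_zero, not_le]
          exact ht
      · rw [← ENNReal.mul_inv_cancel h3 (by simp)]
        gcongr
    calc ‖f s‖ₑ ^ 2 = ‖f s‖ₑ ^ 2 * 1 := (mul_one _).symm
      _ ≤ ‖f s‖ₑ ^ 2 * (ENNReal.ofReal t * ‖a - φ s‖ₑ⁻¹) := by gcongr
      _ = _ := by ring
  · rw [indicator_of_notMem h]
    exact zero_le

/-- sums of norms of the near parts -/
theorem near_sum {φ : S → ℂ} (hφ : Measurable φ) {a : ℂ} {t η : ℝ} (ht : 0 < t) (hη : 0 ≤ η)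
    (u : ℕ → Lp ℂ 2 μ)
    (h : ∑' j, ea φ (nr (hφ (measurableSet_ball (x := a) (ε := t))) (u j)) a ≤
      ENNReal.ofReal η) :
    Summable (fun j => ‖nr (hφ (measurableSet_ball (x := a) (ε := t))) (u j)‖ ^ 2) ∧
      ∑' j, ‖nr (hφ (measurableSet_ball (x := a) (ε := t))) (u j)‖ ^ 2 ≤ t * η := by
  have h1 : ∑' j, ENNReal.ofReal (‖nr (hφ (measurableSet_ball (x := a) (ε := t))) (u j)‖ ^ 2) ≤
      ENNReal.ofReal (t * η) := by
    calc ∑' j, ENNReal.ofReal (‖nr (hφ (measurableSet_ball (x := a) (ε := t))) (u j)‖ ^ 2)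
        ≤ ∑' j, ENNReal.ofReal t *
            ea φ (nr (hφ (measurableSet_ball (x := a) (ε := t))) (u j)) a :=
          ENNReal.tsum_le_tsum fun j => near_norm hφ ht (u j)
      _ = ENNReal.ofReal t *
            ∑' j, ea φ (nr (hφ (measurableSet_ball (x := a) (ε := t))) (u j)) a :=
          ENNReal.tsum_mul_left
      _ ≤ ENNReal.ofReal t * ENNReal.ofReal η := by gcongr
      _ = ENNReal.ofReal (t * η) := (ENNReal.ofReal_mul ht.le).symm
  have h2 : Summable fun j => ‖nr (hφ (measurableSet_ball (x := a) (ε := t))) (u j)‖ ^ 2 := by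
    have h3 := ENNReal.summable_toReal (ne_top_of_le_ne_top ENNReal.ofReal_ne_top h1)
    refine h3.congr fun j => ?_
    exact ENNReal.toReal_ofReal (by positivity)
  refine ⟨h2, ?_⟩
  rw [← ENNReal.ofReal_tsum_of_nonneg (fun _ => by positivity) h2] at h1
  exact (ENNReal.ofReal_le_ofReal_iff (by positivity)).1 h1

end

/-- **Module APX.** -/
theorem apx (_h1 : S_L2B) (h2 : S_HSB) : S_APX := by
  obtain ⟨C₀, hC₀, hWk⟩ := h2.2.2
  refine ⟨C₀, by linarith, ?_⟩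
  intro S _ μ _ φ hφ u v hu hv
  filter_upwards [ae_fin hφ u hu, ae_fin hφ v hv] with a au av
  intro κ ε C hκ hε hC
  obtain ⟨Ju, hJu⟩ : ∃ Ju, Ju = (∑' j, ea φ (u j) a).toReal := ⟨_, rfl⟩
  obtain ⟨Jv, hJv⟩ : ∃ Jv, Jv = (∑' j, ea φ (v j) a).toReal := ⟨_, rfl⟩
  have hJu0 : 0 ≤ Ju := by rw [hJu]; exact ENNReal.toReal_nonneg
  have hJv0 : 0 ≤ Jv := by rw [hJv]; exact ENNReal.toReal_nonneg
  have hJu' : ∑' j, ea φ (u j) a = ENNReal.ofReal Ju := by rw [hJu, ENNReal.ofReal_toReal au]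
  have hJv' : ∑' j, ea φ (v j) a = ENNReal.ofReal Jv := by rw [hJv, ENNReal.ofReal_toReal av]
  obtain ⟨q, hq⟩ : ∃ q, q = 9 * (Jv * Ju) / κ ^ 2 := ⟨_, rfl⟩
  have hq0 : 0 ≤ q := by rw [hq]; positivity
  obtain ⟨R, hR⟩ : ∃ R, R = 2 + q := ⟨_, rfl⟩
  have hR1 : 1 < R := by rw [hR]; linarith
  have hR0 : 0 < R := by linarith
  have hRJ : (R - 1)⁻¹ ^ 2 * (Jv * Ju) ≤ κ ^ 2 / 9 := by
    have h4 : 0 < R - 1 := by linarith
    have h5 : Jv * Ju = q * κ ^ 2 / 9 := by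
      rw [hq]
      field_simp
    have h6 : q ≤ (R - 1) ^ 2 := by
      rw [hR]
      nlinarith
    rw [h5, inv_pow, ← div_eq_inv_mul, div_le_iff₀ (by positivity)]
    nlinarith [mul_le_mul_of_nonneg_right h6 (show 0 ≤ κ ^ 2 / 9 by positivity)]
  obtain ⟨η, hη⟩ : ∃ η, η = min (κ ^ 2 / (9 * (Jv + 1))) (ε * κ / (3 * C₀ * (C + 1) * R)) :=
    ⟨_, rfl⟩
  have hη0 : 0 < η := by
    rw [hη]
    refine lt_min (by positivity) ?_
    have : 0 < C₀ := by linarith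
    positivity
  have hη1 : Jv * η ≤ κ ^ 2 / 9 := by
    have h4 : η ≤ κ ^ 2 / (9 * (Jv + 1)) := by rw [hη]; exact min_le_left _ _
    calc Jv * η ≤ (Jv + 1) * (κ ^ 2 / (9 * (Jv + 1))) := by
          exact mul_le_mul (by linarith) h4 hη0.le (by linarith)
      _ = κ ^ 2 / 9 := by field_simp
  have hC₀' : 0 < C₀ := by linarith
  have hη2 : 3 * C₀ * C * R * η / κ ≤ ε := by
    have h4 : η ≤ ε * κ / (3 * C₀ * (C + 1) * R) := by rw [hη]; exact min_le_right _ _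
    rw [div_le_iff₀ hκ]
    calc 3 * C₀ * C * R * η ≤ 3 * C₀ * (C + 1) * R * (ε * κ / (3 * C₀ * (C + 1) * R)) := by
          refine mul_le_mul ?_ h4 hη0.le (by positivity)
          have : C ≤ C + 1 := by linarith
          gcongr
      _ = ε * κ := by
        have : 0 < C + 1 := by linarith
        field_simp
  -- the threshold
  have hηpos : 0 < ENNReal.ofReal η := ENNReal.ofReal_pos.2 hη0
  obtain ⟨n, hn1, hn2⟩ := (((near_lim hφ u au).eventually (gt_mem_nhds hηpos)).and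
    ((near_lim hφ v av).eventually (gt_mem_nhds hηpos))).exists
  obtain ⟨t₀, ht₀⟩ : ∃ t₀ : ℝ, t₀ = 1 / ((n : ℝ) + 1) := ⟨_, rfl⟩
  have ht₀p : 0 < t₀ := by rw [ht₀]; positivity
  rw [← ht₀] at hn1 hn2
  refine ⟨t₀ / R, by positivity, ?_⟩
  intro r δ h hr hrρ hδ hint h0 hsupp hWT
  obtain ⟨t, ht⟩ : ∃ t, t = R * r := ⟨_, rfl⟩
  have ht0 : 0 < t := by rw [ht]; positivity
  have htt : t ≤ t₀ := by
    rw [le_div_iff₀ hR0] at hrρ
    rw [ht]
    linarith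
  have hD : MeasurableSet (φ ⁻¹' ball a t) := hφ measurableSet_ball
  have hsub : φ ⁻¹' ball a t ⊆ φ ⁻¹' ball a t₀ := preimage_mono (ball_subset_ball htt)
  have hEu : ∑' j, ea φ (nr hD (u j)) a ≤ ENNReal.ofReal η :=
    (ENNReal.tsum_le_tsum fun j => ea_nr_mono hD _ hsub (u j) a).trans hn1.le
  have hEv : ∑' j, ea φ (nr hD (v j)) a ≤ ENNReal.ofReal η :=
    (ENNReal.tsum_le_tsum fun j => ea_nr_mono hD _ hsub (v j) a).trans hn2.le
  obtain ⟨su, nu⟩ := near_sum hφ ht0 hη0.le u hEu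
  obtain ⟨sv, nv⟩ := near_sum hφ ht0 hη0.le v hEv
  have hsq : √(t * η) ^ 2 = t * η := Real.sq_sqrt (by positivity)
  obtain ⟨hmain, -⟩ := hWk h C δ hint h0 hC hδ hWT S μ φ hφ (fun j => nr hD (u j))
    (fun j => nr hD (v j)) 0 (√(t * η)) (√(t * η)) (Real.sqrt_nonneg _) (Real.sqrt_nonneg _) su sv
    (by rw [hsq]; exact nu) (by rw [hsq]; exact nv) (κ / 3) (by positivity)
  have hmeas : MeasurableSet
      {z | κ / 3 ≤ hs (Fm φ (fun j => nr hD (u j)) (fun j => nr hD (v j)) z)} :=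
    measurableSet_le measurable_const (h2.1 S μ φ hφ _ _ su sv).2.2.1
  have hball : MeasurableSet ((ball a r)ᶜ) := measurableSet_ball.compl
  -- the pointwise comparison
  have hpt : ∀ᵐ z : ℂ, κ ≤ hs (df (Fm φ u v z) (Fm φ u v a)) → z ∈ ball a r →
      κ / 3 ≤ hs (Fm φ (fun j => nr hD (u j)) (fun j => nr hD (v j)) z) := by
    filter_upwards [ae_fin hφ u hu, ae_fin hφ v hv] with z zu zv
    intro h4 hz
    have hz' : ‖z - a‖ < r := by rwa [mem_ball, dist_eq_norm] at hz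
    have zuj : ∀ j, ea φ (u j) z ≠ ⊤ := fun j => ENNReal.ne_top_of_tsum_ne_top zu j
    have zvj : ∀ j, ea φ (v j) z ≠ ⊤ := fun j => ENNReal.ne_top_of_tsum_ne_top zv j
    have auj : ∀ j, ea φ (u j) a ≠ ⊤ := fun j => ENNReal.ne_top_of_tsum_ne_top au j
    have avj : ∀ j, ea φ (v j) a ≠ ⊤ := fun j => ENNReal.ne_top_of_tsum_ne_top av j
    obtain ⟨Fz, hFz⟩ : ∃ Fz, Fz = Fm φ (fun j => nr hD (u j)) (fun j => nr hD (v j)) z := ⟨_, rfl⟩
    obtain ⟨Fa, hFa⟩ : ∃ Fa, Fa = Fm φ (fun j => nr hD (u j)) (fun j => nr hD (v j)) a := ⟨_, rfl⟩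
    obtain ⟨Ff, hFf⟩ : ∃ Ff : ℕ → ℕ → ℂ, Ff = fun i j =>
      (∫ s in (φ ⁻¹' ball a t)ᶜ, conj (v i s) * u j s * (z - φ s)⁻¹ ∂μ) -
        ∫ s in (φ ⁻¹' ball a t)ᶜ, conj (v i s) * u j s * (a - φ s)⁻¹ ∂μ := ⟨_, rfl⟩
    have e1 : df (Fm φ u v z) (Fm φ u v a) = fun i j => Fz i j + -Fa i j + Ff i j := by
      funext i j
      rw [hFz, hFa, hFf]
      unfold df Fm
      rw [ct_split hD (ct_int hφ (zvj i) (zuj j)), ct_split hD (ct_int hφ (avj i) (auj j))]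
      ring
    have h5 := le_H2 hκ h4
    rw [e1] at h5
    have h6 := h5.trans (H2_add3 Fz (fun i j => -Fa i j) Ff)
    rw [H2_neg] at h6
    have h7 : H2 Fz ≠ ⊤ := by
      rw [hFz]
      refine ne_top_of_le_ne_top (ENNReal.mul_ne_top zv zu) ((H2_Fm hφ _ _ z).trans ?_)
      gcongr with j j
      · exact ea_nr_le hD (v j) z
      · exact ea_nr_le hD (u j) z
    have h8 : H2 Fa ≤ ENNReal.ofReal (κ ^ 2 / 9) := by
      rw [hFa]
      calc H2 (Fm φ (fun j => nr hD (u j)) (fun j => nr hD (v j)) a)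
          ≤ (∑' j, ea φ (nr hD (v j)) a) * ∑' j, ea φ (nr hD (u j)) a := H2_Fm hφ _ _ a
        _ ≤ (∑' j, ea φ (v j) a) * ENNReal.ofReal η := by
          gcongr with j
          exact ea_nr_le hD (v j) a
        _ = ENNReal.ofReal (Jv * η) := by rw [hJv', ENNReal.ofReal_mul hJv0]
        _ ≤ _ := ENNReal.ofReal_le_ofReal hη1
    have h9 : H2 Ff ≤ ENNReal.ofReal (κ ^ 2 / 9) := by
      have h10 : H2 Ff ≤ (∑' i, ENNReal.ofReal ((R - 1)⁻¹ ^ 2) * ea φ (v i) a) *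
          ∑' j, ea φ (u j) a := by
        refine H2_le fun i j => ?_
        rw [hFf, ht, mul_assoc]
        exact far hφ hr hR1 hz' (ct_int hφ (zvj i) (zuj j)) (ct_int hφ (avj i) (auj j))
      refine h10.trans ?_
      rw [ENNReal.tsum_mul_left, hJv', hJu', ← ENNReal.ofReal_mul (by positivity),
        ← ENNReal.ofReal_mul (by positivity), mul_assoc]
      exact ENNReal.ofReal_le_ofReal hRJ
    rw [← hFz]
    refine hs_ge (by positivity) h7 ?_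
    have h11 : ENNReal.ofReal (κ ^ 2) ≤
        3 * (ENNReal.ofReal (H2 Fz).toReal + ENNReal.ofReal (κ ^ 2 / 9) +
          ENNReal.ofReal (κ ^ 2 / 9)) := by
      rw [ENNReal.ofReal_toReal h7]
      refine h6.trans ?_
      gcongr
    have e3 : (3 : ℝ≥0∞) = ENNReal.ofReal 3 := by simp
    rw [e3, ← ENNReal.ofReal_add ENNReal.toReal_nonneg (by positivity),
      ← ENNReal.ofReal_add (by positivity) (by positivity), ← ENNReal.ofReal_mul (by norm_num),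
      ENNReal.ofReal_le_ofReal_iff (by positivity)] at h11
    rw [ENNReal.ofReal_le_iff_le_toReal h7]
    nlinarith
  have hle : ∫ z in {z | κ ≤ hs (df (Fm φ u v z) (Fm φ u v a))}, h z ≤
      ∫ z in {z | κ / 3 ≤ hs (Fm φ (fun j => nr hD (u j)) (fun j => nr hD (v j)) z)}, h z := by
    have h4 : ∫ z in {z | κ ≤ hs (df (Fm φ u v z) (Fm φ u v a))}, h z ≤
        ∫ z in {z | κ / 3 ≤ hs (Fm φ (fun j => nr hD (u j)) (fun j => nr hD (v j)) z)} ∪
          (ball a r)ᶜ, h z := by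
      refine setIntegral_mono_set hint.integrableOn (Eventually.of_forall fun z => h0 z) ?_
      filter_upwards [hpt] with z hz h5
      by_cases h6 : z ∈ ball a r
      · exact Or.inl (hz h5 h6)
      · exact Or.inr h6
    refine h4.trans (le_of_eq ?_)
    refine setIntegral_eq_of_subset_of_forall_sdiff_eq_zero (hmeas.union hball)
      subset_union_left fun z hz => ?_
    rcases hz with ⟨hz1 | hz1, hz2⟩
    · exact absurd hz1 hz2
    · exact hsupp z hz1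
  refine hle.trans (hmain.trans ?_)
  rw [Real.mul_self_sqrt (by positivity)]
  have h5 : C₀ * (C * (t * η) / (κ / 3) + δ) = 3 * C₀ * C * R * η / κ * r + C₀ * δ := by
    rw [ht]
    field_simp
  rw [h5]
  gcongr

end Pool.Agent.H50.SM.APX
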