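import Pool.Graph.R_pool_sql_team_seeded_3997aac3.Q130.TR.Stm

/-!
# Project SM (helper50): direct summands of trace class perturbations of normal operators have
invariant subspaces

`T = N + K`, `N` the multiplication by `φ` on `L²(μ)`, `K f = ∑ ⟪v j, f⟫ u j` (`Repr K u v`), `P` an
idempotent which commutes with `T`. Notation of the library project TR (`Q130/TR/Stm.lean`):
`ct φ g f z = ∫ conj g f (z - φ)⁻¹ dμ`, `F = Fm φ u v z = (ct φ (v i) (u j) z)`,
`G = Fm φ u (pv P v) z`, `G' = Fm φ (pu P u) v z`, `H' = Fm φ (pu P u) (pv P v) z`.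
`KerP`: `F c = c → G c = 0`. `CokP`: `F† d = d → G'† d = 0`.

Plan. (I) Thomson's scheme: if `CokP` and not `KerP` on a set of positive area then the restriction of
`T` to the range of `P` has a nontrivial invariant subspace (`S_THM`). (II) Otherwise (for `T` and for
the adjoint) `KerP ↔ CokP` almost everywhere, and there are chains for the operator and the adjoint at
all points of the spectrum of the restriction (`S_ALT`). (III) Spectrum of one point: `S_SPC`, `S_QNC`,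
`S_LOM`.
-/

set_option autoImplicit false

namespace Pool.Agent.H50.SM

open MeasureTheory Set Metric Filter Topology
open scoped InnerProductSpace ENNReal NNReal ComplexConjugate
open Pool.Agent.H352R3.SA (Den)
open Pool.Agent.Y283.NK (ct IsMul Repr)
open Pool.Agent.Y271.RO (IsChain pw fd Cheap)
open Pool.Agent.Q130.TC (WT Inj)
open Pool.Agent.Q130.TR
open ContinuousLinearMap (adjoint)

/-! ### Operators on a Hilbert space -/

/-- `T` has a nontrivial closed invariant subspace inside the range of `P` -/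
def NI {H : Type} [NormedAddCommGroup H] [InnerProductSpace ℂ H] (T P : H →L[ℂ] H) : Prop :=
  ∃ V : Submodule ℂ H, IsClosed (V : Set H) ∧ V ≠ ⊥ ∧ (∀ x ∈ V, P x = x) ∧
    (∃ x, P x = x ∧ x ∉ V) ∧ ∀ x ∈ V, T x ∈ V

/-- the range of the idempotent `P` has dimension at least two -/
def Dim2 {H : Type} [NormedAddCommGroup H] [InnerProductSpace ℂ H] (P : H →L[ℂ] H) : Prop :=
  ∀ x : H, ∃ y, P y = y ∧ ∀ t : ℂ, y ≠ t • x

/-- the restriction of `T - a` to the range of `P` is bijective -/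
def BijP {H : Type} [NormedAddCommGroup H] [InnerProductSpace ℂ H] (T P : H →L[ℂ] H) (a : ℂ) :
    Prop :=
  (∀ x, ∃ W, P x = T (P W) - a • P W) ∧ ∀ y, P y = y → T y = a • y → y = 0

/-- the vector `q(T†) x`, where `q(z) = conj p(conj z)` -/
noncomputable def yv {H : Type} [NormedAddCommGroup H] [InnerProductSpace ℂ H] [CompleteSpace H]
    (T : H →L[ℂ] H) (x : H) (p : Polynomial ℂ) : H :=
  p.sum fun k b => conj b • ((adjoint T) ^ k) x

/-- EVI (module EVI): a bounded point evaluation gives an invariant subspace.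

Proof. `p = 1`: `x ≠ 0`. `V` = closure of the span of the vectors `(T† - conj a) (T†)^k x`. `V` is
invariant under `T†`, all its vectors `g` satisfy `P† g = g` (`P†` commutes with `T†`, `P† x = x`,
closed condition). `x ∉ V`: for a vector `g = (T† - conj a) q(T†) x` of the span, `x - g = yv T x p`
with `p(a) = 1` (`p = 1 - (X - a) q^#`), so `‖x - g‖ ≥ 1 / C`. There is `h` orthogonal to `V` with
`⟪h, x⟫ ≠ 0` (`h = x -` projection of `x` to `V`). (1) If `V ≠ ⊥`: `V' = {y | P y = y, y ⟂ V}` is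
closed, invariant under `T`; it contains `P h` (`⟪P h, g⟫ = ⟪h, P† g⟫ = ⟪h, g⟫ = 0` for `g ∈ V`) and
`P h ≠ 0` as `⟪P h, x⟫ = ⟪h, P† x⟫ = ⟪h, x⟫ ≠ 0`; and if `0 ≠ g ∈ V` then `P g` is in the range of `P`
and `⟪P g, g⟫ = ⟪g, P† g⟫ = ‖g‖² ≠ 0`, so `P g ∉ V'`. (2) If `V = ⊥`: `T† x = conj a • x`. `V' = {y |
P y = y, y ⟂ x}` is closed, invariant, `P x ∉ V'`; `V' ≠ ⊥`: take `y₁ = P x` (note `⟪P x, x⟫ = ‖x‖²`)
and `y₂` in the range of `P` which is not a multiple of `y₁` (`Dim2`); a combination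
`y₂ - t • y₁ ≠ 0` is orthogonal to `x`. -/
def S_EVI : Prop :=
  ∀ (H : Type) [NormedAddCommGroup H] [InnerProductSpace ℂ H] [CompleteSpace H]
    (T P : H →L[ℂ] H), P * P = P → P * T = T * P → Dim2 P → ∀ (x : H) (a : ℂ) (C : ℝ),
    adjoint P x = x → (∀ p : Polynomial ℂ, ‖p.eval a‖ ≤ C * ‖yv T x p‖) → NI T P

/-- ADJ (module ADJ): duality and eigenvectors.

Proof. (1) Let `V` be the subspace for `(T†, P†)`. `V' = {y | P y = y, ∀ g ∈ V, ⟪g, y⟫ = 0}`. Closed,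
invariant under `T`. `V' ≠ ⊥`: let `x ∉ V`, `P† x = x`, `h = x - proj_V x ≠ 0`, `h ⟂ V`,
`⟪h, x⟫ = ‖h‖² ≠ 0`; `P h ∈ V'` since `⟪g, P h⟫ = ⟪P† g, h⟫ = ⟪g, h⟫ = 0` and
`⟪x, P h⟫ = ⟪P† x, h⟫ = ⟪x, h⟫ ≠ 0`. Not everything: `0 ≠ g ∈ V`, `⟪g, P g⟫ = ⟪P† g, g⟫ = ‖g‖² ≠ 0`,
so `P g ∉ V'`, `P (P g) = P g`.
(2) An eigenvector `y ≠ 0` of `T†` in the range of `P†`: the line of `y` is invariant under `T†`;
there is a vector of the range of `P†` which is not a multiple of `y` (otherwise `P†`, hence `P`, has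
rank at most one, against `Dim2`); use (1). (3) An eigenvector of `T` in the range of `P`: the line.
(4) `Dim2 P → Dim2 P†`: if all vectors of the range of `P†` are multiples of `x`: for `y` with
`P y = y`, `g` arbitrary: `⟪g, y⟫ = ⟪P† g, y⟫`, `P† g = s(g) • x`, so `y` is determined by `⟪x, y⟫`:
all `y` in the range of `P` with `⟪x, y⟫ = 0` vanish, so the range has dimension at most one. -/
def S_ADJ : Prop :=
  ∀ (H : Type) [NormedAddCommGroup H] [InnerProductSpace ℂ H] [CompleteSpace H]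
    (T P : H →L[ℂ] H), P * P = P → P * T = T * P →
    (NI (adjoint T) (adjoint P) → NI T P) ∧
    (Dim2 P → Dim2 (adjoint P)) ∧
    (Dim2 P → ∀ (a : ℂ) (y : H), y ≠ 0 → adjoint P y = y → adjoint T y = a • y → NI T P) ∧
    (Dim2 P → ∀ (a : ℂ) (y : H), y ≠ 0 → P y = y → T y = a • y → NI T P)

/-- ORT (module ORT): chains of `T` and `T†` for disjoint discs.

Proof. Let `X`, `Y` be the chains, `x = P (X 0) ≠ 0`, `y = P† (Y 0) ≠ 0`. `k ↦ P (X k)` is a chain of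
`T` at `(a, r)` and `k ↦ P† (Y k)` is a chain of `T†` at `(conj b, r)`. `⟪y, (T^m) x⟫ = 0` for all
`m`: `k ↦ T^m P (X k)` is again a chain of `T` at `(a, r)`, and chains for disjoint discs are
orthogonal (the library has this; look for the lemma in `Q130/TC/Ops.lean`, `Q130/TR/Red.lean`,
`R_seed8/Y271/RO`, `R_seed8/Y283/NK`: it is used there to get `HasHyp` from the chains of the operator
and of the adjoint. Direct proof: for `|z - a| > r` put `f z = ∑ (z - a)^(-k-1) X k`, so that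
`(z - T) f z = X 0`; for `|z - b| > r` put `g z = ∑ conj(z - b)^(-k-1) Y k`; on the common domain
`⟪Y 0, f z⟫ = ⟪g z, X 0⟫`; the first is holomorphic for `|z - a| > r`, the second for `|z - b| > r`,
together an entire function which tends to 0, so it vanishes; the coefficient of `(z - a)⁻¹` is
`⟪Y 0, X 0⟫ = 0`). `V` = closure of the span of the `T^m x`. It is invariant under `T`, in the range of
`P`, `V ≠ ⊥`; `y ⟂ V` and `⟪y, P y⟫ = ⟪P† y, y⟫ = ‖y‖² ≠ 0`, so `P y ∉ V`. -/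
def S_ORT : Prop :=
  ∀ (H : Type) [NormedAddCommGroup H] [InnerProductSpace ℂ H] [CompleteSpace H]
    (T P : H →L[ℂ] H), P * P = P → P * T = T * P → ∀ (a b : ℂ) (r : ℝ), 0 < r →
    2 * r < ‖a - b‖ → HasChP T P a r → HasChP (adjoint T) (adjoint P) (conj b) r → NI T P

/-- SPC (module SPC): the spectrum of the restriction to the range of `P`.

Proof. Let `M` be the range of `P` (closed: the kernel of `1 - P`), a nonzero Banach space, `T₁` the
restriction of `T` to `M`. `a ∈ spectrum T₁` iff `T₁ - a` is not bijective (open mapping theorem), iff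
`¬ BijP T P a`. The spectrum is not empty. If it has two points: left. If it is `{a}`: the spectral
radius of `T₁ - a` is zero, `‖(T₁ - a)^n‖^(1/n) → 0` (Gelfand's formula), hence for `ε > 0` there is
`C` with `‖(T₁ - a)^n‖ ≤ C ε^n`, and `(T - a)^n P x = (T₁ - a)^n (P x)`. -/
def S_SPC : Prop :=
  ∀ (H : Type) [NormedAddCommGroup H] [InnerProductSpace ℂ H] [CompleteSpace H]
    (T P : H →L[ℂ] H), P * P = P → P * T = T * P → P ≠ 0 →
    (∃ a b : ℂ, a ≠ b ∧ ¬ BijP T P a ∧ ¬ BijP T P b) ∨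
      ∃ a : ℂ, ∀ ε : ℝ, 0 < ε → ∃ C : ℝ, ∀ n : ℕ,
        ‖(T - a • (1 : H →L[ℂ] H)) ^ n * P‖ ≤ C * ε ^ n

/-- QNC (module QNC): a quasinilpotent direct summand of normal plus compact is compact.

Proof. Replace `N` by `N - a`: `a = 0`, `T = N + K`. Claim: if `x n` are unit (or bounded) vectors
with `P (x n) = x n`, `x n → 0` weakly, then `T (x n) → 0` in norm. Indeed `T^k x n - N^k x n → 0` in
norm for each `k` (`T^k - N^k` is compact, and compact operators map weakly null sequences to norm null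
sequences). For the normal operator `N` and `‖x‖ ≤ 1`: `‖N x‖^k ≤ ‖N^k x‖ ‖x‖^(k-1)` (log-convexity:
`‖N^j x‖² = ⟪N† N^j x, N^(j-1) x⟫ ≤ ‖N^(j+1) x‖ ‖N^(j-1) x‖` as `‖N† w‖ = ‖N w‖`). Hence
`limsup ‖N x n‖^k ≤ limsup ‖T^k x n‖ ≤ ‖T^k P‖ ≤ C ε^k` for all `k`, so `limsup ‖N x n‖ ≤ ε`. Then
`T x n = N x n + K x n → 0`. Compactness of `T P`: for a bounded sequence `w n` take a weakly
convergent subsequence (Hilbert space; the library has it, e.g. in the proof of `S_WLP`, or use the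
criterion of the library: an operator which maps weakly null sequences to norm null sequences is
compact; search `IsCompactOperator` in `R_seed8` and `Q130/TC/Ops.lean`, `Q216/TC/Srk.lean`), then
`P (w n - w)` is weakly null. -/
def S_QNC : Prop :=
  ∀ (H : Type) [NormedAddCommGroup H] [InnerProductSpace ℂ H] [CompleteSpace H]
    (N K P : H →L[ℂ] H), IsStarNormal N → IsCompactOperator (⇑K) → P * P = P →
    P * (N + K) = (N + K) * P → ∀ a : ℂ, (∀ ε : ℝ, 0 < ε → ∃ C : ℝ, ∀ n : ℕ,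
      ‖(N + K - a • (1 : H →L[ℂ] H)) ^ n * P‖ ≤ C * ε ^ n) →
    IsCompactOperator (⇑((N + K - a • (1 : H →L[ℂ] H)) * P))

/-- LOM (module LOM): scalar plus compact.

Proof. If `(T - a) P = 0` every line in the range of `P` is invariant, and it is not everything by
`Dim2`. Otherwise let `M` be the range of `P` (a closed subspace, so a Hilbert space), `T₁` the
restriction; `T₁ - a` is compact and not zero; Lomonosov's theorem (in the library: search
`IsCompactOperator` together with `HasHyp` in `Pool/Graph/R_seed8` or `Y271/RO`: it is used for the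
case scalar plus compact of `S_ESS`) gives a nontrivial hyperinvariant subspace of `T₁`; map it to
`H`. -/
def S_LOM : Prop :=
  ∀ (H : Type) [NormedAddCommGroup H] [InnerProductSpace ℂ H] [CompleteSpace H]
    (T P : H →L[ℂ] H), P * P = P → P * T = T * P → Dim2 P → ∀ a : ℂ,
    IsCompactOperator (⇑((T - a • (1 : H →L[ℂ] H)) * P)) → NI T P

/-! ### Matrices -/

/-- the relations between the four matrices, without the conditions on kernels -/
structure Sys0 (F G G' H' : ℕ → ℕ → ℂ) : Prop where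
  hF : HS F
  hG : HS G
  hG' : HS G'
  hH' : HS H'
  id1 : ∀ i j, G i j - pm F G i j = G' i j - pm G' F i j
  id2 : ∀ i j, G i j - pm G G i j = H' i j - pm H' F i j
  id3 : ∀ i j, G' i j - pm G' G' i j = H' i j - pm F H' i j

/-- the difference of two matrices -/
def df (A B : ℕ → ℕ → ℂ) (i j : ℕ) : ℂ := A i j - B i j

/-- ALG (module ALG): the kernel of `1 - F` in the range of `G` persists under small perturbations if
the cokernel has no such part.

Proof. Work with the bounded operators on `ℓ²` given by the matrices (`‖A‖ ≤ hs A`; `F` is compact).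
(1) `1 - F` is bounded below on the orthogonal complement of its kernel (compactness), its range is
closed, equal to the orthogonal complement of `ker (1 - F)†`. (2) If `F† d = d` then `G'† d = 0`, so
the range of `G'` is contained in the range of `1 - F`; hence there is a bounded operator `S` with
`(1 - F) S = G'`. (3) Let `F₁, G₁, G₁', H₁'` be near. `R = (F - F₁) S + (G' - G₁')` is small and
`(1 - F₁) S = G₁' + R` [`(1 - F₁) S = (1 - F) S + (F - F₁) S = G' + (F - F₁) S = G₁' + R`]. By id1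
(`(1 - F₁) G₁ = G₁' (1 - F₁)`) `(1 - F₁) G₁ S = G₁' (1 - F₁) S = G₁'² + G₁' R`, by id3
`(1 - F₁) H₁' = G₁' - G₁'²`. Sum: `(1 - F₁) (G₁ S + H₁') = G₁' (1 + R)`, so
`M = (G₁ S + H₁') (1 + R)⁻¹` satisfies `(1 - F₁) M = G₁'`, `‖M‖ ≤ 2 ((‖G‖ + 1) ‖S‖ + ‖H'‖ + 1)`.
(4) Let `F c₀ = c₀`, `c₁ = G c₀`; `(1 - F) c₁ = G' (1 - F) c₀ = 0` and `G c₁ = c₁` by id2
(`G - G² = H' (1 - F)`). `c₁ i₀ ≠ 0` by hypothesis. Put `e = (1 - F₁) c₁ = (F - F₁) c₁` (small),
`c = G₁ c₁ - M e`. Then `(1 - F₁) G₁ c₁ = G₁' (1 - F₁) c₁ = G₁' e = (1 - F₁) M e`, so `F₁ c = c`.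
`‖c - c₁‖ ≤ ‖(G₁ - G) c₁‖ + ‖M e‖` is small, so `G₁ c` is near `G c₁ = c₁`,
`|(G₁ c) i₀| ≥ |c₁ i₀| / 2`. Divide `c` by `‖c₁‖ + 1 ≥ ‖c‖`: `η = |c₁ i₀| / (2 (‖c₁‖ + 1))`. -/
def S_ALG : Prop :=
  ∀ F G G' H' : ℕ → ℕ → ℂ, Sys0 F G G' H' →
    (∀ d, Sq d → (∀ i, d i = act (fun i j => conj (F j i)) d i) →
      ∀ i, act (fun i j => conj (G' j i)) d i = 0) →
    ∀ (c₀ : ℕ → ℂ) (i₀ : ℕ), Sq c₀ → (∀ i, c₀ i = act F c₀ i) → act G c₀ i₀ ≠ 0 →
    ∃ κ η : ℝ, 0 < κ ∧ 0 < η ∧ ∀ F₁ G₁ G₁' H₁' : ℕ → ℕ → ℂ, Sys0 F₁ G₁ G₁' H₁' →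
      hs (df F₁ F) ≤ κ → hs (df G₁ G) ≤ κ → hs (df G₁' G') ≤ κ → hs (df H₁' H') ≤ κ →
      ∃ c, Sq c ∧ n2 c ≤ 1 ∧ (∀ i, c i = act F₁ c i) ∧ η ≤ ‖act G₁ c i₀‖

/-! ### Cauchy transforms -/

/-- SYS0 (module SYS0): the relations hold almost everywhere.

Proof. Copy of the first part of `Pool.Agent.Q130.TR.SYS2.sys` (file `Q130/TR/Sys2.lean`), without
the two conditions on kernels; inputs `Pool.Agent.Q86.TR.star : S_STAR`,
`Pool.Agent.Q130.TR.rHSB : S_HSB` (see `Q130/TR/Main.lean`). Also (2): the statement for the adjoint: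
`CokP` and `KerP` are exchanged (adapt `cok_iff` of `Q76/TR/Pos.lean`: there for self-adjoint `P`;
`Pool.Agent.Y77.NK.ct_conj`). -/
def S_SYS0 : Prop :=
  (∀ (S : Type) [MeasurableSpace S] (μ : Measure S) [SigmaFinite μ] (φ : S → ℂ)
    (N K : Lp ℂ 2 μ →L[ℂ] Lp ℂ 2 μ), IsMul φ N → ∀ (u v : ℕ → Lp ℂ 2 μ), Repr K u v →
    ∀ P : Lp ℂ 2 μ →L[ℂ] Lp ℂ 2 μ, P * P = P → P * (N + K) = (N + K) * P →
    ∀ᵐ z, Sys0 (Fm φ u v z) (Fm φ u (pv P v) z) (Fm φ (pu P u) v z)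
      (Fm φ (pu P u) (pv P v) z)) ∧
  ∀ (S : Type) [MeasurableSpace S] (μ : Measure S) [SigmaFinite μ] (φ : S → ℂ)
    (u v : ℕ → Lp ℂ 2 μ) (P : Lp ℂ 2 μ →L[ℂ] Lp ℂ 2 μ) (z : ℂ),
    (CokP φ u v P z ↔ KerP (fun s => conj (φ s)) v u (adjoint P) (conj z)) ∧
    (KerP φ u v P z ↔ CokP (fun s => conj (φ s)) v u (adjoint P) (conj z))

/-- EVL (module EVL): the generalised eigenvectors.

Proof. For almost all `z`, all `j`, by Cauchy-Schwarz all the integrals below converge absolutely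
(`∫ (|x|² + ∑ |u j|² + ∑ |v i|² + |K† x|²) / |z - φ| dμ < ∞` for almost all `z`, Tonelli).
`ct φ (N† x) (u j) z = ∫ φ conj x u j (z - φ)⁻¹ = z ct φ x (u j) z - ⟪x, u j⟫` (`N† x = conj φ x`,
`Pool.Agent.Y77.NK.isMul_adj`). `K† x = ∑ i, ⟪u i, x⟫ v i` (`Repr K† v u`), so
`ct φ (K† x) (u j) z = ∑ i, ⟪x, u i⟫ F i j`. For `c` with `F c = c`:
`∑ j, ct φ (K† x) (u j) z c j = ∑ i, ⟪x, u i⟫ (F c) i = ∑ i, ⟪x, u i⟫ c i` (exchange of sums:
`exch` in `Q16/TR/L2B.lean` as used in `Q130/TR/Sys2.lean`). Sum: `z ∑ j, ct φ x (u j) z c j`. -/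
def S_EVL : Prop :=
  ∀ (S : Type) [MeasurableSpace S] (μ : Measure S) [SigmaFinite μ] (φ : S → ℂ)
    (N K : Lp ℂ 2 μ →L[ℂ] Lp ℂ 2 μ), IsMul φ N → ∀ (u v : ℕ → Lp ℂ 2 μ), Repr K u v →
    ∀ x : Lp ℂ 2 μ, ∀ᵐ z : ℂ, ∀ c : ℕ → ℂ, Sq c → (∀ i, c i = act (Fm φ u v z) c i) →
      ∑' j, ct φ (adjoint (N + K) x) (u j) z * c j = z * ∑' j, ct φ x (u j) z * c j

/-- WGT (module WGT, uses `S_EVL`, `S_HSB`): the weight.

Proof. Let `y k = (T†)^k x`. Index set: the countable type `I = Σ n, (Fin n → ℕ)`, `d = denseSeq ℂ`,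
`q i = ∑ k, C (d (i.2 k)) * X^k`, `w i = ∑ k, conj (d (i.2 k)) • y k`, `U i z = n2 (fun j =>
ct φ (w i) (u j) z)` (measurable, by `S_HSB`, second part). Put
`W z = min 1 (⨅ i, if (q i).eval z = 0 then 1 else U i z / ‖(q i).eval z‖)`. Measurable, between 0
and 1, `‖(q i).eval z‖ * W z ≤ U i z` for all `i`, `z`.
Upper property for all `p`: let `z` be such that `Sq (fun j => ct φ (y k) (u j) z)` for all `k` and
`ct φ` is additive for the vectors concerned (almost every `z`). Choose `i` with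
`|d (i.2 k) - p.coeff k| < ε`; then `U i z ≤ n2 (ct φ (yv T x p) (u j) z) + ε ∑ k ≤ deg p, n2 (ct φ
(y k) (u j) z)` and `|(q i).eval z| ≥ |p.eval z| - ε ∑ |z|^k`; let `ε → 0`.
Lower property: by `S_EVL` (for all `y k`, by induction) for almost every `z`: for all `c` in the
kernel `∑ j, ct φ (w i) (u j) z c j = (q i).eval z * ∑ j, ct φ x (u j) z c j`, hence, with
`n2 c ≤ 1`, `U i z ≥ ‖(q i).eval z‖ ‖∑ j, ct φ x (u j) z c j‖`. -/
def S_WGT : Prop :=
  ∀ (S : Type) [MeasurableSpace S] (μ : Measure S) [SigmaFinite μ] (φ : S → ℂ)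
    (N K : Lp ℂ 2 μ →L[ℂ] Lp ℂ 2 μ), IsMul φ N → ∀ (u v : ℕ → Lp ℂ 2 μ), Repr K u v →
    ∀ x : Lp ℂ 2 μ, ∃ W : ℂ → ℝ, Measurable W ∧ (∀ z, 0 ≤ W z ∧ W z ≤ 1) ∧
      (∀ p : Polynomial ℂ, ∀ᵐ z : ℂ,
        ‖p.eval z‖ * W z ≤ n2 fun j => ct φ (yv (N + K) x p) (u j) z) ∧
      ∀ᵐ z : ℂ, ∀ c : ℕ → ℂ, Sq c → n2 c ≤ 1 → (∀ i, c i = act (Fm φ u v z) c i) →
        min 1 ‖∑' j, ct φ x (u j) z * c j‖ ≤ W z

/-- HVY (module HVY, uses `S_HSB`): heavy barriers give bounded point evaluations.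

Proof. (a) `∫_{ball a r} n2 (fun j => ct φ x (u j) z) ≤ C ‖x‖` with `C` independent of `x`:
`n2(..)² ≤ I_x(z) I_u(z)`, `I_x(z) = ∫ |x|² / |z - φ| dμ`, `I_u(z) = ∑ j, ∫ |u j|² / |z - φ| dμ`
(Cauchy-Schwarz), and `∫_{ball a r} dA(z) / |z - w| ≤ 4 π r` (bounded by a constant for all `w`; in
the library, e.g. `S_CAU` second part, `S_HT`), Cauchy-Schwarz in `z`, Tonelli. Alternatively use
`S_CAU` (second part, `Pool.Agent.Q216.TC.cau_main`) with `k = |x| (∑ |u j|²)^(1/2)` and Minkowski.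
(b) Let `Θ n`, `g n`, `C₁` be as in `Cut2`. For a polynomial `p` the function `Θ n * p.eval` is smooth
with compact support and `∂̄ (Θ n p) = p ∂̄ Θ n`, so
`p.eval a = - (1 / π) ∫ db (Θ n) z * p.eval z * (z - a)⁻¹` up to the sign and constant (Cauchy-Pompeiu;
in the library: search `ht (db` in `R_seed8/Y271/RO`, `R_seed8/Y812`, `Q169/TC`: it is used in the
proofs of `S_CSB` / `S_CUTV`). `db (Θ n)` vanishes on `ball a τ` and for `‖z - a‖ ≥ r`. Hence
`‖p.eval a‖ ≤ (1 / (π τ)) ∫_{ball a r} ‖db (Θ n) z‖ ‖p.eval z‖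
≤ (1 / (π τ)) (C₁ ∫_{ball a r} W z ‖p.eval z‖ + sup_{ball a r} ‖p.eval‖ ∫ ‖W g n - db (Θ n)‖)`; let
`n → ∞` and use the upper property of `W` and (a). -/
def S_HVY : Prop :=
  ∀ (S : Type) [MeasurableSpace S] (μ : Measure S) [SigmaFinite μ] (φ : S → ℂ)
    (N K : Lp ℂ 2 μ →L[ℂ] Lp ℂ 2 μ), IsMul φ N → ∀ (u v : ℕ → Lp ℂ 2 μ), Repr K u v →
    ∀ (x : Lp ℂ 2 μ) (W : ℂ → ℝ), Measurable W → (∀ z, 0 ≤ W z ∧ W z ≤ 1) →
      (∀ p : Polynomial ℂ, ∀ᵐ z : ℂ,
        ‖p.eval z‖ * W z ≤ n2 fun j => ct φ (yv (N + K) x p) (u j) z) →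
      ∀ (a : ℂ) (τ r : ℝ), 0 < τ → τ < r → Cut2 (fun z => (W z : ℂ)) a τ r →
      ∃ C : ℝ, ∀ p : Polynomial ℂ, ‖p.eval a‖ ≤ C * ‖yv (N + K) x p‖

/-- APX (module APX): approximate continuity of the matrix of Cauchy transforms with respect to
densities of weak type.

Proof. `C₀` is the constant of `S_HSB`, third part. Let `a` be such that
`J = ∫ (∑ |u j|² + ∑ |v j|²) / |φ - a| dμ < ∞` (almost every `a`, Tonelli; in particular `φ ≠ a`
where this weight does not vanish) and `HS (Fm φ u v a)`. Given `κ, ε, C`. Let `R ≥ 2` with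
`J / (R - 1) ≤ κ / 4`, `D = {s | ‖φ s - a‖ < R r}`, `uₙ j = 1_D u j`, `vₙ j = 1_D v j` (near parts; as
elements of `Lp`, e.g. `mv φ (u j) (indicator (ball a (R r)) 1)`), `u_f`, `v_f` the far parts.
`F(z) = Fⁿ(z) + Fᶠ(z)` where `Fⁿ i j = ct φ (vₙ i) (uₙ j)`, `Fᶠ i j = ct φ (v_f i) (u_f j)` (the
mixed terms vanish). For `‖z - a‖ < r`: `|Fᶠ(z) i j - Fᶠ(a) i j| ≤ ∫_{Dᶜ} |v i| |u j| ‖z - a‖ /
(|φ - z| |φ - a|) ≤ (1 / (R - 1)) ∫ |v i| |u j| / |φ - a|`, so by Cauchy-Schwarz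
`hs (Fᶠ(z) - Fᶠ(a)) ≤ J / (R - 1) ≤ κ / 4`. `hs (Fⁿ(a)) ≤ ∫_D (∑ |u j|² + ∑ |v j|²) / |φ - a| → 0`
as `r → 0` (dominated convergence): `≤ κ / 4` for `r ≤ ρ₀`. So `κ ≤ hs (F(z) - F(a))` implies
`κ / 2 ≤ hs (Fⁿ(z))` (for almost all `z` everything is `HS`; note that `h dA` does not see null sets),
and by `S_HSB` the integral of `h` over this set is at most
`C₀ (C U₀ V₀ / (κ / 2) + δ)`, `U₀² = ∑ ‖uₙ j‖²`, `V₀² = ∑ ‖vₙ j‖²`, and
`U₀ V₀ ≤ U₀² + V₀² ≤ R r ∫_D (∑ |u j|² + ∑ |v j|²) / |φ - a| dμ = r o(1)`: at most `ε r + C₀ δ` for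
`r ≤ ρ₀`. -/
def S_APX : Prop :=
  ∃ C₀ : ℝ, 0 < C₀ ∧ ∀ (S : Type) [MeasurableSpace S] (μ : Measure S) [SigmaFinite μ] (φ : S → ℂ),
    Measurable φ → ∀ (u v : ℕ → Lp ℂ 2 μ), Summable (fun j => ‖u j‖ ^ 2) →
    Summable (fun j => ‖v j‖ ^ 2) → ∀ᵐ a : ℂ, ∀ κ ε C : ℝ, 0 < κ → 0 < ε → 0 ≤ C →
      ∃ ρ₀ : ℝ, 0 < ρ₀ ∧ ∀ (r δ : ℝ) (h : ℂ → ℝ), 0 < r → r ≤ ρ₀ → 0 ≤ δ → Integrable h →
        (∀ z, 0 ≤ h z) → (∀ z, z ∉ ball a r → h z = 0) → WT h C δ →
        ∫ z in {z | κ ≤ hs (df (Fm φ u v z) (Fm φ u v a))}, h z ≤ ε * r + C₀ * δ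

/-- LNK2 (module LNK2): `S_LNK` with absolute constants.

Proof. Copy of `Pool.Agent.Q88.TC.lnk` (file `Q88/TC/LNK.lean`): there `C` is the constant of `S_ML2`
and `c₀ = c * r / 8`; take `c / 8`. Inputs `Pool.Agent.Q130.TC.wML2`, `Pool.Agent.Q88.TC.ply`. -/
def S_LNK2 : Prop :=
  ∃ C c : ℝ, 0 < C ∧ 0 < c ∧ ∀ (f : ℂ → ℂ) (a : ℂ) (r : ℝ), 0 < r → Measurable f →
    IntegrableOn f (ball a r) →
    (∀ k : ℕ, ∃ n : ℕ, k ≤ n ∧
      Cheap (pw (fd f a r) (1 / (n + 1))) a (1 / (k + 1)) r (1 / (k + 1))) →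
    ∃ (l : ℕ → ℂ → ℝ) (δ : ℕ → ℝ), (∀ n, Den (l n)) ∧
      (∀ n z, z ∉ ball a r → l n z = 0) ∧ (∀ n, ∫ z, l n z = c * r) ∧ (∀ n, 0 ≤ δ n) ∧
      Tendsto δ atTop (𝓝 0) ∧ (∀ n, WT (l n) C (δ n)) ∧
      Tendsto (fun n => ∫ z, ‖f z‖ * l n z) atTop (𝓝 0)

/-- THM (module THM, uses `S_SYS0`, `S_ALG`, `S_APX`, `S_LNK2`, `S_WGT`, `S_HVY`, `S_EVI` and
`Pool.Agent.Q130.TR.dich3` of `Q130/TR/Alt.lean`): Thomson's scheme.

Proof. Suppose that the set of the `z` with `CokP` and not `KerP` is not a null set. Choose `a` in it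
with `Sys0` at `a` and the property of `S_APX` for the four pairs `(u, v)`, `(u, pv P v)`,
`(pu P u, v)`, `(pu P u, pv P v)`. Not `KerP`: there are `c₀`, `i₀` with `F c₀ = c₀`,
`(G c₀) i₀ ≠ 0`. Let `κ, η` be as in `S_ALG` and `x = pv P v i₀` (so `P† x = x`), `W` the weight of
`S_WGT` for `x`. For almost every `z`: if the four differences at `z` are at most `κ` then there is
`c` with `F(z) c = c`, `n2 c ≤ 1`, `η ≤ ‖act (G z) c i₀‖ = ‖∑' j, ct φ x (u j) z * c j‖`, so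
`min 1 η ≤ W z`. Let `C, c` be the constants of `S_LNK2`, `ε = c / 16`, `r ≤ ρ₀` for the four pairs
(with the constant `C`, and `κ`). Apply `dich3` to `W` at `(a, r)`. Cheap case: `l n`, `δ n` of
`S_LNK2` with `f = W`: `c r = ∫ l n ≤ (min 1 η)⁻¹ ∫ W l n + 4 (ε r + C₀ δ n)`, and the limit gives
`c r ≤ c r / 4`, a contradiction. Other case: `Cut2` with some `τ` and `2 r`; `S_HVY` and `S_EVI`. -/
def S_THM : Prop :=
  ∀ (S : Type) [MeasurableSpace S] (μ : Measure S) [SigmaFinite μ] (φ : S → ℂ)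
    (N K : Lp ℂ 2 μ →L[ℂ] Lp ℂ 2 μ), IsMul φ N → ∀ (u v : ℕ → Lp ℂ 2 μ), Repr K u v →
    ∀ P : Lp ℂ 2 μ →L[ℂ] Lp ℂ 2 μ, P * P = P → P * (N + K) = (N + K) * P → Dim2 P →
    NI (N + K) P ∨ ∀ᵐ z, CokP φ u v P z → KerP φ u v P z

/-- ALT (module ALT): the alternative at a point.

Proof. If `∀ᵐ z, z ∈ ball a r → KerP` fails: first case, by `Pool.Agent.Q76.TR.chainA` (file
`Q76/TR/Pos.lean`). Otherwise `KerP`, hence `CokP`, hence `SysP` (`rSYS.1`) almost everywhere in the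
disc. If there is no `HasChP` and no eigenvector of the adjoint, then `Pool.Agent.Q130.TR.chp` (file
`Q130/TR/Asm.lean`, the arguments as in `chC_model` and `fin`, all of them proved in
`Q130/TR/Main.lean`: `rCSP`, `rCSQ`, `Pool.Agent.Q135.TR.lin rL2B`, `rHSB`, `Pool.Agent.Q87.TR.SRP.srp`,
`Pool.Agent.Q130.TC.wLNK`) gives surjectivity. Injectivity: an eigenvector `y` is a chain:
`X 0 = y`, `X k = 0` for `k ≥ 1`, `P (X 0) = y ≠ 0`. -/
def S_ALT : Prop :=
  ∀ (S : Type) [MeasurableSpace S] (μ : Measure S) [SigmaFinite μ] (φ : S → ℂ)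
    (N K : Lp ℂ 2 μ →L[ℂ] Lp ℂ 2 μ), IsMul φ N → ∀ (u v : ℕ → Lp ℂ 2 μ), Repr K u v → Inj u v →
    ∀ P : Lp ℂ 2 μ →L[ℂ] Lp ℂ 2 μ, P * P = P → P * (N + K) = (N + K) * P →
    (∀ᵐ z, KerP φ u v P z → CokP φ u v P z) → ∀ (a : ℂ) (r : ℝ), 0 < r →
      HasChP (N + K) P a r ∨ (∃ y, y ≠ 0 ∧ adjoint P y = y ∧ adjoint (N + K) y = conj a • y) ∨
        BijP (N + K) P a

/-- MOD (module MOD, uses everything): the theorem for multiplication operators.

Proof. `T = N + K`. Suppose not `NI T P`. By `S_RED` there is a representation `(u, v)` of `K` with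
`Inj u v` and a representation `(p, q)` of `K†` with `Inj p q`. `S_THM` for `(T, P)` and `(u, v)`:
`CokP → KerP` almost everywhere; `S_THM` for `(T†, P†)` and `(v, u)` (a representation of `K†`) and
`S_ADJ` (1): `CokP → KerP` almost everywhere for the adjoint data, that is (by `S_SYS0` (2) and the
measure preserving map `z ↦ conj z`) `KerP φ u v P z → CokP φ u v P z` almost everywhere. In the same
way for `(T†, P†)` and `(p, q)`. So `S_ALT` applies to `(T, P, u, v)` and to `(T†, P†, p, q)`; the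
eigenvectors are excluded by `S_ADJ`. `S_SPC`: if there are two points `a ≠ b` where `BijP T P` fails
then `HasChP T P a r` for `r = ‖a - b‖ / 3`; `BijP T† P† (conj b)` fails too (if
`T† - conj b` is bijective on the range of `P†` then `T - b` is bijective on the range of `P`:
this is the module DUB, statement `S_DUB`), hence `HasChP T† P† (conj b) r`; `S_ORT`. If the
restriction is quasinilpotent up to `a`: `S_QNC` and `S_LOM`. -/
def S_MOD : Prop :=
  ∀ (S : Type) [MeasurableSpace S] (μ : Measure S) [SigmaFinite μ] (φ : S → ℂ)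
    (N K : Lp ℂ 2 μ →L[ℂ] Lp ℂ 2 μ), IsMul φ N → ∀ (u v : ℕ → Lp ℂ 2 μ), Repr K u v →
    ∀ P : Lp ℂ 2 μ →L[ℂ] Lp ℂ 2 μ, P * P = P → P * (N + K) = (N + K) * P → Dim2 P → NI (N + K) P

/-- DUB (module DUB): bijectivity and the adjoint.

Proof. `A = T† - conj b`, bijective on the range `M'` of `P†` (closed). By the open mapping theorem
there is `C` with `‖y‖ ≤ C ‖A y‖` for `y ∈ M'`, and for `g ∈ M'` there is exactly one `y ∈ M'` with
`A y = g`; let `B g` be this `y` for `g = P† x`: `B : H →L H`, `B = P† B P†`, `A B = P† = B A P†`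
(for instance `B` is the composition of `P†`, the inverse of the restriction of `A` to `M'`, and the
inclusion). Adjoint: `B† = P B† P`, `B† (T - b) P = P`, `(T - b) B† = P`. So `T - b` is bijective on
the range of `P`. -/
def S_DUB : Prop :=
  ∀ (H : Type) [NormedAddCommGroup H] [InnerProductSpace ℂ H] [CompleteSpace H]
    (T P : H →L[ℂ] H), P * P = P → P * T = T * P → ∀ b : ℂ,
    BijP (adjoint T) (adjoint P) (conj b) → BijP T P b

/-- FIN (module FIN): the theorem on a separable Hilbert space, from `S_MOD` and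
`Pool.Agent.Y271.RO.exists_model` (see `Q130/TR/Fin.lean` for the transport of `Repr`; `NI` and
`Dim2` are unitarily invariant). -/
def S_FIN : Prop :=
  ∀ (H : Type) [NormedAddCommGroup H] [InnerProductSpace ℂ H] [CompleteSpace H]
    [TopologicalSpace.SeparableSpace H] (N K P : H →L[ℂ] H), IsStarNormal N →
    ∀ (u v : ℕ → H), Repr K u v → P * P = P → P * (N + K) = (N + K) * P → Dim2 P → NI (N + K) P

end Pool.Agent.H50.SM
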