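import Pool.Graph.R_pool_sql_team_seeded_3997aac3.Q88.TC.LNK
import Pool.Agent.H50.SM.Stm

/-!
# Project SM, module LNK2: cheap polygons give densities, with absolute constants

Adapted from the library module `Q88/TC/LNK.lean` (helper88).
-/

set_option autoImplicit false

namespace Pool.Agent.H50.SM.LNK2

open MeasureTheory Set Metric Filter Topology
open Pool.Agent.Q130.TC
open Pool.Agent.H352R3.SA (Den)
open Pool.Agent.Y271.RO (pk cost pw fd Cheap)
open Pool.Agent.Q88.TC (den_smul wt_smul den_int)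

theorem lnk2 (h1 : S_ML2) (h2 : S_PLY) : S_LNK2 := by
  classical
  obtain ⟨C, c, hC, hc, hML⟩ := h1
  obtain ⟨C', hC', hPL⟩ := h2
  refine ⟨C, c / 8, hC, by positivity, ?_⟩
  intro f a r hr hf hfi hch
  set c₀ : ℝ := c * r / 8 with hc₀
  have hc₀' : 0 < c₀ := by positivity
  -- one step
  have step : ∀ k : ℕ, ∃ l : ℂ → ℝ, Den l ∧ (∀ z, z ∉ ball a r → l z = 0) ∧ ∫ z, l z = c₀ ∧
      WT l C (1 / (k + 1)) ∧ ∫ z, ‖f z‖ * l z ≤ C' * (1 / (k + 1)) := by
    intro k
    obtain ⟨K, hK⟩ := exists_nat_gt (100 / r)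
    obtain ⟨n, hn, z, m, hz0, hzm, _, hcost⟩ := hch (max k K)
    have hkn : (k : ℝ) ≤ n := by exact_mod_cast (le_max_left k K).trans hn
    have hKn : (K : ℝ) ≤ n := by exact_mod_cast (le_max_right k K).trans hn
    have hkm : (k : ℝ) ≤ ((max k K : ℕ) : ℝ) := by exact_mod_cast le_max_left k K
    have hKm : (K : ℝ) ≤ ((max k K : ℕ) : ℝ) := by exact_mod_cast le_max_right k K
    have hsm : ∀ x : ℝ, (K : ℝ) ≤ x → 1 / (x + 1) ≤ r / 100 := by
      intro x hx
      have h3 : 100 / r < x + 1 := by linarith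
      rw [div_lt_iff₀ hr] at h3
      have h4 : 0 < x + 1 := by
        have : (0:ℝ) ≤ K := Nat.cast_nonneg K
        linarith
      rw [div_le_div_iff₀ h4 (by norm_num)]
      linarith
    set ε : ℝ := 1 / (n + 1) with hε
    have hε0 : 0 < ε := by positivity
    obtain ⟨Y, hY1, hY2, ⟨p, hp, q, hq, hpq⟩, hY3⟩ := hPL z m a r ε hr hε0 (hsm _ hKn) (by
      rw [mem_ball, dist_eq_norm] at hz0
      exact hz0.le.trans (hsm _ hKm)) hzm
    set δ : ℝ := min (1 / (k + 1)) c₀ with hδ
    have hδ0 : 0 < δ := lt_min (by positivity) hc₀'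
    obtain ⟨η, hη, hηom, hηm, hηw⟩ := hML ε Y hε0 hY1 p hp q hq δ hδ0
    have hmass : c₀ ≤ ∫ z, η z := by
      have h3 : c * (r / 4) ≤ c * ‖p - q‖ := mul_le_mul_of_nonneg_left hpq hc.le
      have h4 : δ ≤ c₀ := min_le_right _ _
      have h5 : c * (r / 4) = 2 * c₀ := by rw [hc₀]; ring
      linarith
    have hmpos : 0 < ∫ z, η z := lt_of_lt_of_le hc₀' hmass
    set t : ℝ := c₀ / ∫ z, η z with ht
    have ht0 : 0 ≤ t := by positivity
    have ht1 : t ≤ 1 := (div_le_one hmpos).2 hmass
    -- the support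
    have hsupp : ∀ w, w ∉ ball a r → om Y ε w = 0 := by
      intro w hw
      rw [mem_ball, dist_eq_norm, not_lt] at hw
      have hne : (Y : Set ℂ).Nonempty := ⟨p, Finset.mem_coe.2 hp⟩
      have h3 : 2 * ε ≤ infDist w (Y : Set ℂ) := by
        refine le_infDist hne |>.2 fun b hb => ?_
        have h4 := hY2 b (Finset.mem_coe.1 hb)
        have h5 : ‖w - a‖ ≤ ‖w - b‖ + ‖b - a‖ := by
          have e : w - a = (w - b) + (b - a) := by ring
          rw [e]
          exact norm_add_le _ _
        rw [dist_eq_norm]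
        have h6 := hsm _ hKn
        linarith
      unfold om
      have h4 : 2 - infDist w (Y : Set ℂ) / ε ≤ 0 := by
        rw [sub_nonpos, le_div_iff₀ hε0]
        exact h3
      rw [max_eq_left ((min_le_right _ _).trans h4), mul_zero]
    have hη0 : ∀ w, w ∉ ball a r → η w = 0 := fun w hw =>
      le_antisymm ((hηom w).trans (hsupp w hw).le) (hη.nonneg w)
    have hfdi : Integrable (fd f a r) := by
      unfold fd
      exact (integrable_indicator_iff measurableSet_ball).2 hfi.norm
    have hfd0 : ∀ w, 0 ≤ fd f a r w := fun w => by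
      unfold fd
      exact indicator_nonneg (fun _ _ => norm_nonneg _) w
    obtain ⟨hco0, hcoi, hcoe⟩ := Pool.Agent.Y433.RO.main (fd f a r) hfdi hfd0 ε hε0 z m
    refine ⟨fun w => t * η w, den_smul hη ht0, fun w hw => by
      show t * η w = 0
      rw [hη0 w hw, mul_zero], ?_, ?_, ?_⟩
    · rw [integral_const_mul, ht, div_mul_cancel₀ _ hmpos.ne']
    · have h3 := wt_smul hη hηw ht0 ht1
      intro S _ μ _ φ kk hφ hkk s hs
      have h4 := h3 S μ φ kk hφ hkk s hs
      have h5 : δ ≤ 1 / (k + 1) := min_le_left _ _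
      linarith
    · have h3 : ∀ w, ‖f w‖ * (t * η w) ≤
          C' * (fd f a r w * cost (fun y => pk ε (y - w)) z m) := by
        intro w
        by_cases hw : w ∈ ball a r
        · have e : fd f a r w = ‖f w‖ := by
            unfold fd
            rw [indicator_of_mem hw]
          rw [e]
          have h4 : t * η w ≤ C' * cost (fun y => pk ε (y - w)) z m := by
            calc t * η w ≤ 1 * η w := mul_le_mul_of_nonneg_right ht1 (hη.nonneg w)
              _ = η w := one_mul _
              _ ≤ om Y ε w := hηom w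
              _ ≤ _ := hY3 w
          calc ‖f w‖ * (t * η w) ≤ ‖f w‖ * (C' * cost (fun y => pk ε (y - w)) z m) :=
                mul_le_mul_of_nonneg_left h4 (norm_nonneg _)
            _ = _ := by ring
        · rw [hη0 w hw, mul_zero, mul_zero]
          exact mul_nonneg hC'.le (mul_nonneg (hfd0 w) (hco0 w))
      have h4 : ∫ w, ‖f w‖ * (t * η w) ≤
          ∫ w, C' * (fd f a r w * cost (fun y => pk ε (y - w)) z m) :=
        integral_mono_of_nonneg (Eventually.of_forall fun w =>
          mul_nonneg (norm_nonneg _) (mul_nonneg ht0 (hη.nonneg w))) (hcoi.const_mul C')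
          (Eventually.of_forall h3)
      refine h4.trans ?_
      rw [integral_const_mul, hcoe]
      refine mul_le_mul_of_nonneg_left (hcost.le.trans ?_) hC'.le
      exact one_div_le_one_div_of_le (by positivity) (by linarith)
  choose l hl1 hl2 hl3 hl4 hl5 using step
  refine ⟨l, fun k => 1 / (k + 1), hl1, hl2, fun n => (hl3 n).trans (by rw [hc₀]; ring), fun k => by positivity,
    tendsto_one_div_add_atTop_nhds_zero_nat, hl4, ?_⟩
  have h3 : Tendsto (fun k : ℕ => C' * (1 / ((k : ℝ) + 1))) atTop (𝓝 0) := by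
    simpa using tendsto_one_div_add_atTop_nhds_zero_nat.const_mul C'
  exact squeeze_zero (fun k => integral_nonneg fun w =>
    mul_nonneg (norm_nonneg _) ((hl1 k).nonneg w)) hl5 h3


end Pool.Agent.H50.SM.LNK2
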