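import Pool.Agent.H50.SM.Stm
import Pool.Graph.R_pool_sql_team_seeded_3997aac3.Q76.TR.Ker

/-!
# Project SM (helper50), module ALG (helper57): the kernel of `1 - F` in the range of `G` persists
-/

set_option autoImplicit false

namespace Pool.Agent.H50.SM.ALG

open Filter Topology
open scoped InnerProductSpace ComplexConjugate
open Pool.Agent.Q130.TR Pool.Agent.Q135.TR
open Pool.Agent.Q76.TR (HS_adj)
open ContinuousLinearMap (adjoint)

section

variable {E : Type*} [NormedAddCommGroup E] [NormedSpace ℂ E] [CompleteSpace E]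

/-- a small perturbation of the identity is surjective, with a bound -/
lemma solve (R : E →L[ℂ] E) (hR : ‖R‖ ≤ 1 / 2) (e : E) : ∃ y, y + R y = e ∧ ‖y‖ ≤ 2 * ‖e‖ := by
  have hu : IsUnit (1 - (-R)) := isUnit_one_sub_of_norm_lt_one (by rw [norm_neg]; linarith)
  obtain ⟨u, hu⟩ := hu
  refine ⟨(↑u⁻¹ : E →L[ℂ] E) e, ?_, ?_⟩
  · have h1 : (u : E →L[ℂ] E) * (↑u⁻¹ : E →L[ℂ] E) = 1 := Units.mul_inv u
    have h2 := congrArg (fun T : E →L[ℂ] E => T e) h1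
    rw [hu] at h2
    simpa using h2
  · have h1 : (u : E →L[ℂ] E) * (↑u⁻¹ : E →L[ℂ] E) = 1 := Units.mul_inv u
    have h2 := congrArg (fun T : E →L[ℂ] E => T e) h1
    rw [hu] at h2
    have h3 : (↑u⁻¹ : E →L[ℂ] E) e + R ((↑u⁻¹ : E →L[ℂ] E) e) = e := by simpa using h2
    obtain ⟨y, hy⟩ : ∃ y, y = (↑u⁻¹ : E →L[ℂ] E) e := ⟨_, rfl⟩
    rw [← hy] at h3 ⊢
    have h4 : y = e - R y := by rw [← h3]; abel
    have h5 : ‖y‖ ≤ ‖e‖ + ‖R y‖ := by
      nth_rewrite 1 [h4]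
      exact norm_sub_le _ _
    have h6 : ‖R y‖ ≤ 1 / 2 * ‖y‖ :=
      (R.le_opNorm y).trans (mul_le_mul_of_nonneg_right hR (norm_nonneg _))
    linarith

/-- persistence, abstract form -/
theorem pert (F G G' H' S : E →L[ℂ] E) (h1 : G - F * G = G' - G' * F)
    (h2 : G - G * G = H' - H' * F) (hS : (1 - F) * S = G') (c₀ : E) (hc₀ : F c₀ = c₀) (ε : ℝ)
    (hε : 0 < ε) :
    ∃ κ : ℝ, 0 < κ ∧ ∀ F₁ G₁ G₁' H₁' : E →L[ℂ] E, G₁ - F₁ * G₁ = G₁' - G₁' * F₁ →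
      G₁' - G₁' * G₁' = H₁' - F₁ * H₁' → ‖F₁ - F‖ ≤ κ → ‖G₁ - G‖ ≤ κ → ‖G₁' - G'‖ ≤ κ →
      ‖H₁' - H'‖ ≤ κ →
      ∃ c, F₁ c = c ∧ ‖c‖ ≤ ‖G c₀‖ + 1 ∧ ‖G₁ c - G c₀‖ ≤ ε := by
  obtain ⟨c₁, hc₁⟩ : ∃ c₁, c₁ = G c₀ := ⟨_, rfl⟩
  have hF1 : F c₁ = c₁ := by
    have h3 := congrArg (fun T : E →L[ℂ] E => T c₀) h1
    simp only [sub_apply, mul_apply_eq_comp, hc₀, sub_self] at h3
    rw [← hc₁] at h3
    exact (sub_eq_zero.1 h3).symm
  have hG1 : G c₁ = c₁ := by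
    have h3 := congrArg (fun T : E →L[ℂ] E => T c₀) h2
    simp only [sub_apply, mul_apply_eq_comp, hc₀, sub_self] at h3
    rw [← hc₁] at h3
    exact (sub_eq_zero.1 h3).symm
  obtain ⟨M, hM⟩ : ∃ M : ℝ, M = 2 * ((‖G‖ + 1) * ‖S‖ + ‖H'‖ + 1) := ⟨_, rfl⟩
  have hM0 : 0 ≤ M := by rw [hM]; positivity
  obtain ⟨κ, hκ⟩ : ∃ κ : ℝ, κ = min 1 (min (1 / (2 * (‖S‖ + 1)))
    (min (1 / ((1 + M) * (‖c₁‖ + 1))) (ε / (((‖G‖ + 1) * (1 + M) + 1) * (‖c₁‖ + 1))))) := ⟨_, rfl⟩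
  have hκ0 : 0 < κ := by
    rw [hκ]
    exact lt_min one_pos (lt_min (by positivity) (lt_min (by positivity) (by positivity)))
  have hκ1 : κ ≤ 1 := by rw [hκ]; exact min_le_left _ _
  have hκ2 : κ * (2 * (‖S‖ + 1)) ≤ 1 := by
    have : κ ≤ 1 / (2 * (‖S‖ + 1)) := by
      rw [hκ]; exact (min_le_right _ _).trans (min_le_left _ _)
    rwa [le_div_iff₀ (by positivity)] at this
  have hκ3 : κ * ((1 + M) * (‖c₁‖ + 1)) ≤ 1 := by
    have : κ ≤ 1 / ((1 + M) * (‖c₁‖ + 1)) := by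
      rw [hκ]; exact (min_le_right _ _).trans ((min_le_right _ _).trans (min_le_left _ _))
    rwa [le_div_iff₀ (by positivity)] at this
  have hκ4 : κ * (((‖G‖ + 1) * (1 + M) + 1) * (‖c₁‖ + 1)) ≤ ε := by
    have : κ ≤ ε / (((‖G‖ + 1) * (1 + M) + 1) * (‖c₁‖ + 1)) := by
      rw [hκ]; exact (min_le_right _ _).trans ((min_le_right _ _).trans (min_le_right _ _))
    rwa [le_div_iff₀ (by positivity)] at this
  refine ⟨κ, hκ0, ?_⟩
  intro F₁ G₁ G₁' H₁' e1 e3 n1 n2 n3 n4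
  rw [← hc₁]
  -- the perturbation
  obtain ⟨R, hR⟩ : ∃ R : E →L[ℂ] E, R = (F - F₁) * S + (G' - G₁') := ⟨_, rfl⟩
  have hRn : ‖R‖ ≤ 1 / 2 := by
    rw [hR]
    refine (norm_add_le _ _).trans ?_
    have h3 : ‖(F - F₁) * S‖ ≤ κ * ‖S‖ := by
      refine (norm_mul_le _ _).trans ?_
      rw [norm_sub_rev]
      exact mul_le_mul_of_nonneg_right n1 (norm_nonneg _)
    have h4 : ‖G' - G₁'‖ ≤ κ := by rw [norm_sub_rev]; exact n3
    linarith
  have hS1 : (1 - F₁) * S = G₁' + R := by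
    rw [hR, ← hS]
    noncomm_ring
  have key : (1 - F₁) * (G₁ * S + H₁') = G₁' * (1 + R) := by
    have h3 : (1 - F₁) * G₁ = G₁' * (1 - F₁) := by
      have : (1 - F₁) * G₁ = G₁ - F₁ * G₁ := by noncomm_ring
      rw [this, e1]
      noncomm_ring
    have h4 : (1 - F₁) * H₁' = G₁' - G₁' * G₁' := by
      rw [e3]
      noncomm_ring
    calc (1 - F₁) * (G₁ * S + H₁') = ((1 - F₁) * G₁) * S + (1 - F₁) * H₁' := by noncomm_ring
      _ = G₁' * ((1 - F₁) * S) + (G₁' - G₁' * G₁') := by rw [h3, h4]; noncomm_ring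
      _ = G₁' * (G₁' + R) + (G₁' - G₁' * G₁') := by rw [hS1]
      _ = G₁' * (1 + R) := by noncomm_ring
  obtain ⟨e, he⟩ : ∃ e, e = (F - F₁) c₁ := ⟨_, rfl⟩
  have hen : ‖e‖ ≤ κ * ‖c₁‖ := by
    rw [he]
    refine ((F - F₁).le_opNorm _).trans ?_
    rw [norm_sub_rev]
    exact mul_le_mul_of_nonneg_right n1 (norm_nonneg _)
  have he' : c₁ - F₁ c₁ = e := by
    rw [he, sub_apply, hF1]
  obtain ⟨y, hy1, hy2⟩ := solve R hRn e
  obtain ⟨w, hw⟩ : ∃ w, w = G₁ (S y) + H₁' y := ⟨_, rfl⟩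
  have hw1 : w - F₁ w = G₁' e := by
    have h3 := congrArg (fun T : E →L[ℂ] E => T y) key
    simp only [sub_apply, mul_apply_eq_comp,
      add_apply, one_apply_eq_self] at h3
    rw [hy1, ← hw] at h3
    exact h3
  have hG1n : ‖G₁‖ ≤ ‖G‖ + 1 := by
    have h3 : G₁ = G + (G₁ - G) := by abel
    rw [h3]
    exact (norm_add_le _ _).trans (by linarith)
  have hH1n : ‖H₁'‖ ≤ ‖H'‖ + 1 := by
    have h3 : H₁' = H' + (H₁' - H') := by abel
    rw [h3]
    exact (norm_add_le _ _).trans (by linarith)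
  have hwn : ‖w‖ ≤ M * (κ * ‖c₁‖) := by
    rw [hw]
    refine (norm_add_le _ _).trans ?_
    have h3 : ‖G₁ (S y)‖ ≤ (‖G‖ + 1) * (‖S‖ * ‖y‖) := by
      refine (G₁.le_opNorm _).trans ?_
      exact mul_le_mul hG1n (S.le_opNorm y) (norm_nonneg _) (by positivity)
    have h4 : ‖H₁' y‖ ≤ (‖H'‖ + 1) * ‖y‖ := by
      refine (H₁'.le_opNorm _).trans ?_
      exact mul_le_mul_of_nonneg_right hH1n (norm_nonneg _)
    have h5 : ‖y‖ ≤ 2 * (κ * ‖c₁‖) := by linarith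
    have h6 : 0 ≤ (‖G‖ + 1) * ‖S‖ + ‖H'‖ + 1 := by positivity
    have h7 := mul_le_mul_of_nonneg_left h5 h6
    rw [hM]
    nlinarith
  have hG1c : G₁ c₁ - F₁ (G₁ c₁) = G₁' e := by
    have h3 := congrArg (fun T : E →L[ℂ] E => T c₁) e1
    simp only [sub_apply, mul_apply_eq_comp] at h3
    rw [h3, ← map_sub, he']
  obtain ⟨c, hc⟩ : ∃ c, c = G₁ c₁ - w := ⟨_, rfl⟩
  have hd : G₁ c₁ - c₁ = (G₁ - G) c₁ := by
    rw [sub_apply, hG1]
  have hdn : ‖(G₁ - G) c₁‖ ≤ κ * ‖c₁‖ :=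
    ((G₁ - G).le_opNorm _).trans (mul_le_mul_of_nonneg_right n2 (norm_nonneg _))
  have hcc : ‖c - c₁‖ ≤ (1 + M) * (κ * ‖c₁‖) := by
    have h3 : c - c₁ = (G₁ - G) c₁ - w := by rw [← hd, hc]; abel
    rw [h3]
    refine (norm_sub_le _ _).trans ?_
    linarith
  refine ⟨c, ?_, ?_, ?_⟩
  · have h3 : c - F₁ c = 0 := by
      rw [hc, map_sub]
      have : G₁ c₁ - w - (F₁ (G₁ c₁) - F₁ w) = (G₁ c₁ - F₁ (G₁ c₁)) - (w - F₁ w) := by abel
      rw [this, hG1c, hw1, sub_self]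
    exact (sub_eq_zero.1 h3).symm
  · have h3 : c = c₁ + (c - c₁) := by abel
    rw [h3]
    refine (norm_add_le _ _).trans ?_
    have h4 : (1 + M) * (κ * ‖c₁‖) ≤ κ * ((1 + M) * (‖c₁‖ + 1)) := by
      have : 0 ≤ κ * (1 + M) := by positivity
      nlinarith
    linarith
  · have h3 : G₁ c - c₁ = G₁ (c - c₁) + (G₁ - G) c₁ := by
      rw [← hd, map_sub]; abel
    rw [h3]
    refine (norm_add_le _ _).trans ?_
    have h4 : ‖G₁ (c - c₁)‖ ≤ (‖G‖ + 1) * ((1 + M) * (κ * ‖c₁‖)) := by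
      refine (G₁.le_opNorm _).trans ?_
      exact mul_le_mul hG1n hcc (norm_nonneg _) (by positivity)
    have h5 : (‖G‖ + 1) * ((1 + M) * (κ * ‖c₁‖)) + κ * ‖c₁‖ ≤
        κ * (((‖G‖ + 1) * (1 + M) + 1) * (‖c₁‖ + 1)) := by
      have : 0 ≤ κ * ((‖G‖ + 1) * (1 + M) + 1) := by positivity
      nlinarith
    linarith

end

section

variable {E : Type*} [NormedAddCommGroup E] [InnerProductSpace ℂ E] [CompleteSpace E]

/-- a bounded solution operator -/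
theorem solop (F G' : E →L[ℂ] E) (hF : IsCompactOperator F) (hF' : IsCompactOperator (adjoint F))
    (hd : ∀ d, adjoint F d = d → adjoint G' d = 0) : ∃ S : E →L[ℂ] E, (1 - F) * S = G' := by
  obtain ⟨A, hA⟩ : ∃ A : E →L[ℂ] E, A = 1 - F := ⟨_, rfl⟩
  have hA' : adjoint A = 1 - adjoint F := by
    rw [hA, map_sub]
    congr 1
    exact ContinuousLinearMap.adjoint_id
  obtain ⟨V, hV⟩ : ∃ V : Submodule ℂ E, V = F.eqLocus (1 : E →L[ℂ] E) := ⟨_, rfl⟩
  have hmem : ∀ y, y ∈ V ↔ F y = y := fun y => by rw [hV]; rfl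
  have hVc : IsClosed (V : Set E) := by rw [hV]; exact ContinuousLinearMap.isClosed_eqLocus _ _
  have : CompleteSpace V := hVc.completeSpace_coe
  obtain ⟨P, hP⟩ : ∃ P : E →L[ℂ] E, P = V.subtypeL.comp V.orthogonalProjectionOnto := ⟨_, rfl⟩
  have hPm : ∀ x, F (P x) = P x := by
    intro x
    rw [hP]
    exact (hmem _).1 (V.orthogonalProjectionOnto x).2
  have hPf : ∀ x, F x = x → P x = x := by
    intro x hx
    rw [hP]
    exact congrArg Subtype.val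
      (V.orthogonalProjectionOnto_mem_subspace_eq_self ⟨x, (hmem x).2 hx⟩)
  have hPi : ∀ x, ⟪x, P x⟫_ℂ = ⟪P x, P x⟫_ℂ := by
    intro x
    have h1 : x - P x ∈ Vᗮ := by
      rw [hP]
      exact V.sub_starProjection_mem_orthogonal x
    have h2 : ⟪x - P x, P x⟫_ℂ = 0 := by
      rw [Submodule.mem_orthogonal'] at h1
      exact h1 _ ((hmem _).2 (hPm x))
    rw [inner_sub_left, sub_eq_zero] at h2
    exact h2
  obtain ⟨K, hK⟩ : ∃ K : E →L[ℂ] E, K = F + adjoint F - adjoint F * F - F * P := ⟨_, rfl⟩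
  have hKc : IsCompactOperator K := by
    rw [hK]
    exact ((hF.add hF').sub (hF.clm_comp (adjoint F))).sub (hF.comp_clm P)
  have hFP : ∀ x, (F * P) x = P x := hPm
  have hKA : ∀ x, x - K x = adjoint A (A x) + P x := by
    intro x
    rw [hK, hA', hA]
    simp only [sub_apply, add_apply,
      one_apply_eq_self, map_sub]
    rw [hFP]
    simp only [mul_apply_eq_comp]
    abel
  have hne : ¬ Module.End.HasEigenvalue (K : Module.End ℂ E) 1 := by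
    intro he
    obtain ⟨x, hx⟩ := he.exists_hasEigenvector
    have hx1 : K x = x := by
      have := hx.apply_eq_smul
      simpa using this
    apply hx.2
    have h1 := hKA x
    rw [hx1, sub_self] at h1
    have h2 : ⟪x, adjoint A (A x) + P x⟫_ℂ = 0 := by rw [← h1, inner_zero_right]
    rw [inner_add_right, ContinuousLinearMap.adjoint_inner_right, hPi] at h2
    have h3 : (‖A x‖ : ℝ) ^ 2 + ‖P x‖ ^ 2 = 0 := by
      rw [inner_self_eq_norm_sq_to_K, inner_self_eq_norm_sq_to_K] at h2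
      have h7 : (((‖A x‖ ^ 2 + ‖P x‖ ^ 2 : ℝ)) : ℂ) = 0 := by
        push_cast
        exact h2
      exact_mod_cast h7
    have h4 : ‖A x‖ = 0 := by
      have : 0 ≤ ‖P x‖ ^ 2 := by positivity
      nlinarith [norm_nonneg (A x)]
    have h5 : ‖P x‖ = 0 := by
      have : 0 ≤ ‖A x‖ ^ 2 := by positivity
      nlinarith [norm_nonneg (P x)]
    rw [norm_eq_zero] at h4 h5
    have h6 : F x = x := by
      rw [hA] at h4
      exact (sub_eq_zero.1 h4).symm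
    rw [← hPf x h6]
    exact h5
  have hres := (hKc.hasEigenvalue_or_mem_resolventSet one_ne_zero).resolve_left hne
  rw [spectrum.mem_resolventSet_iff] at hres
  obtain ⟨u, hu⟩ := hres
  have hu1 : ∀ x, (u : E →L[ℂ] E) x = x - K x := by
    intro x
    rw [hu]
    simp
  refine ⟨(↑u⁻¹ : E →L[ℂ] E) * adjoint A * G', ?_⟩
  ext x
  rw [← hA]
  obtain ⟨y, hy⟩ : ∃ y, y = (↑u⁻¹ : E →L[ℂ] E) (adjoint A (G' x)) := ⟨_, rfl⟩
  have h1 : adjoint A (A y) + P y = adjoint A (G' x) := by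
    rw [← hKA, ← hu1, hy]
    have h2 : (u : E →L[ℂ] E) * (↑u⁻¹ : E →L[ℂ] E) = 1 := Units.mul_inv u
    exact congrArg (fun T : E →L[ℂ] E => T (adjoint A (G' x))) h2
  have h2 : P y = adjoint A (G' x - A y) := by
    rw [map_sub, ← h1]; abel
  have h3 : P y = 0 := by
    have h4 : ⟪P y, P y⟫_ℂ = 0 := by
      nth_rewrite 2 [h2]
      rw [ContinuousLinearMap.adjoint_inner_right]
      have h5 : A (P y) = 0 := by
        rw [hA]
        change P y - F (P y) = 0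
        rw [hPm, sub_self]
      rw [h5, inner_zero_left]
    exact inner_self_eq_zero.1 h4
  rw [h3] at h2
  obtain ⟨d, hdd⟩ : ∃ d, d = G' x - A y := ⟨_, rfl⟩
  rw [← hdd] at h2
  have h4 : adjoint F d = d := by
    rw [hA'] at h2
    exact (sub_eq_zero.1 h2.symm).symm
  have h5 : ⟪d, d⟫_ℂ = 0 := by
    nth_rewrite 1 [hdd]
    rw [inner_sub_left, ← ContinuousLinearMap.adjoint_inner_right,
      ← ContinuousLinearMap.adjoint_inner_right, hd d h4, ← h2, inner_zero_right,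
      inner_zero_right, sub_self]
  have h6 : G' x - A y = 0 := by
    rw [← hdd]
    exact inner_self_eq_zero.1 h5
  have h7 : (A * ((↑u⁻¹ : E →L[ℂ] E) * adjoint A * G')) x = A y := by
    rw [hy]
    rfl
  rw [h7]
  exact (sub_eq_zero.1 h6).symm

end

lemma HS_df {A B : ℕ → ℕ → ℂ} (hA : HS A) (hB : HS B) : HS (df A B) := by
  have h1 : Summable fun p : ℕ × ℕ => 2 * ‖A p.1 p.2‖ ^ 2 + 2 * ‖B p.1 p.2‖ ^ 2 :=
    (Summable.mul_left 2 hA).add (Summable.mul_left 2 hB)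
  refine Summable.of_nonneg_of_le (fun _ => by positivity) (fun p => ?_) h1
  unfold df
  have h2 := norm_sub_le (A p.1 p.2) (B p.1 p.2)
  have h3 := norm_nonneg (A p.1 p.2 - B p.1 p.2)
  nlinarith [sq_nonneg (‖A p.1 p.2‖ - ‖B p.1 p.2‖)]

lemma op_norm_le (h : S_L2B) (A : ℕ → ℕ → ℂ) (hA : HS A) : ‖op h A hA‖ ≤ hs A :=
  LinearMap.mkContinuous_norm_le _ (hs_nonneg A) _

lemma op_df (h : S_L2B) {A B : ℕ → ℕ → ℂ} (hA : HS A) (hB : HS B) :
    op h (df A B) (HS_df hA hB) = op h A hA - op h B hB := by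
  ext x i
  change act (df A B) (fun j => x j) i = act A (fun j => x j) i - act B (fun j => x j) i
  have h1 := (h.2.2.1 A _ hA (sq_of x)).1 i
  have h2 := (h.2.2.1 B _ hB (sq_of x)).1 i
  simp only [act, df]
  rw [← h1.tsum_sub h2]
  exact tsum_congr fun j => by ring

lemma op_pm (h : S_L2B) {A B : ℕ → ℕ → ℂ} (hA : HS A) (hB : HS B) :
    op h (pm A B) (h.2.2.2.1 A B hA hB).1 = op h A hA * op h B hB := by
  ext x i
  exact congrFun ((h.2.2.2.1 A B hA hB).2 _ (sq_of x)) i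

lemma op_congr (h : S_L2B) {A B : ℕ → ℕ → ℂ} (hA : HS A) (hB : HS B) (hAB : ∀ i j, A i j = B i j) :
    op h A hA = op h B hB := by
  have : A = B := by
    funext i j
    exact hAB i j
  subst this
  rfl

/-- ALG -/
theorem alg (h : S_L2B) : S_ALG := by
  intro F G G' H' hsys hcok c₀ i₀ hc₀ hFc hGc
  obtain ⟨hF, hG, hG', hH', id1, id2, id3⟩ := hsys
  have rel : ∀ {A B C D : ℕ → ℕ → ℂ} (hA : HS A) (hB : HS B) (hC : HS C) (hD : HS D),
      (∀ i j, A i j - B i j = C i j - D i j) →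
      op h A hA - op h B hB = op h C hC - op h D hD := by
    intro A B C D hA hB hC hD hh
    rw [← op_df h hA hB, ← op_df h hC hD]
    exact op_congr h _ _ hh
  have r1 : op h G hG - op h F hF * op h G hG = op h G' hG' - op h G' hG' * op h F hF := by
    rw [← op_pm h hF hG, ← op_pm h hG' hF]
    exact rel _ _ _ _ id1
  have r2 : op h G hG - op h G hG * op h G hG = op h H' hH' - op h H' hH' * op h F hF := by
    rw [← op_pm h hG hG, ← op_pm h hH' hF]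
    exact rel _ _ _ _ id2
  have hadj : IsCompactOperator (adjoint (op h F hF)) := by
    have h1 : adjoint (op h F hF) = op h (fun i j => conj (F j i)) (HS_adj hF) := by
      ext x i
      rw [adjoint_apply]
      rfl
    rw [h1]
    exact op_compact h _ _
  obtain ⟨S, hS⟩ := solop (op h F hF) (op h G' hG') (op_compact h F hF) hadj (by
    intro d hd
    ext i
    rw [adjoint_apply]
    apply hcok (fun j => d j) (sq_of d)
    intro j
    have := congrArg (fun y : EE => y j) hd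
    simp only at this
    rw [adjoint_apply] at this
    exact this.symm)
  have hv : op h F hF (vec c₀ hc₀) = vec c₀ hc₀ := by
    ext i
    exact (hFc i).symm
  have hpos : 0 < ‖act G c₀ i₀‖ := norm_pos_iff.2 hGc
  obtain ⟨κ, hκ, hκ'⟩ := pert (op h F hF) (op h G hG) (op h G' hG') (op h H' hH') S r1 r2 hS
    (vec c₀ hc₀) hv (‖act G c₀ i₀‖ / 2) (by positivity)
  obtain ⟨L, hL⟩ : ∃ L : ℝ, L = ‖op h G hG (vec c₀ hc₀)‖ + 1 := ⟨_, rfl⟩
  have hL0 : 0 < L := by rw [hL]; positivity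
  refine ⟨κ, ‖act G c₀ i₀‖ / 2 / L, hκ, by positivity, ?_⟩
  intro F₁ G₁ G₁' H₁' hsys₁ d1 d2 d3 d4
  obtain ⟨hF₁, hG₁, hG₁', hH₁', id1₁, id2₁, id3₁⟩ := hsys₁
  have nrm : ∀ {A B : ℕ → ℕ → ℂ} (hA : HS A) (hB : HS B), hs (df A B) ≤ κ →
      ‖op h A hA - op h B hB‖ ≤ κ := by
    intro A B hA hB hh
    rw [← op_df h hA hB]
    exact (op_norm_le h _ _).trans hh
  obtain ⟨c, hc1, hc2, hc3⟩ := hκ' (op h F₁ hF₁) (op h G₁ hG₁) (op h G₁' hG₁') (op h H₁' hH₁')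
    (by
      rw [← op_pm h hF₁ hG₁, ← op_pm h hG₁' hF₁]
      exact rel _ _ _ _ id1₁) (by
      rw [← op_pm h hG₁' hG₁', ← op_pm h hF₁ hH₁']
      exact rel _ _ _ _ id3₁) (nrm _ _ d1) (nrm _ _ d2) (nrm _ _ d3) (nrm _ _ d4)
  rw [← hL] at hc2
  have hLc : (L : ℂ) ≠ 0 := by exact_mod_cast hL0.ne'
  have hsc := h.2.1 ((L : ℂ)⁻¹) (fun j => c j) (sq_of c)
  have hnL : ‖((L : ℂ)⁻¹)‖ = L⁻¹ := by
    rw [norm_inv, Complex.norm_real, Real.norm_of_nonneg hL0.le]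
  refine ⟨fun j => (L : ℂ)⁻¹ * c j, hsc.1, ?_, ?_, ?_⟩
  · rw [hsc.2, ← norm_eq, hnL, inv_mul_le_iff₀ hL0, mul_one]
    exact hc2
  · intro i
    change (L : ℂ)⁻¹ * c i = _
    rw [act_smul]
    have h1 : act F₁ (fun j => c j) i = c i := congrArg (fun y : EE => y i) hc1
    rw [h1]
  · rw [act_smul, norm_mul, hnL]
    have h1 : ‖(op h G₁ hG₁ c - op h G hG (vec c₀ hc₀) : EE) i₀‖ ≤ ‖act G c₀ i₀‖ / 2 :=
      (lp.norm_apply_le_norm (by norm_num) _ i₀).trans hc3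
    have h2 : (op h G₁ hG₁ c - op h G hG (vec c₀ hc₀) : EE) i₀ =
        act G₁ (fun j => c j) i₀ - act G c₀ i₀ := rfl
    rw [h2] at h1
    have h3 : ‖act G c₀ i₀‖ ≤ ‖act G₁ (fun j => c j) i₀‖ +
        ‖act G₁ (fun j => c j) i₀ - act G c₀ i₀‖ := by
      rw [norm_sub_rev]
      have : act G c₀ i₀ = act G₁ (fun j => c j) i₀ +
        (act G c₀ i₀ - act G₁ (fun j => c j) i₀) := by ring
      nth_rewrite 1 [this]
      exact norm_add_le _ _
    rw [div_eq_inv_mul]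
    apply mul_le_mul_of_nonneg_left _ (by positivity)
    linarith

end Pool.Agent.H50.SM.ALG
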