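import Pool.Agent.H50.SM.Stm

set_option autoImplicit false

namespace Pool.Agent.H50.SM.ADJ

open MeasureTheory Set Metric Filter Topology
open scoped InnerProductSpace ComplexConjugate
open ContinuousLinearMap (adjoint)

section

variable {H : Type} [NormedAddCommGroup H] [InnerProductSpace ℂ H]

theorem line (T P : H →L[ℂ] H) (hD : Dim2 P) (a : ℂ) (y : H) (hy : y ≠ 0) (hP : P y = y)
    (hT : T y = a • y) : NI T P := by
  refine ⟨ℂ ∙ y, Submodule.closed_of_finiteDimensional _, ?_, ?_, ?_, ?_⟩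
  · rwa [Ne, Submodule.span_singleton_eq_bot]
  · intro x hx
    obtain ⟨t, rfl⟩ := Submodule.mem_span_singleton.1 hx
    rw [map_smul, hP]
  · obtain ⟨x, hx, hxt⟩ := hD y
    refine ⟨x, hx, fun hmem => ?_⟩
    obtain ⟨t, ht⟩ := Submodule.mem_span_singleton.1 hmem
    exact hxt t ht.symm
  · intro x hx
    obtain ⟨t, rfl⟩ := Submodule.mem_span_singleton.1 hx
    rw [map_smul, hT]
    exact Submodule.smul_mem _ _ (Submodule.smul_mem _ _ (Submodule.mem_span_singleton_self y))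

variable [CompleteSpace H]

theorem dual (T P : H →L[ℂ] H) (hP : P * P = P) (hT : P * T = T * P)
    (h : NI (adjoint T) (adjoint P)) : NI T P := by
  have hPP : ∀ x, P (P x) = P x := fun x => by
    have := congrArg (fun A : H →L[ℂ] H => A x) hP
    simpa using this
  have hPT : ∀ x, P (T x) = T (P x) := fun x => by
    have := congrArg (fun A : H →L[ℂ] H => A x) hT
    simpa using this
  obtain ⟨V, hVc, hV0, hVP, ⟨x, hx, hxV⟩, hVT⟩ := h
  have hVV : Vᗮᗮ = V := by
    rw [Submodule.orthogonal_orthogonal_eq_closure]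
    exact hVc.submodule_topologicalClosure_eq
  refine ⟨Vᗮ ⊓ LinearMap.ker ((1 - P : H →L[ℂ] H) : H →ₗ[ℂ] H), ?_, ?_, ?_, ?_, ?_⟩
  · exact V.isClosed_orthogonal.inter (ContinuousLinearMap.isClosed_ker (1 - P))
  · intro hbot
    rw [← hVV, Submodule.mem_orthogonal] at hxV
    push Not at hxV
    obtain ⟨w, hw, hwx⟩ := hxV
    have hmem : P w ∈ Vᗮ ⊓ LinearMap.ker ((1 - P : H →L[ℂ] H) : H →ₗ[ℂ] H) := by
      refine ⟨?_, ?_⟩
      · show P w ∈ Vᗮ
        rw [Submodule.mem_orthogonal]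
        intro g hg
        rw [← ContinuousLinearMap.adjoint_inner_left, hVP g hg]
        exact (Submodule.mem_orthogonal _ _).1 hw g hg
      · show P w ∈ LinearMap.ker ((1 - P : H →L[ℂ] H) : H →ₗ[ℂ] H)
        rw [LinearMap.mem_ker]
        simp [hPP]
    rw [hbot, Submodule.mem_bot] at hmem
    apply hwx
    rw [← hx, ContinuousLinearMap.adjoint_inner_right, hmem, inner_zero_left]
  · intro y hy
    have hy2 : y ∈ LinearMap.ker ((1 - P : H →L[ℂ] H) : H →ₗ[ℂ] H) := hy.2
    rw [LinearMap.mem_ker] at hy2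
    have : y - P y = 0 := by simpa using hy2
    exact (sub_eq_zero.1 this).symm
  · obtain ⟨g, hg, hg0⟩ := V.ne_bot_iff.1 hV0
    refine ⟨P g, hPP g, fun hmem => ?_⟩
    have h1 : P g ∈ Vᗮ := hmem.1
    have h2 := (Submodule.mem_orthogonal _ _).1 h1 g hg
    rw [← ContinuousLinearMap.adjoint_inner_left, hVP g hg] at h2
    exact hg0 (inner_self_eq_zero.1 h2)
  · intro y hy
    have hy1 : y ∈ Vᗮ := hy.1
    have hy2 : y ∈ LinearMap.ker ((1 - P : H →L[ℂ] H) : H →ₗ[ℂ] H) := hy.2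
    rw [LinearMap.mem_ker] at hy2
    have hy3 : y - P y = 0 := by simpa using hy2
    have hy4 : P y = y := (sub_eq_zero.1 hy3).symm
    refine ⟨?_, ?_⟩
    · show T y ∈ Vᗮ
      rw [Submodule.mem_orthogonal]
      intro g hg
      rw [← ContinuousLinearMap.adjoint_inner_left]
      exact (Submodule.mem_orthogonal _ _).1 hy1 _ (hVT g hg)
    · show T y ∈ LinearMap.ker ((1 - P : H →L[ℂ] H) : H →ₗ[ℂ] H)
      rw [LinearMap.mem_ker]
      simp [hPT, hy4]

theorem dim2 (P : H →L[ℂ] H) (hPP : P * P = P) (hD : Dim2 P) : Dim2 (adjoint P) := by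
  intro x
  by_contra hcon
  push Not at hcon
  have hPP' : adjoint P * adjoint P = adjoint P := by
    have : adjoint (P * P) = adjoint P * adjoint P := star_mul P P
    rw [← this, hPP]
  have hA : ∀ g, adjoint P (adjoint P g) = adjoint P g := fun g => by
    have := congrArg (fun A : H →L[ℂ] H => A g) hPP'
    simpa using this
  have key : ∀ y, P y = y → ⟪x, y⟫_ℂ = 0 → y = 0 := by
    intro y hy hxy
    obtain ⟨t, ht⟩ := hcon (adjoint P y) (hA y)
    have h1 : ⟪y, y⟫_ℂ = 0 := by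
      nth_rw 2 [← hy]
      rw [← ContinuousLinearMap.adjoint_inner_left, ht, inner_smul_left, hxy, mul_zero]
    exact inner_self_eq_zero.1 h1
  obtain ⟨y1, hy1, h1⟩ := hD 0
  have hy10 : y1 ≠ 0 := by simpa using h1 0
  obtain ⟨y2, hy2, h2⟩ := hD y1
  have hx1 : ⟪x, y1⟫_ℂ ≠ 0 := fun h => hy10 (key y1 hy1 h)
  have h3 := key (y2 - (⟪x, y2⟫_ℂ / ⟪x, y1⟫_ℂ) • y1) (by rw [map_sub, map_smul, hy1, hy2])
    (by rw [inner_sub_right, inner_smul_right]; field_simp; ring)
  exact h2 _ (sub_eq_zero.1 h3)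

end

theorem adj : S_ADJ := by
  intro H _ _ _ T P hP hT
  have h1 := dual T P hP hT
  refine ⟨h1, ?_, ?_, ?_⟩
  · exact fun hD => dim2 P hP hD
  · intro hD a y hy hPy hTy
    exact h1 (line (adjoint T) (adjoint P) (dim2 P hP hD) a y hy hPy hTy)
  · intro hD a y hy hPy hTy
    exact line T P hD a y hy hPy hTy

end Pool.Agent.H50.SM.ADJ

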