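import Pool.Graph.R_pool_sql_team_seeded_3997aac3.Q130.TR.Main
import Pool.Agent.H50.SM.Stm

/-!
# Project SM, module ALT: the alternative at a point
-/

set_option autoImplicit false

namespace Pool.Agent.H50.SM.ALT

open MeasureTheory Set Metric Filter Topology
open scoped InnerProductSpace ENNReal NNReal ComplexConjugate
open Pool.Agent.Y283.NK (ct IsMul Repr)
open Pool.Agent.Q130.TC (Inj)
open Pool.Agent.Q130.TR
open ContinuousLinearMap (adjoint)

theorem alt : S_ALT := by
  intro S _ μ _ φ N K hN u v hK hI P hP hPT hkc a r hr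
  by_cases h1 : ∀ᵐ z, z ∈ ball a r → KerP φ u v P z
  · by_cases h2 : HasChP (N + K) P a r
    · exact Or.inl h2
    by_cases h3 : ∃ y, y ≠ 0 ∧ adjoint P y = y ∧ adjoint (N + K) y = conj a • y
    · exact Or.inr (Or.inl h3)
    refine Or.inr (Or.inr ⟨?_, ?_⟩)
    · refine chp rCSP rCSQ (Pool.Agent.Q135.TR.lin rL2B) rHSB Pool.Agent.Q87.TR.SRP.srp
        Pool.Agent.Q130.TC.wLNK hN hK hI hP hPT a r hr ?_ ?_ h2
      · filter_upwards [h1, hkc, (rSYS S μ φ N K hN u v hK P hP hPT).1] with z g1 g2 g3 hz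
        exact g3 (g1 hz) (g2 (g1 hz))
      · intro y hy1 hy2
        by_contra hy0
        exact h3 ⟨y, hy0, hy1, hy2⟩
    · intro y hy1 hy2
      by_contra hy0
      refine h2 ⟨fun k => if k = 0 then y else 0, ⟨fun k => ?_, ‖y‖, fun k => ?_⟩, ?_⟩
      · by_cases hk : k = 0
        · simp [hk, hy2]
        · simp [hk]
      · by_cases hk : k = 0
        · simp [hk]
        · simp only [hk, if_false, norm_zero]
          positivity
      · simpa [hy1] using hy0
  · exact Or.inl (Pool.Agent.Q76.TR.chainA rL2B rHSB hN hK P a r hr h1)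

end Pool.Agent.H50.SM.ALT
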