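import Pool.Graph.R_pool_sql_team_seeded_3997aac3.Q130.TR.Main
import Pool.Agent.H50.SM.Stm

/-!
# Project SM, module MOD: the theorem for multiplication operators
-/

set_option autoImplicit false

namespace Pool.Agent.H50.SM.MOD

open MeasureTheory Set Metric Filter Topology
open scoped InnerProductSpace ENNReal NNReal ComplexConjugate
open Pool.Agent.Y283.NK (ct IsMul Repr)
open Pool.Agent.Q130.TC (Inj)
open Pool.Agent.Q130.TR
open ContinuousLinearMap (adjoint)

lemma normal_of_isMul {S : Type} [MeasurableSpace S] {μ : Measure S} {φ : S → ℂ}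
    {N : Lp ℂ 2 μ →L[ℂ] Lp ℂ 2 μ} (hN : IsMul φ N) : IsStarNormal N := by
  have hN' := Pool.Agent.Y77.NK.isMul_adj hN
  refine ⟨?_⟩
  have h : adjoint N * N = N * adjoint N := by
    ext1 f
    apply Lp.ext
    have e1 : (adjoint N * N) f = adjoint N (N f) := rfl
    have e2 : (N * adjoint N) f = N (adjoint N f) := rfl
    rw [e1, e2]
    filter_upwards [hN'.eq (N f), hN.eq f, hN.eq (adjoint N f), hN'.eq f] with s h1 h2 h3 h4
    rw [h1, h2, h3, h4]
    ring
  exact h

/-- the two implications between the conditions on kernels -/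
lemma both (hSYS : S_SYS0) (hTHM : S_THM) (hADJ : S_ADJ) {S : Type} [MeasurableSpace S]
    {μ : Measure S} [SigmaFinite μ] {φ : S → ℂ} {N K : Lp ℂ 2 μ →L[ℂ] Lp ℂ 2 μ}
    (hN : IsMul φ N) {u v : ℕ → Lp ℂ 2 μ} (hK : Repr K u v) {P : Lp ℂ 2 μ →L[ℂ] Lp ℂ 2 μ}
    (hP : P * P = P) (hPT : P * (N + K) = (N + K) * P) (hd : Dim2 P) (hNI : ¬ NI (N + K) P) :
    ∀ᵐ z, KerP φ u v P z → CokP φ u v P z := by
  have hPa : adjoint P * adjoint P = adjoint P := by
    have h5 := congrArg (fun A => adjoint A) hP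
    rw [← ContinuousLinearMap.star_eq_adjoint, star_mul, ContinuousLinearMap.star_eq_adjoint] at h5
    exact h5
  have hTa : adjoint N + adjoint K = adjoint (N + K) := by rw [map_add]
  have hPTa : adjoint P * (adjoint N + adjoint K) = (adjoint N + adjoint K) * adjoint P := by
    have h5 := congrArg (fun A => adjoint A) hPT
    rw [hTa]
    simp only [← ContinuousLinearMap.star_eq_adjoint, star_mul] at h5 ⊢
    exact h5.symm
  have hN' := Pool.Agent.Y77.NK.isMul_adj hN
  have hK' : Repr (adjoint K) v u := (Pool.Agent.Y77.NK.main_trc _ K u v hK).1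
  have hA := hADJ _ (N + K) P hP hPT
  rcases hTHM S μ _ _ _ hN' v u hK' (adjoint P) hPa hPTa (hA.2.1 hd) with h | h
  · rw [hTa] at h
    exact absurd (hA.1 h) hNI
  · have hconj : MeasurePreserving (fun z : ℂ => conj z) volume volume :=
      Complex.conjLIE.measurePreserving
    have h' := hconj.quasiMeasurePreserving.ae h
    filter_upwards [h'] with z hz hk
    rw [(hSYS.2 S μ φ u v P z).1]
    refine hz ?_
    rw [← (hSYS.2 S μ φ u v P z).2]
    exact hk

theorem mod (hSYS : S_SYS0) (hTHM : S_THM) (hALT : S_ALT) (hADJ : S_ADJ) (hORT : S_ORT)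
    (hSPC : S_SPC) (hQNC : S_QNC) (hLOM : S_LOM) (hDUB : S_DUB) : S_MOD := by
  intro S _ μ _ φ N K hN u₀ v₀ hK₀ P hP hPT hd
  by_contra hNI
  have hPa : adjoint P * adjoint P = adjoint P := by
    have h5 := congrArg (fun A => adjoint A) hP
    rw [← ContinuousLinearMap.star_eq_adjoint, star_mul, ContinuousLinearMap.star_eq_adjoint] at h5
    exact h5
  have hTa : adjoint N + adjoint K = adjoint (N + K) := by rw [map_add]
  have hPTa' : adjoint P * adjoint (N + K) = adjoint (N + K) * adjoint P := by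
    have h5 := congrArg (fun A => adjoint A) hPT
    simp only [← ContinuousLinearMap.star_eq_adjoint, star_mul] at h5 ⊢
    exact h5.symm
  have hPTa : adjoint P * (adjoint N + adjoint K) = (adjoint N + adjoint K) * adjoint P := by
    rw [hTa]
    exact hPTa'
  have hN' := Pool.Agent.Y77.NK.isMul_adj hN
  have hK₀' : Repr (adjoint K) v₀ u₀ := (Pool.Agent.Y77.NK.main_trc _ K u₀ v₀ hK₀).1
  obtain ⟨u, v, hK, hI⟩ := Pool.Agent.Q144.TC.RED.red _ _ _ _ hK₀
  obtain ⟨p, q, hK', hI'⟩ := Pool.Agent.Q144.TC.RED.red _ _ _ _ hK₀'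
  have hA := hADJ _ (N + K) P hP hPT
  have hA' := hADJ _ (adjoint (N + K)) (adjoint P) hPa hPTa'
  rw [ContinuousLinearMap.adjoint_adjoint, ContinuousLinearMap.adjoint_adjoint] at hA'
  have hNI' : ¬ NI (adjoint (N + K)) (adjoint P) := fun h => hNI (hA.1 h)
  have hd' : Dim2 (adjoint P) := hA.2.1 hd
  have hKC := both hSYS hTHM hADJ hN hK hP hPT hd hNI
  have hKC' := both hSYS hTHM hADJ hN' hK' hPa hPTa hd' (by rw [hTa]; exact hNI')
  -- chains at all points of the spectrum
  have hch : ∀ (a : ℂ) (r : ℝ), 0 < r → ¬ BijP (N + K) P a → HasChP (N + K) P a r := by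
    intro a r hr hB
    rcases hALT S μ φ N K hN u v hK hI P hP hPT hKC a r hr with h | ⟨y, h1, h2, h3⟩ | h
    · exact h
    · exact absurd (hA.2.2.1 hd (conj a) y h1 h2 h3) hNI
    · exact absurd h hB
  have hch' : ∀ (a : ℂ) (r : ℝ), 0 < r → ¬ BijP (adjoint (N + K)) (adjoint P) a →
      HasChP (adjoint (N + K)) (adjoint P) a r := by
    intro a r hr hB
    rcases hALT S μ _ _ _ hN' p q hK' hI' (adjoint P) hPa hPTa hKC' a r hr with
      h | ⟨y, h1, h2, h3⟩ | h
    · rwa [hTa] at h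
    · rw [hTa, ContinuousLinearMap.adjoint_adjoint] at h3
      rw [ContinuousLinearMap.adjoint_adjoint] at h2
      exact absurd (hA.2.2.2 hd (conj a) y h1 h2 h3) hNI
    · rw [hTa] at h
      exact absurd h hB
  have hP0 : P ≠ 0 := by
    intro h0
    obtain ⟨y, hy, hy0⟩ := hd 0
    apply hy0 0
    rw [h0] at hy
    rw [zero_smul, ← hy]
    rfl
  rcases hSPC _ (N + K) P hP hPT hP0 with ⟨a, b, hab, ha, hb⟩ | ⟨a, ha⟩
  · have hr : 0 < ‖a - b‖ / 3 := by
      have : 0 < ‖a - b‖ := norm_pos_iff.2 (sub_ne_zero.2 hab)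
      positivity
    refine hNI (hORT _ (N + K) P hP hPT a b (‖a - b‖ / 3) hr ?_ (hch a _ hr ha)
      (hch' (conj b) _ hr fun h => hb (hDUB _ (N + K) P hP hPT b h)))
    linarith
  · have hNn : IsStarNormal N := normal_of_isMul hN
    have hKc : IsCompactOperator (⇑K) := (Pool.Agent.Q130.TC.hTRC _ K u v hK).2.1
    exact hNI (hLOM _ (N + K) P hP hPT hd a (hQNC _ N K P hNn hKc hP hPT a ha))

end Pool.Agent.H50.SM.MOD
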