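import Pool.Graph.R_seed8.Y529.NK.ANN
import Pool.Agent.H50.SM.Stm

/-!
# Project SM, module ORT: chains of the operator and the adjoint for disjoint discs

The lemma `orth` is adapted from the library module `Y529/NK/ANN.lean`.
-/

set_option autoImplicit false
set_option linter.all false

namespace Pool.Agent.H50.SM.ORT

open MeasureTheory Set Metric Filter Topology
open scoped InnerProductSpace ENNReal NNReal ComplexConjugate
open Pool.Agent.Y529.NK.ANN (zero_of)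
open Pool.Agent.Y271.RO (IsChain)
open Pool.Agent.Q130.TR
open ContinuousLinearMap (adjoint)

theorem orth {H : Type} [NormedAddCommGroup H] [InnerProductSpace ℂ H] [CompleteSpace H]
    (T : H →L[ℂ] H) (c₁ c₂ : ℂ) (r₁ r₂ C₁ C₂ : ℝ) (X Y : ℕ → H) (hr1 : 0 < r₁) (hr2 : 0 < r₂)
    (hr : r₁ + r₂ < ‖c₁ - c₂‖) (hX : ∀ k, T (X k) - c₁ • X k = X (k + 1))
    (hXb : ∀ k, ‖X k‖ ≤ C₁ * r₁ ^ k) (hY : ∀ k, adjoint T (Y k) - conj c₂ • Y k = Y (k + 1))
    (hYb : ∀ k, ‖Y k‖ ≤ C₂ * r₂ ^ k) (Q : H →L[ℂ] H) (hQ : Q * T = T * Q) :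
    ⟪Y 0, Q (X 0)⟫_ℂ = 0 := by
  have hrec : ∀ a b, ⟪Y (b + 1), Q (X a)⟫_ℂ - ⟪Y b, Q (X (a + 1))⟫_ℂ =
      (c₁ - c₂) * ⟪Y b, Q (X a)⟫_ℂ := by
    intro a b
    have e1 : Q (T (X a)) = T (Q (X a)) := by
      have := congrArg (fun R : H →L[ℂ] H => R (X a)) hQ
      exact this
    rw [← hX a, ← hY b, inner_sub_left, ContinuousLinearMap.adjoint_inner_left,
      inner_smul_left, map_sub, map_smul, inner_sub_right, inner_smul_right, e1,
      Complex.conj_conj]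
    ring
  have hC1 : 0 ≤ C₁ := by
    have := (norm_nonneg _).trans (hXb 0)
    simpa using this
  have hC2 : 0 ≤ C₂ := by
    have := (norm_nonneg _).trans (hYb 0)
    simpa using this
  have hbd : ∀ n a b : ℕ, ‖c₁ - c₂‖ ^ n * ‖⟪Y b, Q (X a)⟫_ℂ‖ ≤
      ‖Q‖ * C₁ * C₂ * (r₁ + r₂) ^ n * (r₁ ^ a * r₂ ^ b) := by
    intro n
    induction n with
    | zero =>
      intro a b
      have h1 : ‖⟪Y b, Q (X a)⟫_ℂ‖ ≤ ‖Y b‖ * (‖Q‖ * ‖X a‖) :=
        (norm_inner_le_norm _ _).trans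
          (mul_le_mul_of_nonneg_left (Q.le_opNorm _) (norm_nonneg _))
      have h2 : ‖Y b‖ * (‖Q‖ * ‖X a‖) ≤ (C₂ * r₂ ^ b) * (‖Q‖ * (C₁ * r₁ ^ a)) := by
        refine mul_le_mul (hYb b) (mul_le_mul_of_nonneg_left (hXb a) (norm_nonneg _))
          (by positivity) (by positivity)
      rw [pow_zero, one_mul, pow_zero, mul_one]
      refine (h1.trans h2).trans (le_of_eq (by ring))
    | succ n ih =>
      intro a b
      have h1 := ih a (b + 1)
      have h2 := ih (a + 1) b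
      have h3 : ‖c₁ - c₂‖ * ‖⟪Y b, Q (X a)⟫_ℂ‖ ≤
          ‖⟪Y (b + 1), Q (X a)⟫_ℂ‖ + ‖⟪Y b, Q (X (a + 1))⟫_ℂ‖ := by
        rw [← norm_mul, ← hrec a b]
        exact norm_sub_le _ _
      calc ‖c₁ - c₂‖ ^ (n + 1) * ‖⟪Y b, Q (X a)⟫_ℂ‖
          = ‖c₁ - c₂‖ ^ n * (‖c₁ - c₂‖ * ‖⟪Y b, Q (X a)⟫_ℂ‖) := by ring
        _ ≤ ‖c₁ - c₂‖ ^ n * (‖⟪Y (b + 1), Q (X a)⟫_ℂ‖ + ‖⟪Y b, Q (X (a + 1))⟫_ℂ‖) :=
            mul_le_mul_of_nonneg_left h3 (by positivity)
        _ ≤ ‖Q‖ * C₁ * C₂ * (r₁ + r₂) ^ n * (r₁ ^ a * r₂ ^ (b + 1)) +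
            ‖Q‖ * C₁ * C₂ * (r₁ + r₂) ^ n * (r₁ ^ (a + 1) * r₂ ^ b) := by
            rw [mul_add]
            exact add_le_add h1 h2
        _ = _ := by ring
  have h0 := zero_of (x := ‖⟪Y 0, Q (X 0)⟫_ℂ‖) (K := ‖Q‖ * C₁ * C₂) (ρ := r₁ + r₂)
    (δ := ‖c₁ - c₂‖) (lt_of_le_of_lt (by positivity) hr) (by positivity) hr (norm_nonneg _)
    (fun n => by simpa using hbd n 0 0)
  exact norm_eq_zero.1 h0

/-- the vectors `Q x`, `Q` in the commutant of `T` and `P` -/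
def V0 {H : Type} [NormedAddCommGroup H] [InnerProductSpace ℂ H] (T P : H →L[ℂ] H) (x : H) :
    Submodule ℂ H where
  carrier := {y | ∃ Q : H →L[ℂ] H, Q * T = T * Q ∧ Q * P = P * Q ∧ Q x = y}
  add_mem' := by
    rintro _ _ ⟨Q, hQ, hQ1, rfl⟩ ⟨Q', hQ', hQ1', rfl⟩
    exact ⟨Q + Q', by rw [add_mul, mul_add, hQ, hQ'], by rw [add_mul, mul_add, hQ1, hQ1'], rfl⟩
  zero_mem' := ⟨0, by rw [zero_mul, mul_zero], by rw [zero_mul, mul_zero], rfl⟩
  smul_mem' := by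
    rintro c _ ⟨Q, hQ, hQ1, rfl⟩
    exact ⟨c • Q, by rw [smul_mul_assoc, mul_smul_comm, hQ],
      by rw [smul_mul_assoc, mul_smul_comm, hQ1], rfl⟩

theorem V0_inv {H : Type} [NormedAddCommGroup H] [InnerProductSpace ℂ H] {T P : H →L[ℂ] H} {x : H}
    {Q : H →L[ℂ] H} (hQ : Q * T = T * Q) (hQ1 : Q * P = P * Q) {y : H} (hy : y ∈ V0 T P x) :
    Q y ∈ V0 T P x := by
  obtain ⟨Q', hQ', hQ1', rfl⟩ := hy
  exact ⟨Q * Q', by rw [mul_assoc, hQ', ← mul_assoc, hQ, mul_assoc],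
    by rw [mul_assoc, hQ1', ← mul_assoc, hQ1, mul_assoc], rfl⟩

/-- the subspace is invariant under the commutant of `T` and `P` -/
theorem ort_hyp {H : Type} [NormedAddCommGroup H] [InnerProductSpace ℂ H] [CompleteSpace H]
    (T P : H →L[ℂ] H) (hP : P * P = P) (hPT : P * T = T * P) (a b : ℂ) (r : ℝ) (hr : 0 < r)
    (hab : 2 * r < ‖a - b‖) (h1 : HasChP T P a r)
    (h2 : HasChP (adjoint T) (adjoint P) (conj b) r) :
    ∃ V : Submodule ℂ H, IsClosed (V : Set H) ∧ V ≠ ⊥ ∧ (∀ x ∈ V, P x = x) ∧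
      (∃ x, P x = x ∧ x ∉ V) ∧ ∀ Q : H →L[ℂ] H, Q * T = T * Q → Q * P = P * Q →
      ∀ x ∈ V, Q x ∈ V := by
  obtain ⟨X, ⟨hX, C₁, hXb⟩, hX0⟩ := h1
  obtain ⟨Y, ⟨hY, C₂, hYb⟩, hY0⟩ := h2
  have hPP : ∀ x, P (P x) = P x := fun x => congrArg (fun A : H →L[ℂ] H => A x) hP
  have horth : ∀ Q : H →L[ℂ] H, Q * T = T * Q → ⟪Y 0, Q (X 0)⟫_ℂ = 0 := fun Q hQ =>
    orth T a b r r C₁ C₂ X Y hr hr (by linarith) hX hXb hY hYb Q hQ
  set x := P (X 0) with hx
  set y := adjoint P (Y 0) with hy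
  refine ⟨(V0 T P x).topologicalClosure, Submodule.isClosed_topologicalClosure _, ?_, ?_, ?_, ?_⟩
  · intro h
    have h1 : x ∈ (V0 T P x).topologicalClosure :=
      Submodule.le_topologicalClosure _ ⟨1, by rw [one_mul, mul_one], by rw [one_mul, mul_one], rfl⟩
    rw [h, Submodule.mem_bot] at h1
    exact hX0 h1
  · intro w hw
    have h2 : ((V0 T P x).topologicalClosure : Set H) ⊆ {y | P y = y} := by
      rw [Submodule.topologicalClosure_coe]
      refine closure_minimal ?_ (isClosed_eq P.continuous continuous_id)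
      rintro _ ⟨Q, hQ, hQ1, rfl⟩
      show P (Q x) = Q x
      have h3 : P (Q x) = Q (P x) := (congrArg (fun A : H →L[ℂ] H => A x) hQ1).symm
      rw [h3, hx, hPP]
    exact h2 hw
  · refine ⟨P y, hPP y, fun h => ?_⟩
    have h2 : ((V0 T P x).topologicalClosure : Set H) ⊆ {w | ⟪y, w⟫_ℂ = 0} := by
      rw [Submodule.topologicalClosure_coe]
      refine closure_minimal ?_ (isClosed_eq (by fun_prop) continuous_const)
      rintro _ ⟨Q, hQ, hQ1, rfl⟩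
      show ⟪y, Q x⟫_ℂ = 0
      rw [hy, ContinuousLinearMap.adjoint_inner_left]
      have h3 : P (Q x) = (P * Q * P) (X 0) := rfl
      rw [h3]
      refine horth _ ?_
      rw [mul_assoc, hPT, ← mul_assoc, mul_assoc P Q T, hQ, ← mul_assoc, hPT, mul_assoc, mul_assoc,
        mul_assoc]
    have h3 : ⟪y, P y⟫_ℂ = 0 := h2 h
    have h4 : adjoint P y = y := by
      have h5 : adjoint P * adjoint P = adjoint P := by
        have h6 := congrArg (fun A => adjoint A) hP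
        rw [← ContinuousLinearMap.star_eq_adjoint, star_mul,
          ContinuousLinearMap.star_eq_adjoint] at h6
        exact h6
      exact congrArg (fun A => A (Y 0)) h5
    rw [← ContinuousLinearMap.adjoint_inner_left, h4] at h3
    exact hY0 (inner_self_eq_zero.1 h3)
  · intro Q hQ hQ1 w hw
    have h1 : w ∈ closure ((V0 T P x) : Set H) := by
      rw [← Submodule.topologicalClosure_coe]; exact hw
    have h2 : Q w ∈ closure ((V0 T P x) : Set H) :=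
      map_mem_closure Q.continuous h1 fun y hy => V0_inv hQ hQ1 hy
    rw [← Submodule.topologicalClosure_coe] at h2
    exact h2

theorem ort : S_ORT := by
  intro H _ _ _ T P hP hPT a b r hr hab h1 h2
  obtain ⟨V, g1, g2, g3, g4, g5⟩ := ort_hyp T P hP hPT a b r hr hab h1 h2
  exact ⟨V, g1, g2, g3, g4, g5 T rfl hPT.symm⟩

end Pool.Agent.H50.SM.ORT
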