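import Pool.Agent.H50.SM.Stm
import Pool.Graph.R_seed8.W706.HIR.Key

/-!
# Project SM (helper50), second part: hyperinvariant subspaces if the spectrum has area zero; reductive
direct summands; compressions
-/

set_option autoImplicit false

namespace Pool.Agent.H50.SM

open MeasureTheory Set Metric Filter Topology
open scoped InnerProductSpace ENNReal NNReal ComplexConjugate
open Pool.Agent.Y283.NK (ct IsMul Repr)
open Pool.Agent.Q130.TC (Inj)
open Pool.Agent.Q130.TR
open Pool.Agent.W706.HIR (sc Reductive)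
open ContinuousLinearMap (adjoint)

/-- there is a nontrivial closed subspace of the range of `P` which is invariant under all operators
commuting with `T` and `P` -/
def NH {H : Type} [NormedAddCommGroup H] [InnerProductSpace ℂ H] (T P : H →L[ℂ] H) : Prop :=
  ∃ V : Submodule ℂ H, IsClosed (V : Set H) ∧ V ≠ ⊥ ∧ (∀ x ∈ V, P x = x) ∧
    (∃ x, P x = x ∧ x ∉ V) ∧ ∀ Q : H →L[ℂ] H, Q * T = T * Q → Q * P = P * Q → ∀ x ∈ V, Q x ∈ V

/-- `T` is scalar on the range of `P` -/
def SC {H : Type} [NormedAddCommGroup H] [InnerProductSpace ℂ H] (T P : H →L[ℂ] H) : Prop :=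
  ∃ c : ℂ, ∀ x, P x = x → T x = c • x

/-- EIG (module EIG): the eigenspace `{y | P y = y, T y = a • y}`. -/
def S_EIG : Prop :=
  ∀ (H : Type) [NormedAddCommGroup H] [InnerProductSpace ℂ H] [CompleteSpace H]
    (T P : H →L[ℂ] H), P * P = P → P * T = T * P → ∀ (a : ℂ) (y : H), y ≠ 0 → P y = y →
    T y = a • y → SC T P ∨ NH T P

/-- DUH (module DUH): duality. As in `Pool.Agent.H50.SM.ADJ.dual` (file `Adj.lean`):
`V' = {y | P y = y, y ⟂ V}`; if `Q` commutes with `T` and `P` then `Q†` commutes with `T†` and `P†`, so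
`Q† V ⊆ V` and `Q V' ⊆ V'`. Scalar: if `T† g = c • g` on the range of `P†` then for `P y = y` and all
`w`: `⟪w, T y⟫ = ⟪w, P T y⟫ = ⟪T† P† w, y⟫ = ⟪c • P† w, y⟫ = ⟪w, conj c • y⟫`. -/
def S_DUH : Prop :=
  ∀ (H : Type) [NormedAddCommGroup H] [InnerProductSpace ℂ H] [CompleteSpace H]
    (T P : H →L[ℂ] H), P * P = P → P * T = T * P →
    (NH (adjoint T) (adjoint P) → NH T P) ∧ (SC (adjoint T) (adjoint P) → SC T P)

/-- LMH (module LMH): as `Pool.Agent.H50.SM.LOM.lom` (file `Lom.lean`), with the hyperinvariant form of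
Lomonosov's theorem `Pool.Agent.W577.HI.G1.main` (used at the end of `main_red` in
`Q130/TR/Red.lean`), applied to the compact operator `K₁ = (T - a)` restricted to the range `M` of `P`.
An operator `Q` which commutes with `T` and `P` maps `M` to `M` and its restriction commutes with `K₁`. -/
def S_LMH : Prop :=
  ∀ (H : Type) [NormedAddCommGroup H] [InnerProductSpace ℂ H] [CompleteSpace H]
    (T P : H →L[ℂ] H), P * P = P → P * T = T * P → ∀ a : ℂ,
    IsCompactOperator (⇑((T - a • (1 : H →L[ℂ] H)) * P)) → SC T P ∨ NH T P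

/-- RSV (module RSV): no chains of small radius at a point of the resolvent set.

Proof. Let `M` be the range of `P`, `T₁ - a` bijective on `M`, so `‖y‖ ≤ C ‖T y - a • y‖` for `y ∈ M`
(open mapping theorem; cf. the module DUB, file `Dub.lean`), `C > 0`, `r = 1 / (2 C)`. Let `X` be a chain
at `(a, r)`, `Y k = P (X k)`: `T (Y k) - a • Y k = Y (k + 1)`, `‖Y k‖ ≤ C₁ r ^ k`, so
`‖Y 0‖ ≤ C ^ k ‖Y k‖ ≤ C₁ 2 ^ (-k)` and `Y 0 = 0`. -/
def S_RSV : Prop :=
  ∀ (H : Type) [NormedAddCommGroup H] [InnerProductSpace ℂ H] [CompleteSpace H]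
    (T P : H →L[ℂ] H), P * P = P → P * T = T * P → ∀ a : ℂ, BijP T P a →
    ∃ r : ℝ, 0 < r ∧ ¬ HasChP T P a r

/-- AEZ (module AEZ, uses `S_RSV`): `KerP` holds almost everywhere on the resolvent set.

Proof. For each `a` with `BijP T P a` there is `r > 0` with `¬ HasChP T P a r`, so `KerP` holds almost
everywhere in `ball a r` (`Pool.Agent.Q76.TR.chainA`). Countably many of these discs cover all the
points with `BijP` (Lindelöf, `TopologicalSpace.isOpen_biUnion_countable` or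
`measure_null_of_locally_null`). -/
def S_AEZ : Prop :=
  ∀ (S : Type) [MeasurableSpace S] (μ : Measure S) [SigmaFinite μ] (φ : S → ℂ)
    (N K : Lp ℂ 2 μ →L[ℂ] Lp ℂ 2 μ), IsMul φ N → ∀ (u v : ℕ → Lp ℂ 2 μ), Repr K u v →
    ∀ P : Lp ℂ 2 μ →L[ℂ] Lp ℂ 2 μ, P * P = P → P * (N + K) = (N + K) * P →
    (∀ᵐ z, BijP (N + K) P z) → ∀ᵐ z, KerP φ u v P z

/-- MDH (module MDH): the hyperinvariant form, for multiplication operators. -/
def S_MDH : Prop :=
  ∀ (S : Type) [MeasurableSpace S] (μ : Measure S) [SigmaFinite μ] (φ : S → ℂ)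
    (N K : Lp ℂ 2 μ →L[ℂ] Lp ℂ 2 μ), IsMul φ N → ∀ (u v : ℕ → Lp ℂ 2 μ), Repr K u v →
    ∀ P : Lp ℂ 2 μ →L[ℂ] Lp ℂ 2 μ, P * P = P → P * (N + K) = (N + K) * P →
    (∀ᵐ z, BijP (N + K) P z) → SC (N + K) P ∨ NH (N + K) P

/-- FNH (module FNH): the same on a separable Hilbert space (as module FIN, file `Fin.lean`). -/
def S_FNH : Prop :=
  ∀ (H : Type) [NormedAddCommGroup H] [InnerProductSpace ℂ H] [CompleteSpace H]
    [TopologicalSpace.SeparableSpace H] (N K P : H →L[ℂ] H), IsStarNormal N →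
    ∀ (u v : ℕ → H), Repr K u v → P * P = P → P * (N + K) = (N + K) * P →
    (∀ᵐ z : ℂ, BijP (N + K) P z) → SC (N + K) P ∨ NH (N + K) P

/-- IRR (module IRR): a reductive operator with compact self-commutator which is not normal has an
irreducible part.

Proof. `C = sc T = T† T - T T†` is compact, self-adjoint, not zero, so it has an eigenvalue `l ≠ 0`
with an eigenspace `E = {x | C x = l • x}` of finite dimension (Mathlib: compact self-adjoint operators;
`finDim_eigen` in `R_seed8/H307R3/RO/Lom.lean`; see also the proof of `key` in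
`R_seed8/W706/HIR/Key.lean`, which is the analogous argument for hyperinvariant subspaces). Call a closed
subspace reducing if it is invariant under `T` and `T†`. Among the reducing subspaces `V` with
`E ⊓ V ≠ ⊥` choose one, `V₁`, with `dim (E ⊓ V)` minimal, let `0 ≠ x ∈ E ⊓ V₁` and let `V` be the
smallest reducing subspace which contains `x` (the infimum of all of them): `V ≤ V₁`,
`0 ≠ x ∈ E ⊓ V`, so `E ⊓ V = E ⊓ V₁` by minimality. Let `M ≤ V` be closed and invariant under `T`; `T`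
is reductive, so `M` is reducing, `W = V ⊓ Mᗮ` too, and `C` leaves both invariant; write `x = m + w`,
`m ∈ M`, `w ∈ W`: `C m = l • m`, `C w = l • w`. If `m ≠ 0` and `w ≠ 0`: `E ⊓ M ≠ ⊥`, so by minimality
`dim (E ⊓ M) = dim (E ⊓ V)`, `E ⊓ M = E ⊓ V ∋ w`, but `w ∈ Mᗮ`: contradiction. If `w = 0` then
`x ∈ M`, `V ≤ M`. If `m = 0` then `x ∈ W`, `V ≤ W`, `M = ⊥`. `T` is not scalar on `V`: otherwise
`C x = 0`. -/
def S_IRR : Prop :=
  ∀ (H : Type) [NormedAddCommGroup H] [InnerProductSpace ℂ H] [CompleteSpace H] (T : H →L[ℂ] H),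
    Reductive T → IsCompactOperator (⇑(sc T)) → ¬ IsStarNormal T →
    ∃ V : Submodule ℂ H, IsClosed (V : Set H) ∧ V ≠ ⊥ ∧ (∀ x ∈ V, T x ∈ V) ∧
      (∀ x ∈ V, adjoint T x ∈ V) ∧ (¬ ∃ c : ℂ, ∀ x ∈ V, T x = c • x) ∧
      ∀ M : Submodule ℂ H, IsClosed (M : Set H) → M ≤ V → (∀ x ∈ M, T x ∈ M) → M = ⊥ ∨ M = V

/-- TCA (module TCA): trace class operators form an ideal.

Proof. `A K f = ∑ ⟪v j, f⟫ A (u j)`; `K A f = ∑ ⟪v j, A f⟫ u j = ∑ ⟪A† (v j), f⟫ u j`; sum: interleave
the two representations (`p (2 j) = u j`, `p (2 j + 1) = u' j`; or use an equivalence `ℕ ⊕ ℕ ≃ ℕ`,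
`HasSum.sum`), scalar: `c • u j`. -/
def S_TCA : Prop :=
  ∀ (H : Type) [NormedAddCommGroup H] [InnerProductSpace ℂ H] [CompleteSpace H]
    (K K' : H →L[ℂ] H) (u v u' v' : ℕ → H), Repr K u v → Repr K' u' v' →
    (∀ A : H →L[ℂ] H, Repr (A * K) (fun j => A (u j)) v) ∧
    (∀ A : H →L[ℂ] H, Repr (K * A) u (fun j => adjoint A (v j))) ∧
    ∃ p q : ℕ → H, Repr (K + K') p q

end Pool.Agent.H50.SM
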