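import Pool.Graph.R_pool_sql_team_seeded_3997aac3.Q130.TR.Main
import Pool.Agent.H50.SM.Stm2
import Pool.Agent.H50.SM.Ort
import Pool.Agent.H50.SM.Alt
import Pool.Agent.H50.SM.Mod

/-!
# Project SM, modules AEZ and MDH: hyperinvariant subspaces if the spectrum has area zero
-/

set_option autoImplicit false

namespace Pool.Agent.H50.SM.AEZ

open MeasureTheory Set Metric Filter Topology
open scoped InnerProductSpace ENNReal NNReal ComplexConjugate
open Pool.Agent.Y283.NK (ct IsMul Repr)
open Pool.Agent.Q130.TC (Inj)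
open Pool.Agent.Q130.TR
open ContinuousLinearMap (adjoint)

theorem aez (hRSV : S_RSV) : S_AEZ := by
  intro S _ μ _ φ N K hN u v hK P hP hPT hB
  have hr : ∀ a : ℂ, BijP (N + K) P a → ∃ r : ℝ, 0 < r ∧
      ∀ᵐ z, z ∈ ball a r → KerP φ u v P z := by
    intro a ha
    obtain ⟨r, h1, h2⟩ := hRSV _ (N + K) P hP hPT a ha
    refine ⟨r, h1, ?_⟩
    by_contra h3
    exact h2 (Pool.Agent.Q76.TR.chainA rL2B rHSB hN hK P a r h1 h3)
  have hloc : volume {z : ℂ | BijP (N + K) P z ∧ ¬ KerP φ u v P z} = 0 := by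
    refine measure_null_of_locally_null _ fun a ha => ?_
    obtain ⟨r, h1, h2⟩ := hr a ha.1
    refine ⟨ball a r ∩ {z : ℂ | BijP (N + K) P z ∧ ¬ KerP φ u v P z}, ?_, ?_⟩
    · rw [inter_comm]
      exact inter_mem_nhdsWithin _ (ball_mem_nhds a h1)
    · rw [ae_iff] at h2
      refine measure_mono_null ?_ h2
      rintro z ⟨hz1, hz2, hz3⟩
      show ¬ (z ∈ ball a r → KerP φ u v P z)
      exact fun h => hz3 (h hz1)
  have h4 : ∀ᵐ z : ℂ, ¬ (BijP (N + K) P z ∧ ¬ KerP φ u v P z) := by
    rw [ae_iff]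
    simpa using hloc
  filter_upwards [hB, h4] with z h5 h6
  by_contra h7
  exact h6 ⟨h5, h7⟩

/-- the two idempotents `P` and `P†` -/
lemma adj_comm {H : Type} [NormedAddCommGroup H] [InnerProductSpace ℂ H] [CompleteSpace H]
    {T P : H →L[ℂ] H} (hP : P * P = P) (hPT : P * T = T * P) :
    adjoint P * adjoint P = adjoint P ∧ adjoint P * adjoint T = adjoint T * adjoint P := by
  constructor
  · have h5 := congrArg (fun A => adjoint A) hP
    rw [← ContinuousLinearMap.star_eq_adjoint, star_mul, ContinuousLinearMap.star_eq_adjoint] at h5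
    exact h5
  · have h5 := congrArg (fun A => adjoint A) hPT
    simp only [← ContinuousLinearMap.star_eq_adjoint, star_mul] at h5 ⊢
    exact h5.symm

theorem mdh (hRSV : S_RSV) (hSYS : S_SYS0) (hALT : S_ALT) (hEIG : S_EIG) (hDUH : S_DUH)
    (hSPC : S_SPC) (hQNC : S_QNC) (hLMH : S_LMH) (hDUB : S_DUB) : S_MDH := by
  intro S _ μ _ φ N K hN u₀ v₀ hK₀ P hP hPT hB
  by_contra hcon
  push Not at hcon
  obtain ⟨hSC, hNH⟩ := hcon
  obtain ⟨hPa, hPTa'⟩ := adj_comm hP hPT
  have hTa : adjoint N + adjoint K = adjoint (N + K) := by rw [map_add]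
  have hPTa : adjoint P * (adjoint N + adjoint K) = (adjoint N + adjoint K) * adjoint P := by
    rw [hTa]
    exact hPTa'
  have hN' := Pool.Agent.Y77.NK.isMul_adj hN
  have hK₀' : Repr (adjoint K) v₀ u₀ := (Pool.Agent.Y77.NK.main_trc _ K u₀ v₀ hK₀).1
  obtain ⟨u, v, hK, hI⟩ := Pool.Agent.Q144.TC.RED.red _ _ _ _ hK₀
  obtain ⟨p, q, hK', hI'⟩ := Pool.Agent.Q144.TC.RED.red _ _ _ _ hK₀'
  have hD := hDUH _ (N + K) P hP hPT
  have hconj : MeasurePreserving (fun z : ℂ => conj z) volume volume :=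
    Complex.conjLIE.measurePreserving
  -- the adjoint data
  have hdub : ∀ z, BijP (N + K) P z → BijP (adjoint (N + K)) (adjoint P) (conj z) := by
    intro z hz
    refine hDUB _ (adjoint (N + K)) (adjoint P) hPa hPTa' (conj z) ?_
    rw [ContinuousLinearMap.adjoint_adjoint, ContinuousLinearMap.adjoint_adjoint,
      Complex.conj_conj]
    exact hz
  have hB' : ∀ᵐ z, BijP (adjoint N + adjoint K) (adjoint P) z := by
    rw [hTa]
    have h1 := hconj.quasiMeasurePreserving.ae hB
    filter_upwards [h1] with z hz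
    have h2 := hdub _ hz
    rwa [Complex.conj_conj] at h2
  -- the condition on the kernels for both pairs
  have hKC : ∀ᵐ z, KerP φ u v P z → CokP φ u v P z := by
    have hK'' : Repr (adjoint K) v u := (Pool.Agent.Y77.NK.main_trc _ K u v hK).1
    have h1 := aez hRSV S μ _ _ _ hN' v u hK'' (adjoint P) hPa hPTa hB'
    have h2 := hconj.quasiMeasurePreserving.ae h1
    filter_upwards [h2] with z hz _
    rw [(hSYS.2 S μ φ u v P z).1]
    exact hz
  have hKC' : ∀ᵐ z, KerP (fun s => conj (φ s)) p q (adjoint P) z →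
      CokP (fun s => conj (φ s)) p q (adjoint P) z := by
    have hK'' : Repr K q p := by
      have h3 := (Pool.Agent.Y77.NK.main_trc _ (adjoint K) p q hK').1
      rwa [ContinuousLinearMap.adjoint_adjoint] at h3
    have h1 := aez hRSV S μ _ _ _ hN q p hK'' P hP hPT hB
    have h2 := hconj.quasiMeasurePreserving.ae h1
    filter_upwards [h2] with z hz _
    rw [(hSYS.2 S μ (fun s => conj (φ s)) p q (adjoint P) z).1]
    simp only [Complex.conj_conj, ContinuousLinearMap.adjoint_adjoint]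
    exact hz
  -- chains at all points of the spectrum
  have hch : ∀ (a : ℂ) (r : ℝ), 0 < r → ¬ BijP (N + K) P a → HasChP (N + K) P a r := by
    intro a r hr hB
    rcases hALT S μ φ N K hN u v hK hI P hP hPT hKC a r hr with h | ⟨y, h1, h2, h3⟩ | h
    · exact h
    · rcases hEIG _ (adjoint (N + K)) (adjoint P) hPa hPTa' (conj a) y h1 h2 h3 with h | h
      · exact absurd (hD.2 h) hSC
      · exact absurd (hD.1 h) hNH
    · exact absurd h hB
  have hch' : ∀ (a : ℂ) (r : ℝ), 0 < r → ¬ BijP (adjoint (N + K)) (adjoint P) a →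
      HasChP (adjoint (N + K)) (adjoint P) a r := by
    intro a r hr hB
    rcases hALT S μ _ _ _ hN' p q hK' hI' (adjoint P) hPa hPTa hKC' a r hr with
      h | ⟨y, h1, h2, h3⟩ | h
    · rwa [hTa] at h
    · rw [hTa, ContinuousLinearMap.adjoint_adjoint] at h3
      rw [ContinuousLinearMap.adjoint_adjoint] at h2
      rcases hEIG _ (N + K) P hP hPT (conj a) y h1 h2 h3 with h | h
      · exact absurd h hSC
      · exact absurd h hNH
    · rw [hTa] at h
      exact absurd h hB
  have hP0 : P ≠ 0 := by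
    intro h0
    apply hSC
    refine ⟨0, fun x hx => ?_⟩
    rw [h0] at hx
    have hx0 : x = 0 := hx.symm
    rw [hx0, map_zero, smul_zero]
  rcases hSPC _ (N + K) P hP hPT hP0 with ⟨a, b, hab, ha, hb⟩ | ⟨a, ha⟩
  · have hr : 0 < ‖a - b‖ / 3 := by
      have : 0 < ‖a - b‖ := norm_pos_iff.2 (sub_ne_zero.2 hab)
      positivity
    exact hNH (ORT.ort_hyp (N + K) P hP hPT a b (‖a - b‖ / 3) hr (by linarith) (hch a _ hr ha)
      (hch' (conj b) _ hr fun h => hb (hDUB _ (N + K) P hP hPT b h)))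
  · have hNn : IsStarNormal N := MOD.normal_of_isMul hN
    have hKc : IsCompactOperator (⇑K) := (Pool.Agent.Q130.TC.hTRC _ K u v hK).2.1
    rcases hLMH _ (N + K) P hP hPT a (hQNC _ N K P hNn hKc hP hPT a ha) with h | h
    · exact hSC h
    · exact hNH h

end Pool.Agent.H50.SM.AEZ
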