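import Pool.Agent.H50.SM.Stm2

set_option autoImplicit false

namespace Pool.Agent.H50.SM.DUH

open MeasureTheory Set Metric Filter Topology
open scoped InnerProductSpace ComplexConjugate
open ContinuousLinearMap (adjoint)

section

variable {H : Type} [NormedAddCommGroup H] [InnerProductSpace ℂ H] [CompleteSpace H]

theorem dualh (T P : H →L[ℂ] H) (hP : P * P = P)
    (h : NH (adjoint T) (adjoint P)) : NH T P := by
  have hPP : ∀ x, P (P x) = P x := fun x => by
    have := congrArg (fun A : H →L[ℂ] H => A x) hP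
    simpa using this
  obtain ⟨V, hVc, hV0, hVP, ⟨x, hx, hxV⟩, hVT⟩ := h
  have hVV : Vᗮᗮ = V := by
    rw [Submodule.orthogonal_orthogonal_eq_closure]
    exact hVc.submodule_topologicalClosure_eq
  let V' : Submodule ℂ H := Vᗮ ⊓ LinearMap.ker ((1 - P : H →L[ℂ] H) : H →ₗ[ℂ] H)
  have hV' : ∀ y, y ∈ V' ↔ (∀ g ∈ V, ⟪g, y⟫_ℂ = 0) ∧ P y = y := by
    intro y
    have e1 : y ∈ V' ↔ y ∈ Vᗮ ∧ y ∈ LinearMap.ker ((1 - P : H →L[ℂ] H) : H →ₗ[ℂ] H) := Iff.rfl
    rw [e1, LinearMap.mem_ker, Submodule.mem_orthogonal]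
    have e2 : ((1 - P : H →L[ℂ] H) : H →ₗ[ℂ] H) y = y - P y := by simp
    rw [e2, sub_eq_zero]
    exact and_congr_right fun _ => eq_comm
  refine ⟨V', ?_, ?_, fun y hy => ((hV' y).1 hy).2, ?_, ?_⟩
  · exact V.isClosed_orthogonal.inter (ContinuousLinearMap.isClosed_ker (1 - P))
  · intro hbot
    rw [← hVV, Submodule.mem_orthogonal] at hxV
    push Not at hxV
    obtain ⟨w, hw, hwx⟩ := hxV
    have hmem : P w ∈ V' := by
      refine (hV' _).2 ⟨fun g hg => ?_, hPP w⟩
      rw [← ContinuousLinearMap.adjoint_inner_left, hVP g hg]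
      exact (Submodule.mem_orthogonal _ _).1 hw g hg
    rw [hbot, Submodule.mem_bot] at hmem
    apply hwx
    rw [← hx, ContinuousLinearMap.adjoint_inner_right, hmem, inner_zero_left]
  · obtain ⟨g, hg, hg0⟩ := V.ne_bot_iff.1 hV0
    refine ⟨P g, hPP g, fun hmem => ?_⟩
    have h2 := ((hV' _).1 hmem).1 g hg
    rw [← ContinuousLinearMap.adjoint_inner_left, hVP g hg] at h2
    exact hg0 (inner_self_eq_zero.1 h2)
  · intro Q hQT hQP y hy
    have h1 : ∀ A B : H →L[ℂ] H, adjoint (A * B) = adjoint B * adjoint A := fun A B =>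
      star_mul A B
    have h2 : ∀ z, Q (P z) = P (Q z) := fun z => by
      have := congrArg (fun A : H →L[ℂ] H => A z) hQP
      simpa using this
    obtain ⟨hy1, hy2⟩ := (hV' y).1 hy
    refine (hV' _).2 ⟨fun g hg => ?_, ?_⟩
    · rw [← ContinuousLinearMap.adjoint_inner_left]
      refine hy1 _ (hVT (adjoint Q) ?_ ?_ g hg)
      · rw [← h1, ← h1, hQT]
      · rw [← h1, ← h1, hQP]
    · rw [← h2, hy2]

end

theorem duh : S_DUH := by
  intro H _ _ _ T P hP hT
  refine ⟨dualh T P hP, ?_⟩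
  rintro ⟨c, hc⟩
  have h1 : ∀ A B : H →L[ℂ] H, adjoint (A * B) = adjoint B * adjoint A := fun A B =>
    star_mul A B
  have hP' : adjoint P * adjoint P = adjoint P := by rw [← h1, hP]
  have hA : ∀ g, adjoint P (adjoint P g) = adjoint P g := fun g => by
    have := congrArg (fun A : H →L[ℂ] H => A g) hP'
    simpa using this
  have hPT : ∀ x, P (T x) = T (P x) := fun x => by
    have := congrArg (fun A : H →L[ℂ] H => A x) hT
    simpa using this
  refine ⟨conj c, fun y hy => ?_⟩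
  refine ext_inner_left ℂ fun w => ?_
  have e1 : T y = P (T y) := by rw [hPT, hy]
  calc ⟪w, T y⟫_ℂ = ⟪adjoint P w, T y⟫_ℂ := by
        rw [ContinuousLinearMap.adjoint_inner_left, ← e1]
    _ = ⟪adjoint T (adjoint P w), y⟫_ℂ := (ContinuousLinearMap.adjoint_inner_left _ _ _).symm
    _ = ⟪c • adjoint P w, y⟫_ℂ := by rw [hc _ (hA w)]
    _ = conj c * ⟪adjoint P w, y⟫_ℂ := inner_smul_left _ _ _
    _ = conj c * ⟪w, y⟫_ℂ := by rw [ContinuousLinearMap.adjoint_inner_left, hy]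
    _ = ⟪w, conj c • y⟫_ℂ := (inner_smul_right _ _ _).symm

end Pool.Agent.H50.SM.DUH

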