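import Pool.Agent.H50.SM.Stm2

set_option autoImplicit false

namespace Pool.Agent.H50.SM.EIG

open MeasureTheory Set Metric Filter Topology
open scoped InnerProductSpace ComplexConjugate
open ContinuousLinearMap (adjoint)

theorem eig : S_EIG := by
  intro H _ _ _ T P hP hT a y hy hPy hTy
  have hPP : ∀ x, P (P x) = P x := fun x => by
    have := congrArg (fun A : H →L[ℂ] H => A x) hP
    simpa using this
  by_cases hs : ∀ x, P x = x → T x = a • x
  · exact Or.inl ⟨a, hs⟩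
  right
  push Not at hs
  obtain ⟨x₀, hx₀, hx₁⟩ := hs
  let V : Submodule ℂ H := LinearMap.ker ((1 - P : H →L[ℂ] H) : H →ₗ[ℂ] H) ⊓
    LinearMap.ker ((T - a • (1 : H →L[ℂ] H) : H →L[ℂ] H) : H →ₗ[ℂ] H)
  have hV : ∀ x, x ∈ V ↔ P x = x ∧ T x = a • x := by
    intro x
    have e1 : x ∈ V ↔ x ∈ LinearMap.ker ((1 - P : H →L[ℂ] H) : H →ₗ[ℂ] H) ∧
      x ∈ LinearMap.ker ((T - a • (1 : H →L[ℂ] H) : H →L[ℂ] H) : H →ₗ[ℂ] H) := Iff.rfl
    rw [e1, LinearMap.mem_ker, LinearMap.mem_ker]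
    have e2 : ((1 - P : H →L[ℂ] H) : H →ₗ[ℂ] H) x = x - P x := by simp
    have e3 : ((T - a • (1 : H →L[ℂ] H) : H →L[ℂ] H) : H →ₗ[ℂ] H) x = T x - a • x := by simp
    rw [e2, e3, sub_eq_zero, sub_eq_zero]
    exact and_congr_left fun _ => eq_comm
  refine ⟨V, ?_, ?_, fun x hx => ((hV x).1 hx).1, ⟨x₀, hx₀, fun h => hx₁ ((hV x₀).1 h).2⟩, ?_⟩
  · exact (ContinuousLinearMap.isClosed_ker (1 - P)).inter
      (ContinuousLinearMap.isClosed_ker (T - a • (1 : H →L[ℂ] H)))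
  · intro hbot
    have : y ∈ V := (hV y).2 ⟨hPy, hTy⟩
    rw [hbot, Submodule.mem_bot] at this
    exact hy this
  · intro Q hQT hQP x hx
    have h1 : ∀ z, Q (T z) = T (Q z) := fun z => by
      have := congrArg (fun A : H →L[ℂ] H => A z) hQT
      simpa using this
    have h2 : ∀ z, Q (P z) = P (Q z) := fun z => by
      have := congrArg (fun A : H →L[ℂ] H => A z) hQP
      simpa using this
    obtain ⟨hx1, hx2⟩ := (hV x).1 hx
    refine (hV _).2 ⟨?_, ?_⟩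
    · rw [← h2, hx1]
    · rw [← h1, hx2, map_smul]

end Pool.Agent.H50.SM.EIG
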