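import Pool.Agent.H50.SM.Stm

/-!
# Module EVI (helper82): a bounded point evaluation gives an invariant subspace
-/

set_option autoImplicit false

namespace Pool.Agent.H50.SM.EVI

open scoped InnerProductSpace ComplexConjugate
open ContinuousLinearMap (adjoint)

variable {H : Type} [NormedAddCommGroup H] [InnerProductSpace ℂ H] [CompleteSpace H]

/-- the annihilator in the range of `P` of an invariant subspace of the adjoint -/
lemma mk {T P : H →L[ℂ] H} (hP : P * P = P) (hPT : P * T = T * P) (K : Submodule ℂ H)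
    (hK0 : ∃ g ∈ K, g ≠ 0) (hKP : ∀ g ∈ K, adjoint P g = g) (hKT : ∀ g ∈ K, adjoint T g ∈ K)
    (h : H) (hh : ∀ g ∈ K, ⟪g, h⟫_ℂ = 0) (hne : P h ≠ 0) : NI T P := by
  have hPP : ∀ y, P (P y) = P y := fun y => by
    have := congrArg (fun f : H →L[ℂ] H => f y) hP
    simpa using this
  have hcomm : ∀ y, P (T y) = T (P y) := fun y => by
    have := congrArg (fun f : H →L[ℂ] H => f y) hPT
    simpa using this
  refine ⟨Kᗮ ⊓ LinearMap.ker ((P - 1 : H →L[ℂ] H) : H →ₗ[ℂ] H), ?_, ?_, ?_, ?_, ?_⟩
  · have h1 : IsClosed (Kᗮ : Set H) := Submodule.isClosed_orthogonal K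
    have h2 : IsClosed ((LinearMap.ker ((P - 1 : H →L[ℂ] H) : H →ₗ[ℂ] H) : Submodule ℂ H) : Set H) :=
      ContinuousLinearMap.isClosed_ker (P - 1 : H →L[ℂ] H)
    exact h1.inter h2
  · intro hbot
    have hmem : P h ∈ Kᗮ ⊓ LinearMap.ker ((P - 1 : H →L[ℂ] H) : H →ₗ[ℂ] H) := by
      refine ⟨?_, ?_⟩
      · rw [SetLike.mem_coe, Submodule.mem_orthogonal]
        intro g hg
        rw [← ContinuousLinearMap.adjoint_inner_left, hKP g hg]
        exact hh g hg
      · simp [hPP]
    rw [hbot] at hmem
    exact hne ((Submodule.mem_bot ℂ).1 hmem)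
  · intro y hy
    have := hy.2
    rw [SetLike.mem_coe, LinearMap.mem_ker] at this
    have h3 : P y - y = 0 := by simpa using this
    exact sub_eq_zero.1 h3
  · obtain ⟨g, hg, hg0⟩ := hK0
    refine ⟨P g, hPP g, ?_⟩
    intro hmem
    have h1 := (Submodule.mem_orthogonal K (P g)).1 hmem.1 g hg
    rw [← ContinuousLinearMap.adjoint_inner_left, hKP g hg] at h1
    exact hg0 (inner_self_eq_zero.1 h1)
  · intro y hy
    have hy2 : P y = y := by
      have := hy.2
      rw [SetLike.mem_coe, LinearMap.mem_ker] at this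
      have h3 : P y - y = 0 := by simpa using this
      exact sub_eq_zero.1 h3
    refine ⟨?_, ?_⟩
    · rw [SetLike.mem_coe, Submodule.mem_orthogonal]
      intro g hg
      rw [← ContinuousLinearMap.adjoint_inner_left]
      exact (Submodule.mem_orthogonal K y).1 hy.1 _ (hKT g hg)
    · rw [SetLike.mem_coe, LinearMap.mem_ker]
      simp [hcomm, hy2]

lemma yv_add (T : H →L[ℂ] H) (x : H) (p q : Polynomial ℂ) :
    yv T x (p + q) = yv T x p + yv T x q := by
  unfold yv
  apply Polynomial.sum_add_index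
  · intro i
    simp
  · intro i b c
    rw [map_add, add_smul]

lemma yv_C_mul (T : H →L[ℂ] H) (x : H) (c : ℂ) (p : Polynomial ℂ) :
    yv T x (Polynomial.C c * p) = conj c • yv T x p := by
  unfold yv
  rw [← Polynomial.smul_eq_C_mul, Polynomial.sum_smul_index _ _ _ (by intro i; simp)]
  unfold Polynomial.sum
  rw [Finset.smul_sum]
  apply Finset.sum_congr rfl
  intro i _
  show conj (c * p.coeff i) • ((adjoint T) ^ i) x = conj c • conj (p.coeff i) • ((adjoint T) ^ i) x
  rw [map_mul, mul_smul]

lemma yv_pow (T : H →L[ℂ] H) (x : H) (k : ℕ) :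
    yv T x (Polynomial.X ^ k) = ((adjoint T) ^ k) x := by
  unfold yv
  rw [← Polynomial.monomial_one_right_eq_X_pow, Polynomial.sum_monomial_index _ _ (by simp)]
  simp

lemma yv_neg (T : H →L[ℂ] H) (x : H) (p : Polynomial ℂ) : yv T x (-p) = - yv T x p := by
  have h := yv_C_mul T x (-1) p
  rw [map_neg, Polynomial.C_1, neg_one_mul] at h
  rw [h]
  simp

theorem evi : S_EVI := by
  intro H _ _ _ T P hP hPT hD x a C hx hC
  have hQ : ∀ y, adjoint P (adjoint T y) = adjoint T (adjoint P y) := by
    intro y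
    have h1 : star (P * T) = star (T * P) := by rw [hPT]
    rw [star_mul, star_mul] at h1
    have h2 := congrArg (fun f : H →L[ℂ] H => f y) h1
    simpa [ContinuousLinearMap.star_eq_adjoint] using h2.symm
  have hyv1 : yv T x 1 = x := by
    have := yv_pow T x 0
    simpa using this
  have hx0 : x ≠ 0 := by
    rintro rfl
    have := hC 1
    rw [hyv1] at this
    simp at this
    linarith
  have hCpos : 0 < C := by
    have := hC 1
    rw [hyv1] at this
    simp at this
    by_contra hcon
    have h2 : C * ‖x‖ ≤ 0 := mul_nonpos_of_nonpos_of_nonneg (not_lt.1 hcon) (norm_nonneg _)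
    linarith
  set K : Submodule ℂ H := Submodule.span ℂ (Set.range fun k : ℕ =>
    adjoint T (((adjoint T) ^ k) x) - conj a • ((adjoint T) ^ k) x) with hK
  have hsp : ∀ g ∈ K, ∃ p : Polynomial ℂ, p.eval a = 0 ∧ g = yv T x p := by
    intro g hg
    induction hg using Submodule.span_induction with
    | mem g hg =>
      obtain ⟨k, rfl⟩ := hg
      refine ⟨Polynomial.X ^ (k + 1) + -(Polynomial.C a * Polynomial.X ^ k), ?_, ?_⟩
      · simp [pow_succ]
        ring
      · rw [yv_add, yv_neg, yv_C_mul, yv_pow, yv_pow, pow_succ', ← sub_eq_add_neg]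
        rfl
    | zero => exact ⟨0, by simp, by simp [yv]⟩
    | add g₁ g₂ _ _ h₁ h₂ =>
      obtain ⟨p, hp, rfl⟩ := h₁
      obtain ⟨q, hq, rfl⟩ := h₂
      exact ⟨p + q, by simp [hp, hq], by rw [yv_add]⟩
    | smul c g _ h =>
      obtain ⟨p, hp, rfl⟩ := h
      exact ⟨Polynomial.C (conj c) * p, by simp [hp], by rw [yv_C_mul]; simp⟩
  have hxK : x ∉ Kᗮᗮ := by
    rw [Submodule.orthogonal_orthogonal_eq_closure]
    intro hmem
    have hmem2 : x ∈ closure (K : Set H) := hmem
    rw [Metric.mem_closure_iff] at hmem2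
    obtain ⟨g, hg, hd⟩ := hmem2 (1 / C) (by positivity)
    obtain ⟨p, hp, rfl⟩ := hsp g hg
    have h1 := hC (1 + -p)
    rw [yv_add, yv_neg, hyv1] at h1
    simp [hp] at h1
    rw [dist_eq_norm, lt_div_iff₀ hCpos] at hd
    rw [← sub_eq_add_neg] at h1
    linarith
  have hex : ∃ h ∈ Kᗮ, ⟪h, x⟫_ℂ ≠ 0 := by
    by_contra hcon
    push Not at hcon
    exact hxK ((Submodule.mem_orthogonal _ _).2 hcon)
  obtain ⟨h, hh, hhx⟩ := hex
  by_cases hKb : ∃ g ∈ K, g ≠ 0
  · refine mk hP hPT K hKb ?_ ?_ h (fun g hg => (Submodule.mem_orthogonal K h).1 hh g hg) ?_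
    · intro g hg
      have hpow : ∀ k : ℕ, adjoint P (((adjoint T) ^ k) x) = ((adjoint T) ^ k) x := by
        intro k
        induction k with
        | zero => simpa using hx
        | succ k ih =>
          rw [pow_succ']
          show adjoint P (adjoint T (((adjoint T) ^ k) x)) = adjoint T (((adjoint T) ^ k) x)
          rw [hQ, ih]
      induction hg using Submodule.span_induction with
      | mem g hg =>
        obtain ⟨k, rfl⟩ := hg
        show adjoint P (adjoint T (((adjoint T) ^ k) x) - conj a • ((adjoint T) ^ k) x) =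
          adjoint T (((adjoint T) ^ k) x) - conj a • ((adjoint T) ^ k) x
        rw [map_sub, map_smul, hQ, hpow]
      | zero => simp
      | add g₁ g₂ _ _ h₁ h₂ => rw [map_add, h₁, h₂]
      | smul c g _ h => rw [map_smul, h]
    · intro g hg
      induction hg using Submodule.span_induction with
      | mem g hg =>
        obtain ⟨k, rfl⟩ := hg
        apply Submodule.subset_span
        refine ⟨k + 1, ?_⟩
        show adjoint T (((adjoint T) ^ (k + 1)) x) - conj a • ((adjoint T) ^ (k + 1)) x =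
          adjoint T (adjoint T (((adjoint T) ^ k) x) - conj a • ((adjoint T) ^ k) x)
        rw [map_sub, map_smul, pow_succ']
        rfl
      | zero => simp
      | add g₁ g₂ _ _ h₁ h₂ => rw [map_add]; exact K.add_mem h₁ h₂
      | smul c g _ h => rw [map_smul]; exact K.smul_mem _ h
    · intro h0
      apply hhx
      rw [← hx, ContinuousLinearMap.adjoint_inner_right, h0, inner_zero_left]
  · push Not at hKb
    have hTx : adjoint T x = conj a • x := by
      have h1 : adjoint T (((adjoint T) ^ 0) x) - conj a • ((adjoint T) ^ 0) x = 0 :=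
        hKb _ (Submodule.subset_span ⟨0, rfl⟩)
      rw [pow_zero] at h1
      exact sub_eq_zero.1 h1
    have hPP : ∀ y, P (P y) = P y := fun y => by
      have := congrArg (fun f : H →L[ℂ] H => f y) hP
      simpa using this
    have hxP : ⟪x, P x⟫_ℂ ≠ 0 := by
      rw [← ContinuousLinearMap.adjoint_inner_left, hx]
      exact fun h0 => hx0 (inner_self_eq_zero.1 h0)
    obtain ⟨y, hy1, hy2⟩ := hD (P x)
    have hz : y - (⟪x, y⟫_ℂ / ⟪x, P x⟫_ℂ) • P x ≠ 0 := fun h0 => hy2 _ (sub_eq_zero.1 h0)
    refine mk hP hPT (Submodule.span ℂ {x}) ⟨x, Submodule.mem_span_singleton_self x, hx0⟩ ?_ ?_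
      (y - (⟪x, y⟫_ℂ / ⟪x, P x⟫_ℂ) • P x) ?_ ?_
    · intro g hg
      obtain ⟨c, rfl⟩ := Submodule.mem_span_singleton.1 hg
      rw [map_smul, hx]
    · intro g hg
      obtain ⟨c, rfl⟩ := Submodule.mem_span_singleton.1 hg
      rw [map_smul, hTx]
      exact Submodule.smul_mem _ _ (Submodule.smul_mem _ _ (Submodule.mem_span_singleton_self x))
    · intro g hg
      obtain ⟨c, rfl⟩ := Submodule.mem_span_singleton.1 hg
      rw [inner_smul_left, inner_sub_right, inner_smul_right, div_mul_cancel₀ _ hxP, sub_self,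
        mul_zero]
    · rw [map_sub, map_smul, hy1, hPP]
      exact hz

end Pool.Agent.H50.SM.EVI
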