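import Pool.Agent.H50.SM.Stm
import Pool.Graph.R_pool_sql_team_seeded_3997aac3.Q86.TR.STL
import Pool.Graph.R_pool_sql_team_seeded_3997aac3.Q16.TR.L2B

/-!
# The generalised eigenvectors (module EVL, written by helper40)
-/

set_option autoImplicit false
set_option linter.unusedSectionVars false
set_option linter.unusedVariables false

namespace Pool.Agent.H50.SM.EVL

open MeasureTheory Set Metric Filter Topology
open scoped InnerProductSpace ENNReal NNReal ComplexConjugate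
open Pool.Agent.Y283.NK (ct IsMul Repr ea)
open Pool.Agent.Q130.TR Pool.Agent.Q86.TR
open ContinuousLinearMap (adjoint)

variable {S : Type} [MeasurableSpace S] {μ : Measure S}

/-- multiplication by `φ` -/
theorem ct_mul {φ : S → ℂ} {N : Lp ℂ 2 μ →L[ℂ] Lp ℂ 2 μ} (hN : IsMul φ N) {z : ℂ}
    {g f : Lp ℂ 2 μ} (hg : ea φ g z ≠ ⊤) (hf : ea φ f z ≠ ⊤) :
    ct φ g (N f) z = z * ct φ g f z - ⟪g, f⟫_ℂ := by
  have hφ := hN.meas
  have i1 : Integrable (fun s => z * (conj (g s) * f s * (z - φ s)⁻¹)) μ :=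
    (ct_int hφ hg hf).const_mul z
  have i2 : Integrable (fun s => conj (g s) * f s) μ := by
    refine (L2.integrable_inner (𝕜 := ℂ) g f).congr (Eventually.of_forall fun s => ?_)
    show ⟪g s, f s⟫_ℂ = _
    rw [RCLike.inner_apply, mul_comm]
  have e1 : ct φ g (N f) z =
      ∫ s, (z * (conj (g s) * f s * (z - φ s)⁻¹) - conj (g s) * f s) ∂μ := by
    unfold ct
    refine integral_congr_ae ?_
    filter_upwards [hN.eq f, noatom hφ f hf] with s h1 h2
    rw [h1]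
    by_cases h3 : z - φ s = 0
    · rw [h2 (sub_eq_zero.1 h3).symm]
      simp
    · field_simp
      ring
  rw [e1, integral_sub i1 i2, integral_const_mul]
  congr 1
  rw [L2.inner_def]
  refine integral_congr_ae (Eventually.of_forall fun s => ?_)
  show _ = ⟪g s, f s⟫_ℂ
  rw [RCLike.inner_apply, mul_comm]

/-- the transform of the adjoint operator -/
theorem ct_adj {φ : S → ℂ} {N K : Lp ℂ 2 μ →L[ℂ] Lp ℂ 2 μ} (hN : IsMul φ N)
    {u v : ℕ → Lp ℂ 2 μ} (hK : Repr K u v) {z : ℂ} {x : Lp ℂ 2 μ} (hu : ∑' j, ea φ (u j) z ≠ ⊤)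
    (hv : ∑' j, ea φ (v j) z ≠ ⊤) (hx : ea φ x z ≠ ⊤) (hNx : ea φ (adjoint N x) z ≠ ⊤)
    (hKx : ea φ (adjoint K x) z ≠ ⊤) (j : ℕ) :
    ct φ (adjoint (N + K) x) (u j) z = z * ct φ x (u j) z - ⟪x, u j⟫_ℂ +
      ∑' i, ⟪x, u i⟫_ℂ * Fm φ u v z i j := by
  have hN' := Pool.Agent.Y77.NK.isMul_adj hN
  have hK' := Pool.Agent.Y77.NK.repr_adj hK
  have huj : ea φ (u j) z ≠ ⊤ := ENNReal.ne_top_of_tsum_ne_top hu j
  have c1 : ∀ g f : Lp ℂ 2 μ, ct φ g f z = conj (ct (fun s => conj (φ s)) f g (conj z)) := by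
    intro g f
    rw [Pool.Agent.Y77.NK.ct_conj, Complex.conj_conj]
  have h1 : ct (fun s => conj (φ s)) (u j) (adjoint N x) (conj z) =
      conj z * ct (fun s => conj (φ s)) (u j) x (conj z) - ⟪u j, x⟫_ℂ :=
    ct_mul hN' (by rw [ea_conj]; exact huj) (by rw [ea_conj]; exact hx)
  have hc : Summable fun i => ‖⟪u i, x⟫_ℂ‖ ^ 2 := by
    refine Summable.of_nonneg_of_le (fun _ => sq_nonneg _) (fun i => ?_)
      (hK.1.mul_right (‖x‖ ^ 2))
    rw [← mul_pow]
    exact pow_le_pow_left₀ (norm_nonneg _) (norm_inner_le_norm _ _) 2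
  have h2 := (ct_series (φ := fun s => conj (φ s)) hN'.meas (z := conj z) (x := u j)
    (by rw [ea_conj]; exact huj) _ v _ (hK'.2.2 x) hc (by simpa only [ea_conj] using hv)).2
  have h3 : adjoint (N + K) x = adjoint N x + adjoint K x := by
    rw [map_add, add_apply]
  rw [c1, h3, ct_add (φ := fun s => conj (φ s)) hN'.meas (by rw [ea_conj]; exact huj)
    (by rw [ea_conj]; exact hNx) (by rw [ea_conj]; exact hKx), h1, ← h2.tsum_eq, map_add, map_sub,
    map_mul, Complex.conj_conj, ← c1, Complex.conj_tsum]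
  congr 1
  · congr 1
    exact inner_conj_symm _ _
  · refine tsum_congr fun i => ?_
    rw [map_mul, inner_conj_symm, ← c1]
    rfl

theorem evl (h1 : S_L2B) (h2 : S_HSB) : S_EVL := by
  intro S _ μ _ φ N K hN u v hK x
  have hφ := hN.meas
  filter_upwards [ae_seq hφ hK.1, ae_seq hφ hK.2.1, ae_vec hφ x, ae_vec hφ (adjoint N x),
    ae_vec hφ (adjoint K x), (h2.1 S μ φ hφ u v hK.1 hK.2.1).2.1,
    (h2.2.1 S μ φ hφ u hK.1 x).1] with z g1 g2 g3 g4 g5 g6 g7
  intro c hc hF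
  have hd : Sq fun j => ⟪x, u j⟫_ℂ := by
    refine Summable.of_nonneg_of_le (fun _ => sq_nonneg _) (fun i => ?_)
      (hK.1.mul_left (‖x‖ ^ 2))
    rw [← mul_pow]
    exact pow_le_pow_left₀ (norm_nonneg _) (norm_inner_le_norm _ _) 2
  have e1 : ∑' j, ct φ (adjoint (N + K) x) (u j) z * c j =
      ∑' j, ((z * (ct φ x (u j) z * c j) - ⟪x, u j⟫_ℂ * c j) +
        (∑' i, ⟪x, u i⟫_ℂ * Fm φ u v z i j) * c j) := by
    refine tsum_congr fun j => ?_
    rw [ct_adj hN hK g1 g2 g3 g4 g5 j]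
    ring
  have s1 : Summable fun j => z * (ct φ x (u j) z * c j) :=
    (Pool.Agent.Q16.TR.L2B.summ g7.1 hc).mul_left z
  have s2 : Summable fun j => ⟪x, u j⟫_ℂ * c j := Pool.Agent.Q16.TR.L2B.summ hd hc
  have s3 : Summable fun j => (∑' i, ⟪x, u i⟫_ℂ * Fm φ u v z i j) * c j :=
    Pool.Agent.Q16.TR.L2B.summ (Pool.Agent.Q16.TR.L2B.sq_left hd g6) hc
  rw [e1, (s1.sub s2).tsum_add s3, s1.tsum_sub s2, Pool.Agent.Q16.TR.L2B.exch hd g6 hc,
    tsum_mul_left]
  have e2 : ∑' l, ⟪x, u l⟫_ℂ * act (Fm φ u v z) c l = ∑' j, ⟪x, u j⟫_ℂ * c j := by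
    refine tsum_congr fun j => ?_
    rw [← hF j]
  rw [e2]
  ring

end Pool.Agent.H50.SM.EVL
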