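import Pool.Graph.R_pool_sql_team_seeded_3997aac3.Q130.TC.Ops
import Pool.Agent.H50.SM.Stm

/-!
# Project SM, module FIN: the theorem on a separable Hilbert space
-/

set_option autoImplicit false

namespace Pool.Agent.H50.SM.FIN

open MeasureTheory Set Metric Filter Topology
open scoped InnerProductSpace ENNReal NNReal ComplexConjugate
open Pool.Agent.Y283.NK (ct IsMul Repr cj)
open Pool.Agent.Q130.TC (hTRC)
open ContinuousLinearMap (adjoint)

theorem fin (h : S_MOD) : S_FIN := by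
  intro H _ _ _ _ N K P hN u v hK hP hPT hd
  obtain ⟨S, _, μ, _, φ, W, hMul, -⟩ := Pool.Agent.Y271.RO.exists_model H N hN
  obtain ⟨-, -, -, hKW⟩ := hTRC _ K u v hK
  have hKM : Repr (cj W K) (fun j => W.symm (u j)) (fun j => W.symm (v j)) :=
    hKW (Lp ℂ 2 μ) W (cj W K) (fun f => Pool.Agent.Y283.NK.W_cj W K f)
  have hcj : ∀ (A : H →L[ℂ] H) (f : Lp ℂ 2 μ), cj W A f = W.symm (A (W f)) := fun A f =>
    Pool.Agent.Y283.NK.cj_apply W A f
  have hPP : ∀ x, P (P x) = P x := fun x => congrArg (fun A : H →L[ℂ] H => A x) hP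
  have hPTx : ∀ x, P ((N + K) x) = (N + K) (P x) := fun x =>
    congrArg (fun A : H →L[ℂ] H => A x) hPT
  have hadd : cj W N + cj W K = cj W (N + K) := by
    ext1 f
    show cj W N f + cj W K f = cj W (N + K) f
    rw [hcj, hcj, hcj, ← map_add]
    rfl
  have h1 : cj W P * cj W P = cj W P := by
    ext1 f
    show cj W P (cj W P f) = cj W P f
    rw [hcj, hcj, LinearIsometryEquiv.apply_symm_apply, hPP]
  have h2 : cj W P * (cj W N + cj W K) = (cj W N + cj W K) * cj W P := by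
    rw [hadd]
    ext1 f
    show cj W P (cj W (N + K) f) = cj W (N + K) (cj W P f)
    rw [hcj, hcj, hcj, hcj, LinearIsometryEquiv.apply_symm_apply,
      LinearIsometryEquiv.apply_symm_apply, hPTx]
  have h3 : Dim2 (cj W P) := by
    intro x
    obtain ⟨y, hy, hy0⟩ := hd (W x)
    refine ⟨W.symm y, ?_, fun t ht => hy0 t ?_⟩
    · rw [hcj, LinearIsometryEquiv.apply_symm_apply, hy]
    · have := congrArg W ht
      rwa [LinearIsometryEquiv.apply_symm_apply, map_smul] at this
  obtain ⟨V, g1, g2, g3, ⟨x, hx, hxV⟩, g5⟩ := h S μ φ _ _ hMul _ _ hKM (cj W P) h1 h2 h3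
  rw [hadd] at g5
  have hmem : ∀ y : H, y ∈ V.comap (W.symm.toLinearEquiv : H →ₗ[ℂ] Lp ℂ 2 μ) ↔ W.symm y ∈ V :=
    fun y => Iff.rfl
  refine ⟨V.comap (W.symm.toLinearEquiv : H →ₗ[ℂ] Lp ℂ 2 μ), g1.preimage W.symm.continuous, ?_,
    ?_, ⟨W x, ?_, ?_⟩, ?_⟩
  · intro h0
    apply g2
    rw [eq_bot_iff]
    intro f hf
    have h4 : W f ∈ V.comap (W.symm.toLinearEquiv : H →ₗ[ℂ] Lp ℂ 2 μ) := by
      rw [hmem, LinearIsometryEquiv.symm_apply_apply]
      exact hf
    rw [h0, Submodule.mem_bot] at h4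
    rw [Submodule.mem_bot]
    exact (map_eq_zero_iff W W.injective).1 h4
  · intro y hy
    have h4 := g3 _ ((hmem y).1 hy)
    rw [hcj, LinearIsometryEquiv.apply_symm_apply] at h4
    exact W.symm.injective h4
  · rw [hcj] at hx
    have := congrArg W hx
    rwa [LinearIsometryEquiv.apply_symm_apply] at this
  · intro h4
    rw [hmem, LinearIsometryEquiv.symm_apply_apply] at h4
    exact hxV h4
  · intro y hy
    rw [hmem] at hy ⊢
    have h4 := g5 _ hy
    rw [hcj, LinearIsometryEquiv.apply_symm_apply] at h4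
    exact h4

end Pool.Agent.H50.SM.FIN
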