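import Pool.Graph.R_pool_sql_team_seeded_3997aac3.Q130.TC.Ops
import Pool.Agent.H50.SM.Stm2

/-!
# Project SM, module FNH: the hyperinvariant form on a separable Hilbert space
-/

set_option autoImplicit false

namespace Pool.Agent.H50.SM.FNH

open MeasureTheory Set Metric Filter Topology
open scoped InnerProductSpace ENNReal NNReal ComplexConjugate
open Pool.Agent.Y283.NK (ct IsMul Repr cj)
open Pool.Agent.Q130.TC (hTRC)
open ContinuousLinearMap (adjoint)

theorem fnh (h : S_MDH) : S_FNH := by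
  intro H _ _ _ _ N K P hN u v hK hP hPT hB
  obtain ⟨S, _, μ, _, φ, W, hMul, -⟩ := Pool.Agent.Y271.RO.exists_model H N hN
  obtain ⟨-, -, -, hKW⟩ := hTRC _ K u v hK
  have hKM : Repr (cj W K) (fun j => W.symm (u j)) (fun j => W.symm (v j)) :=
    hKW (Lp ℂ 2 μ) W (cj W K) (fun f => Pool.Agent.Y283.NK.W_cj W K f)
  have hcj : ∀ (A : H →L[ℂ] H) (f : Lp ℂ 2 μ), cj W A f = W.symm (A (W f)) := fun A f =>
    Pool.Agent.Y283.NK.cj_apply W A f
  have hPP : ∀ x, P (P x) = P x := fun x => congrArg (fun A : H →L[ℂ] H => A x) hP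
  have hPTx : ∀ x, P ((N + K) x) = (N + K) (P x) := fun x =>
    congrArg (fun A : H →L[ℂ] H => A x) hPT
  have hadd : cj W N + cj W K = cj W (N + K) := by
    ext1 f
    show cj W N f + cj W K f = cj W (N + K) f
    rw [hcj, hcj, hcj, ← map_add]
    rfl
  have h1 : cj W P * cj W P = cj W P := by
    ext1 f
    show cj W P (cj W P f) = cj W P f
    rw [hcj, hcj, LinearIsometryEquiv.apply_symm_apply, hPP]
  have h2 : cj W P * (cj W N + cj W K) = (cj W N + cj W K) * cj W P := by
    rw [hadd]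
    ext1 f
    show cj W P (cj W (N + K) f) = cj W (N + K) (cj W P f)
    rw [hcj, hcj, hcj, hcj, LinearIsometryEquiv.apply_symm_apply,
      LinearIsometryEquiv.apply_symm_apply, hPTx]
  have h3 : ∀ᵐ z : ℂ, BijP (cj W N + cj W K) (cj W P) z := by
    rw [hadd]
    filter_upwards [hB] with z hz
    refine ⟨fun f => ?_, fun f hf1 hf2 => ?_⟩
    · obtain ⟨w, hw⟩ := hz.1 (W f)
      refine ⟨W.symm w, ?_⟩
      rw [hcj, hcj, hcj, LinearIsometryEquiv.apply_symm_apply,
        LinearIsometryEquiv.apply_symm_apply, hw, map_sub, map_smul]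
    · rw [hcj] at hf1 hf2
      have e1 := congrArg W hf1
      have e2 := congrArg W hf2
      rw [LinearIsometryEquiv.apply_symm_apply] at e1 e2
      rw [map_smul] at e2
      exact (map_eq_zero_iff W W.injective).1 (hz.2 (W f) e1 e2)
  rcases h S μ φ _ _ hMul _ _ hKM (cj W P) h1 h2 h3 with h4 | h4
  · left
    rw [hadd] at h4
    obtain ⟨c, hc⟩ := h4
    refine ⟨c, fun x hx => ?_⟩
    have h5 := hc (W.symm x) (by rw [hcj, LinearIsometryEquiv.apply_symm_apply, hx])
    rw [hcj, LinearIsometryEquiv.apply_symm_apply] at h5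
    have h6 := congrArg W h5
    rwa [LinearIsometryEquiv.apply_symm_apply, map_smul, LinearIsometryEquiv.apply_symm_apply]
      at h6
  right
  rw [hadd] at h4
  obtain ⟨V, g1, g2, g3, ⟨x, hx, hxV⟩, g5⟩ := h4
  have hmem : ∀ y : H, y ∈ V.comap (W.symm.toLinearEquiv : H →ₗ[ℂ] Lp ℂ 2 μ) ↔ W.symm y ∈ V :=
    fun y => Iff.rfl
  refine ⟨V.comap (W.symm.toLinearEquiv : H →ₗ[ℂ] Lp ℂ 2 μ), g1.preimage W.symm.continuous, ?_,
    ?_, ⟨W x, ?_, ?_⟩, ?_⟩
  · intro h0
    apply g2
    rw [eq_bot_iff]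
    intro f hf
    have h4 : W f ∈ V.comap (W.symm.toLinearEquiv : H →ₗ[ℂ] Lp ℂ 2 μ) := by
      rw [hmem, LinearIsometryEquiv.symm_apply_apply]
      exact hf
    rw [h0, Submodule.mem_bot] at h4
    rw [Submodule.mem_bot]
    exact (map_eq_zero_iff W W.injective).1 h4
  · intro y hy
    have h4 := g3 _ ((hmem y).1 hy)
    rw [hcj, LinearIsometryEquiv.apply_symm_apply] at h4
    exact W.symm.injective h4
  · rw [hcj] at hx
    have := congrArg W hx
    rwa [LinearIsometryEquiv.apply_symm_apply] at this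
  · intro h4
    rw [hmem, LinearIsometryEquiv.symm_apply_apply] at h4
    exact hxV h4
  · intro Q hQT hQP y hy
    rw [hmem] at hy ⊢
    have h4 := g5 (cj W Q) ?_ ?_ _ hy
    · rw [hcj, LinearIsometryEquiv.apply_symm_apply] at h4
      exact h4
    · ext1 f
      show cj W Q (cj W (N + K) f) = cj W (N + K) (cj W Q f)
      rw [hcj, hcj, hcj, hcj, LinearIsometryEquiv.apply_symm_apply,
        LinearIsometryEquiv.apply_symm_apply]
      congr 1
      exact congrArg (fun A : H →L[ℂ] H => A (W f)) hQT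
    · ext1 f
      show cj W Q (cj W P f) = cj W P (cj W Q f)
      rw [hcj, hcj, hcj, hcj, LinearIsometryEquiv.apply_symm_apply,
        LinearIsometryEquiv.apply_symm_apply]
      congr 1
      exact congrArg (fun A : H →L[ℂ] H => A (W f)) hQP

end Pool.Agent.H50.SM.FNH
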