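import Pool.Graph.R_seed8.W577.HI.G1
import Pool.Agent.H50.SM.Stm2

/-!
# Project SM, module LMH (helper40): scalar plus compact, the hyperinvariant form
-/

set_option autoImplicit false

namespace Pool.Agent.H50.SM.LMH

open Set Metric Filter Topology
open scoped InnerProductSpace ComplexConjugate

theorem lmh : S_LMH := by
  intro H _ _ _ T P hP hPT a hcomp
  have hPP : ∀ x, P (P x) = P x := fun x => congrArg (fun A : H →L[ℂ] H => A x) hP
  have hPTx : ∀ x, P (T x) = T (P x) := fun x => congrArg (fun A : H →L[ℂ] H => A x) hPT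
  let M : Submodule ℂ H := LinearMap.ker ((1 - P : H →L[ℂ] H) : H →ₗ[ℂ] H)
  have hM : ∀ x, x ∈ M ↔ P x = x := by
    intro x
    rw [LinearMap.mem_ker]
    show x - P x = 0 ↔ _
    rw [sub_eq_zero, eq_comm]
  have hMc : IsClosed (M : Set H) := (1 - P : H →L[ℂ] H).isClosed_ker
  have : CompleteSpace M := hMc.completeSpace_coe
  have hTM : ∀ x ∈ M, T x ∈ M := by
    intro x hx
    rw [hM] at hx ⊢
    rw [hPTx, hx]
  set T₁ : M →L[ℂ] M := T.restrict hTM with hT₁
  have hT₁x : ∀ x : M, ((T₁ x : M) : H) = T x := fun x => rfl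
  set K₁ : M →L[ℂ] M := T₁ - a • (1 : M →L[ℂ] M) with hK₁
  have hK₁x : ∀ x : M, ((K₁ x : M) : H) = ((T - a • (1 : H →L[ℂ] H)) * P) x := by
    intro x
    have h1 : ((T - a • (1 : H →L[ℂ] H)) * P) x = T (P x) - a • P x := rfl
    rw [h1, (hM x).1 x.2]
    rfl
  have hKc : IsCompactOperator (⇑K₁) := by
    have h1 : IsCompactOperator (fun x : M => ((T - a • (1 : H →L[ℂ] H)) * P) (x : H)) :=
      hcomp.comp_clm M.subtypeL
    have h2 : ∀ x : M, ((T - a • (1 : H →L[ℂ] H)) * P) (x : H) ∈ M := by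
      intro x
      rw [← hK₁x]
      exact (K₁ x).2
    have h3 := h1.codRestrict h2 hMc
    have h4 : (⇑K₁) = Set.codRestrict (fun x : M => ((T - a • (1 : H →L[ℂ] H)) * P) (x : H))
        (M : Set H) h2 := by
      funext x
      apply Subtype.ext
      exact hK₁x x
    rw [h4]
    exact h3
  by_cases hs : ∃ b : ℂ, K₁ = b • (1 : M →L[ℂ] M)
  · left
    obtain ⟨b, hb⟩ := hs
    refine ⟨b + a, fun x hx => ?_⟩
    have hxM : x ∈ M := (hM x).2 hx
    have h1 : K₁ ⟨x, hxM⟩ = b • (⟨x, hxM⟩ : M) := by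
      rw [hb]
      rfl
    have h2 : T₁ ⟨x, hxM⟩ - a • (⟨x, hxM⟩ : M) = b • (⟨x, hxM⟩ : M) := h1
    have h3 : T x - a • x = b • x := congrArg Subtype.val h2
    rw [add_smul, ← h3, sub_add_cancel]
  · right
    obtain ⟨V, hV, hV0, hV1, hVQ⟩ := Pool.Agent.W577.HI.G1.main M K₁ hKc hs
    refine ⟨V.map M.subtype, ?_, ?_, ?_, ?_, ?_⟩
    · have h1 : ((V.map M.subtype : Submodule ℂ H) : Set H) = Subtype.val '' (V : Set M) := by
        ext x
        simp
      rw [h1]
      exact (hMc.isClosedEmbedding_subtypeVal.isClosedMap) _ hV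
    · intro h1
      apply hV0
      rw [eq_bot_iff]
      intro x hx
      have h2 : M.subtype x ∈ V.map M.subtype := Submodule.mem_map_of_mem hx
      rw [h1, Submodule.mem_bot] at h2
      rw [Submodule.mem_bot]
      exact Subtype.ext h2
    · rintro x ⟨y, hy, rfl⟩
      exact (hM _).1 y.2
    · obtain ⟨x, hx⟩ : ∃ x : M, x ∉ V := by
        by_contra hall
        push Not at hall
        exact hV1 (eq_top_iff.2 fun x _ => hall x)
      refine ⟨x, (hM _).1 x.2, ?_⟩
      rintro ⟨y, hy, hyx⟩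
      have : y = x := Subtype.ext hyx
      exact hx (this ▸ hy)
    · intro Q hQT hQP
      have hQPx : ∀ x, Q (P x) = P (Q x) := fun x => congrArg (fun A : H →L[ℂ] H => A x) hQP
      have hQTx : ∀ x, Q (T x) = T (Q x) := fun x => congrArg (fun A : H →L[ℂ] H => A x) hQT
      have hQM : ∀ x ∈ M, Q x ∈ M := by
        intro x hx
        rw [hM] at hx ⊢
        rw [← hQPx, hx]
      rintro x ⟨y, hy, rfl⟩
      refine ⟨Q.restrict hQM y, hVQ (Q.restrict hQM) ?_ y hy, rfl⟩
      ext1 z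
      apply Subtype.ext
      show Q (T z - a • (z : H)) = T (Q z) - a • Q z
      rw [map_sub, map_smul, hQTx]

end Pool.Agent.H50.SM.LMH
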