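import Pool.Graph.R_seed8.H307R3.RO.Lom
import Pool.Agent.H50.SM.Stm

/-!
# Project SM, module LOM: scalar plus compact
-/

set_option autoImplicit false

namespace Pool.Agent.H50.SM.LOM

open Set Metric Filter Topology
open scoped InnerProductSpace ComplexConjugate

variable {H : Type} [NormedAddCommGroup H] [InnerProductSpace ℂ H]

/-- the line of an eigenvector -/
lemma line {T P : H →L[ℂ] H} (hd : Dim2 P) {y : H} (hy : P y = y) (hy0 : y ≠ 0) {c : ℂ}
    (h : T y = c • y) : NI T P := by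
  refine ⟨Submodule.span ℂ {y}, Submodule.closed_of_finiteDimensional _, ?_, ?_, ?_, ?_⟩
  · intro h0
    rw [Submodule.span_singleton_eq_bot] at h0
    exact hy0 h0
  · intro x hx
    obtain ⟨t, rfl⟩ := Submodule.mem_span_singleton.1 hx
    rw [map_smul, hy]
  · obtain ⟨z, hz, hz0⟩ := hd y
    refine ⟨z, hz, fun hx => ?_⟩
    obtain ⟨t, ht⟩ := Submodule.mem_span_singleton.1 hx
    exact hz0 t ht.symm
  · intro x hx
    obtain ⟨t, rfl⟩ := Submodule.mem_span_singleton.1 hx
    rw [map_smul, h]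
    exact Submodule.smul_mem _ _ (Submodule.smul_mem _ _ (Submodule.mem_span_singleton_self y))

theorem lom : S_LOM := by
  intro H _ _ _ T P hP hPT hd a hcomp
  have hPP : ∀ x, P (P x) = P x := fun x => congrArg (fun A : H →L[ℂ] H => A x) hP
  have hPTx : ∀ x, P (T x) = T (P x) := fun x => congrArg (fun A : H →L[ℂ] H => A x) hPT
  by_cases h0 : (T - a • (1 : H →L[ℂ] H)) * P = 0
  · obtain ⟨y, hy, hy0⟩ := hd 0
    have hy0' : y ≠ 0 := by
      intro h
      exact hy0 0 (by rw [h, zero_smul])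
    refine line hd hy hy0' (c := a) ?_
    have h1 := congrArg (fun A : H →L[ℂ] H => A y) h0
    have h2 : ((T - a • (1 : H →L[ℂ] H)) * P) y = T (P y) - a • P y := rfl
    simp only [h2, hy] at h1
    exact sub_eq_zero.1 h1
  by_contra hNI
  let M : Submodule ℂ H := LinearMap.ker ((1 - P : H →L[ℂ] H) : H →ₗ[ℂ] H)
  have hM : ∀ x, x ∈ M ↔ P x = x := by
    intro x
    rw [LinearMap.mem_ker]
    show x - P x = 0 ↔ _
    rw [sub_eq_zero, eq_comm]
  have hMc : IsClosed (M : Set H) := (1 - P : H →L[ℂ] H).isClosed_ker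
  have : CompleteSpace M := hMc.completeSpace_coe
  have hTM : ∀ x ∈ M, T x ∈ M := by
    intro x hx
    rw [hM] at hx ⊢
    rw [hPTx, hx]
  set T₁ : M →L[ℂ] M := T.restrict hTM with hT₁
  have hT₁x : ∀ x : M, ((T₁ x : M) : H) = T x := fun x => rfl
  set K₁ : M →L[ℂ] M := T₁ - a • (1 : M →L[ℂ] M) with hK₁
  have hK₁x : ∀ x : M, ((K₁ x : M) : H) = ((T - a • (1 : H →L[ℂ] H)) * P) x := by
    intro x
    have h1 : ((T - a • (1 : H →L[ℂ] H)) * P) x = T (P x) - a • P x := rfl
    rw [h1, (hM x).1 x.2]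
    rfl
  have hKc : IsCompactOperator (⇑K₁) := by
    have h1 : IsCompactOperator (fun x : M => ((T - a • (1 : H →L[ℂ] H)) * P) (x : H)) :=
      hcomp.comp_clm M.subtypeL
    have h2 : ∀ x : M, ((T - a • (1 : H →L[ℂ] H)) * P) (x : H) ∈ M := by
      intro x
      rw [← hK₁x]
      exact (K₁ x).2
    have h3 := h1.codRestrict h2 hMc
    have h4 : (⇑K₁) = Set.codRestrict (fun x : M => ((T - a • (1 : H →L[ℂ] H)) * P) (x : H))
        (M : Set H) h2 := by
      funext x
      apply Subtype.ext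
      exact hK₁x x
    rw [h4]
    exact h3
  have hK0 : K₁ ≠ 0 := by
    intro h1
    apply h0
    ext1 x
    have hPx : P x ∈ M := (hM _).2 (hPP x)
    have h2 := hK₁x ⟨P x, hPx⟩
    rw [h1] at h2
    have h3 : ((T - a • (1 : H →L[ℂ] H)) * P) (P x) = ((T - a • (1 : H →L[ℂ] H)) * P) x := by
      show T (P (P x)) - a • P (P x) = T (P x) - a • P x
      rw [hPP]
    have h4 : ((T - a • (1 : H →L[ℂ] H)) * P) (P x) = 0 := h2.symm
    rw [h3] at h4
    exact h4
  have hcomm : Commute T₁ K₁ := by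
    show T₁ * K₁ = K₁ * T₁
    ext1 x
    show T₁ (T₁ x - a • x) = T₁ (T₁ x) - a • T₁ x
    rw [map_sub, map_smul]
  obtain ⟨c, v, hv0, hv⟩ := H307R3.RO.lomonosov T₁ K₁ hKc hK0 hcomm (by
    intro V hV hVT
    by_contra hcon
    push Not at hcon
    obtain ⟨hV0, hV1⟩ := hcon
    apply hNI
    refine ⟨V.map M.subtype, ?_, ?_, ?_, ?_, ?_⟩
    · have h1 : ((V.map M.subtype : Submodule ℂ H) : Set H) = Subtype.val '' (V : Set M) := by
        ext x
        simp
      rw [h1]
      exact (hMc.isClosedEmbedding_subtypeVal.isClosedMap) _ hV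
    · intro h1
      apply hV0
      rw [eq_bot_iff]
      intro x hx
      have h2 : M.subtype x ∈ V.map M.subtype := Submodule.mem_map_of_mem hx
      rw [h1, Submodule.mem_bot] at h2
      rw [Submodule.mem_bot]
      exact Subtype.ext h2
    · rintro x ⟨y, hy, rfl⟩
      exact (hM _).1 y.2
    · obtain ⟨x, hx⟩ : ∃ x : M, x ∉ V := by
        by_contra hall
        push Not at hall
        exact hV1 (eq_top_iff.2 fun x _ => hall x)
      refine ⟨x, (hM _).1 x.2, ?_⟩
      rintro ⟨y, hy, hyx⟩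
      have : y = x := Subtype.ext hyx
      exact hx (this ▸ hy)
    · rintro x ⟨y, hy, rfl⟩
      exact ⟨T₁ y, hVT y hy, rfl⟩)
  refine hNI (line hd ((hM _).1 v.2) (fun h1 => hv0 (Subtype.ext h1)) (c := c) ?_)
  rw [← hT₁x, hv]
  rfl

end Pool.Agent.H50.SM.LOM
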