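import Pool.Agent.H50.SM.Stm

set_option autoImplicit false

namespace Pool.Agent.H50.SM.QNC

open MeasureTheory Set Metric Filter Topology
open scoped InnerProductSpace ComplexConjugate
open ContinuousLinearMap (adjoint)

section

variable {H : Type} [NormedAddCommGroup H] [InnerProductSpace ℂ H]

/-- `A` is Cauchy along `F` -/
def CA (F : Filter H) (A : H →L[ℂ] H) : Prop :=
  ∀ δ : ℝ, 0 < δ → ∃ s ∈ F, ∀ x ∈ s, ∀ y ∈ s, ‖A (x - y)‖ < δ

theorem ca_of_compact (A : H →L[ℂ] H) (hA : IsCompactOperator (⇑A)) (F : Ultrafilter H)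
    (hF : closedBall (0 : H) 1 ∈ F) : CA (F : Filter H) A := by
  intro δ hδ
  have hc : IsCompact (closure (A '' closedBall (0 : H) 1)) :=
    (isCompactOperator_iff_isCompact_closure_image_closedBall (A : H →ₗ[ℂ] H) one_pos).1 hA
  have hmem : closure (A '' closedBall (0 : H) 1) ∈ F.map A := by
    rw [Ultrafilter.mem_map]
    exact Filter.mem_of_superset hF fun x hx => subset_closure (mem_image_of_mem _ hx)
  obtain ⟨p, -, hp⟩ := hc.ultrafilter_le_nhds' (F.map A) hmem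
  refine ⟨A ⁻¹' ball p (δ / 2), ?_, ?_⟩
  · have h1 : ball p (δ / 2) ∈ 𝓝 p := ball_mem_nhds p (by positivity)
    have h2 := hp h1
    exact h2
  · intro x hx y hy
    rw [map_sub, ← dist_eq_norm]
    have h1 : dist (A x) p < δ / 2 := hx
    have h2 : dist (A y) p < δ / 2 := hy
    have h3 := dist_triangle_right (A x) (A y) p
    linarith

theorem compact_of_ca [CompleteSpace H] (A : H →L[ℂ] H)
    (hA : ∀ F : Ultrafilter H, closedBall (0 : H) 1 ∈ F → CA (F : Filter H) A) :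
    IsCompactOperator (⇑A) := by
  refine (isCompactOperator_iff_isCompact_closure_image_closedBall (A : H →ₗ[ℂ] H) one_pos).2 ?_
  refine TotallyBounded.isCompact_of_isClosed (TotallyBounded.closure ?_) isClosed_closure
  rw [totallyBounded_iff_filter]
  intro f hf hle
  have hf1 : A '' closedBall (0 : H) 1 ∈ f := le_principal_iff.1 hle
  have := comap_inf_principal_neBot_of_image_mem hf hf1
  set F : Ultrafilter H := Ultrafilter.of (comap A f ⊓ 𝓟 (closedBall (0 : H) 1)) with hFdef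
  have hFle : (F : Filter H) ≤ comap A f ⊓ 𝓟 (closedBall (0 : H) 1) := Ultrafilter.of_le _
  refine ⟨map A F, ?_, ?_⟩
  · exact map_le_iff_le_comap.2 (hFle.trans inf_le_left)
  · have hFB : closedBall (0 : H) 1 ∈ F := le_principal_iff.1 (hFle.trans inf_le_right)
    rw [Metric.cauchy_iff]
    refine ⟨inferInstance, fun ε hε => ?_⟩
    obtain ⟨s, hs, hsA⟩ := hA F hFB ε hε
    refine ⟨A '' s, image_mem_map hs, ?_⟩
    rintro _ ⟨x, hx, rfl⟩ _ ⟨y, hy, rfl⟩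
    rw [dist_eq_norm, ← map_sub]
    exact hsA x hx y hy

/-- log-convexity -/
theorem logc [CompleteSpace H] (N : H →L[ℂ] H) (hN : IsStarNormal N) (x : H) (m : ℕ) :
    ‖N x‖ ^ (m + 1) ≤ ‖(N ^ (m + 1)) x‖ * ‖x‖ ^ m := by
  have hn := ContinuousLinearMap.isStarNormal_iff_norm_eq_adjoint.1 hN
  have hsucc : ∀ j, (N ^ (j + 1)) x = N ((N ^ j) x) := fun j => by
    rw [pow_succ']; rfl
  have hsq : ∀ j, ‖(N ^ (j + 1)) x‖ ^ 2 ≤ ‖(N ^ (j + 2)) x‖ * ‖(N ^ j) x‖ := by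
    intro j
    have h1 : (‖(N ^ (j + 1)) x‖ ^ 2 : ℝ) = ‖⟪adjoint N ((N ^ (j + 1)) x), (N ^ j) x⟫_ℂ‖ := by
      rw [ContinuousLinearMap.adjoint_inner_left, ← hsucc, inner_self_eq_norm_sq_to_K]
      simp
    rw [h1]
    refine (norm_inner_le_norm _ _).trans (le_of_eq ?_)
    rw [← hn, ← hsucc]
  have hstep : ∀ j, ‖N x‖ * ‖(N ^ j) x‖ ≤ ‖(N ^ (j + 1)) x‖ * ‖x‖ := by
    intro j
    induction j with
    | zero => simp
    | succ j ih =>
      by_cases h0 : ‖(N ^ j) x‖ = 0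
      · have : (N ^ (j + 1)) x = 0 := by
          rw [hsucc, norm_eq_zero.1 h0, map_zero]
        rw [this, norm_zero, mul_zero]
        positivity
      · have hpos : 0 < ‖(N ^ j) x‖ := lt_of_le_of_ne (norm_nonneg _) (Ne.symm h0)
        refine le_of_mul_le_mul_right ?_ hpos
        calc ‖N x‖ * ‖(N ^ (j + 1)) x‖ * ‖(N ^ j) x‖
            = (‖N x‖ * ‖(N ^ j) x‖) * ‖(N ^ (j + 1)) x‖ := by ring
          _ ≤ (‖(N ^ (j + 1)) x‖ * ‖x‖) * ‖(N ^ (j + 1)) x‖ :=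
              mul_le_mul_of_nonneg_right ih (norm_nonneg _)
          _ = ‖(N ^ (j + 1)) x‖ ^ 2 * ‖x‖ := by ring
          _ ≤ (‖(N ^ (j + 2)) x‖ * ‖(N ^ j) x‖) * ‖x‖ :=
              mul_le_mul_of_nonneg_right (hsq j) (norm_nonneg _)
          _ = ‖(N ^ (j + 1 + 1)) x‖ * ‖x‖ * ‖(N ^ j) x‖ := by ring
  induction m with
  | zero => simp
  | succ m ih =>
    calc ‖N x‖ ^ (m + 1 + 1) = ‖N x‖ * ‖N x‖ ^ (m + 1) := by ring
      _ ≤ ‖N x‖ * (‖(N ^ (m + 1)) x‖ * ‖x‖ ^ m) :=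
          mul_le_mul_of_nonneg_left ih (norm_nonneg _)
      _ = (‖N x‖ * ‖(N ^ (m + 1)) x‖) * ‖x‖ ^ m := by ring
      _ ≤ (‖(N ^ (m + 1 + 1)) x‖ * ‖x‖) * ‖x‖ ^ m :=
          mul_le_mul_of_nonneg_right (hstep (m + 1)) (by positivity)
      _ = _ := by ring

theorem pow_diff (N K : H →L[ℂ] H) (hK : IsCompactOperator (⇑K)) (m : ℕ) :
    IsCompactOperator (⇑((N + K) ^ m - N ^ m)) := by
  induction m with
  | zero =>
    have : (N + K) ^ 0 - N ^ 0 = (0 : H →L[ℂ] H) := by simp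
    rw [this]
    exact isCompactOperator_zero
  | succ m ih =>
    have : (N + K) ^ (m + 1) - N ^ (m + 1) =
        (N + K) * ((N + K) ^ m - N ^ m) + K * N ^ m := by
      rw [pow_succ', pow_succ']; noncomm_ring
    rw [this]
    have h1 : IsCompactOperator (⇑((N + K) * ((N + K) ^ m - N ^ m))) := ih.clm_comp (N + K)
    have h2 : IsCompactOperator (⇑(K * N ^ m)) := hK.comp_clm (N ^ m)
    exact h1.add h2

theorem main [CompleteSpace H] (N K P : H →L[ℂ] H) (hN : IsStarNormal N)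
    (hK : IsCompactOperator (⇑K))
    (hq : ∀ ε : ℝ, 0 < ε → ∃ C : ℝ, ∀ n : ℕ, ‖(N + K) ^ n * P‖ ≤ C * ε ^ n) :
    IsCompactOperator (⇑((N + K) * P)) := by
  refine compact_of_ca _ fun F hF => ?_
  intro δ hδ
  set R : ℝ := 2 * ‖P‖ + 1 with hR
  have hR1 : 1 ≤ R := by rw [hR]; linarith [norm_nonneg P]
  have hR0 : 0 < R := by linarith
  obtain ⟨C, hC⟩ := hq (δ / (4 * R)) (by positivity)
  have hC0 : 0 ≤ C := by
    have := (norm_nonneg _).trans (hC 0)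
    simpa using this
  obtain ⟨m, hm⟩ := exists_pow_lt_of_lt_one (show (0:ℝ) < 1 / (4 * (C + 1)) by positivity)
    (show (1 / 2 : ℝ) < 1 by norm_num)
  have hm1 : 2 * C * (1 / 2 : ℝ) ^ (m + 1) ≤ 1 / 2 := by
    have h1 : (1 / 2 : ℝ) ^ (m + 1) ≤ (1 / 2) ^ m := by
      rw [pow_succ]
      have : (0:ℝ) ≤ (1 / 2) ^ m := by positivity
      linarith
    have h2 : (1 / 2 : ℝ) ^ (m + 1) ≤ 1 / (4 * (C + 1)) := h1.trans hm.le
    calc 2 * C * (1 / 2 : ℝ) ^ (m + 1) ≤ 2 * C * (1 / (4 * (C + 1))) :=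
          mul_le_mul_of_nonneg_left h2 (by positivity)
      _ ≤ 1 / 2 := by
          rw [mul_one_div, div_le_iff₀ (by positivity)]
          linarith
  have c1 : CA (F : Filter H) (((N + K) ^ (m + 1) - N ^ (m + 1)) * P) :=
    ca_of_compact _ ((pow_diff N K hK (m + 1)).comp_clm P) F hF
  have c2 : CA (F : Filter H) (K * P) := ca_of_compact _ (hK.comp_clm P) F hF
  set δ' : ℝ := 1 / 2 * (δ / (2 * R)) ^ (m + 1) with hδ'
  obtain ⟨s1, hs1, g1⟩ := c1 δ' (by positivity)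
  obtain ⟨s2, hs2, g2⟩ := c2 (δ / 2) (by positivity)
  refine ⟨s1 ∩ s2 ∩ closedBall 0 1, Filter.inter_mem (Filter.inter_mem hs1 hs2) hF, ?_⟩
  intro x hx y hy
  have hxn : ‖x‖ ≤ 1 := by simpa using hx.2
  have hyn : ‖y‖ ≤ 1 := by simpa using hy.2
  have hxy : ‖x - y‖ ≤ 2 := (norm_sub_le _ _).trans (by linarith)
  set w : H := P (x - y) with hw
  have hwR : ‖w‖ ≤ R := by
    calc ‖w‖ ≤ ‖P‖ * ‖x - y‖ := P.le_opNorm _
      _ ≤ ‖P‖ * 2 := mul_le_mul_of_nonneg_left hxy (norm_nonneg _)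
      _ ≤ R := by rw [hR]; linarith
  have e1 : ‖((N + K) ^ (m + 1) - N ^ (m + 1)) w‖ < δ' := g1 x hx.1.1 y hy.1.1
  have e2 : ‖K w‖ < δ / 2 := g2 x hx.1.2 y hy.1.2
  have e3 : ‖((N + K) ^ (m + 1)) w‖ ≤ C * (δ / (4 * R)) ^ (m + 1) * 2 := by
    have h1 : ((N + K) ^ (m + 1)) w = ((N + K) ^ (m + 1) * P) (x - y) := rfl
    rw [h1]
    refine (ContinuousLinearMap.le_opNorm _ _).trans ?_
    exact mul_le_mul (hC _) hxy (norm_nonneg _) ((norm_nonneg _).trans (hC _))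
  have e4 : ‖(N ^ (m + 1)) w‖ ≤ C * (δ / (4 * R)) ^ (m + 1) * 2 + δ' := by
    have h1 : (N ^ (m + 1)) w = ((N + K) ^ (m + 1)) w -
        ((N + K) ^ (m + 1) - N ^ (m + 1)) w := by
      rw [sub_apply]; abel
    rw [h1]
    exact (norm_sub_le _ _).trans (add_le_add e3 e1.le)
  have e5 : ‖N w‖ ^ (m + 1) ≤ (δ / 2) ^ (m + 1) := by
    calc ‖N w‖ ^ (m + 1) ≤ ‖(N ^ (m + 1)) w‖ * ‖w‖ ^ m := logc N hN w m
      _ ≤ (C * (δ / (4 * R)) ^ (m + 1) * 2 + δ') * R ^ (m + 1) := by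
          refine mul_le_mul e4 ?_ (by positivity) (by positivity)
          calc ‖w‖ ^ m ≤ R ^ m := pow_le_pow_left₀ (norm_nonneg _) hwR m
            _ ≤ R ^ (m + 1) := pow_le_pow_right₀ hR1 (Nat.le_succ m)
      _ = 2 * C * (1 / 2 : ℝ) ^ (m + 1) * (δ / 2) ^ (m + 1) +
            1 / 2 * (δ / 2) ^ (m + 1) := by
          have h1 : (δ / (4 * R)) ^ (m + 1) * R ^ (m + 1) =
              (1 / 2 : ℝ) ^ (m + 1) * (δ / 2) ^ (m + 1) := by
            rw [← mul_pow, ← mul_pow]; congr 1; field_simp; ring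
          have h2 : (δ / (2 * R)) ^ (m + 1) * R ^ (m + 1) = (δ / 2) ^ (m + 1) := by
            rw [← mul_pow]; congr 1; field_simp
          rw [hδ']
          linear_combination (2 * C) * h1 + (1 / 2) * h2
      _ ≤ 1 / 2 * (δ / 2) ^ (m + 1) + 1 / 2 * (δ / 2) ^ (m + 1) := by
          gcongr
      _ = _ := by ring
  have e6 : ‖N w‖ ≤ δ / 2 := le_of_pow_le_pow_left₀ (Nat.succ_ne_zero m) (by positivity) e5
  show ‖(N + K) w‖ < δ
  rw [add_apply]
  exact (norm_add_le _ _).trans_lt (by linarith)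

end

theorem qnc : S_QNC := by
  intro H _ _ _ N K P hN hK hP hT a hq
  have e : N + K - a • (1 : H →L[ℂ] H) = (N - a • (1 : H →L[ℂ] H)) + K := by abel
  rw [e] at hq ⊢
  refine main _ K P ?_ hK hq
  refine ⟨?_⟩
  rw [star_sub, star_smul, star_one]
  exact Commute.sub_left (Commute.sub_right hN.star_comm_self
    ((Commute.one_right _).smul_right a)) ((Commute.one_left _).smul_left _)

end Pool.Agent.H50.SM.QNC

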