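import Pool.Agent.H50.SM.Stm

set_option autoImplicit false

namespace Pool.Agent.H50.SM.DUB

open MeasureTheory Set Metric Filter Topology
open scoped InnerProductSpace ComplexConjugate
open ContinuousLinearMap (adjoint)

/-- the operator `(T - b) P + (1 - P)` -/
noncomputable def E {H : Type} [NormedAddCommGroup H] [InnerProductSpace ℂ H]
    (T P : H →L[ℂ] H) (b : ℂ) : H →L[ℂ] H :=
  (T - b • (1 : H →L[ℂ] H)) * P + (1 - P)

theorem E_apply {H : Type} [NormedAddCommGroup H] [InnerProductSpace ℂ H]
    (T P : H →L[ℂ] H) (b : ℂ) (x : H) :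
    E T P b x = T (P x) - b • P x + (x - P x) := by
  simp [E]

theorem bij_of {H : Type} [NormedAddCommGroup H] [InnerProductSpace ℂ H]
    (T P : H →L[ℂ] H) (hP : P * P = P) (hT : P * T = T * P) (b : ℂ) (h : BijP T P b) :
    Function.Bijective (E T P b) := by
  have hPP : ∀ x, P (P x) = P x := fun x => by
    have := congrArg (fun A : H →L[ℂ] H => A x) hP
    simpa using this
  have hPT : ∀ x, P (T x) = T (P x) := fun x => by
    have := congrArg (fun A : H →L[ℂ] H => A x) hT
    simpa using this
  constructor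
  · rw [injective_iff_map_eq_zero]
    intro x hx
    rw [E_apply] at hx
    have h1 : T (P x) - b • P x = 0 := by
      have := congrArg P hx
      simpa [map_add, map_sub, hPP, hPT] using this
    have h2 : P x = 0 := h.2 (P x) (hPP x) (sub_eq_zero.1 h1)
    rw [h2] at hx
    simpa using hx
  · intro y
    obtain ⟨w, hw⟩ := h.1 y
    refine ⟨P w + (y - P y), ?_⟩
    rw [E_apply]
    have h3 : P (P w + (y - P y)) = P w := by
      simp [map_add, map_sub, hPP]
    rw [h3, ← hw]
    abel

theorem of_bij {H : Type} [NormedAddCommGroup H] [InnerProductSpace ℂ H]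
    (T P : H →L[ℂ] H) (hP : P * P = P) (hT : P * T = T * P) (b : ℂ)
    (h : Function.Bijective (E T P b)) : BijP T P b := by
  have hPP : ∀ x, P (P x) = P x := fun x => by
    have := congrArg (fun A : H →L[ℂ] H => A x) hP
    simpa using this
  have hPT : ∀ x, P (T x) = T (P x) := fun x => by
    have := congrArg (fun A : H →L[ℂ] H => A x) hT
    simpa using this
  constructor
  · intro x
    obtain ⟨w, hw⟩ := h.2 (P x)
    refine ⟨w, ?_⟩
    rw [E_apply] at hw
    have := congrArg P hw
    simpa [map_add, map_sub, hPP, hPT] using this.symm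
  · intro y hy hTy
    have h0 : E T P b y = 0 := by
      rw [E_apply, hy, hTy]; simp
    exact (injective_iff_map_eq_zero _).1 h.1 y h0

theorem adj_E {H : Type} [NormedAddCommGroup H] [InnerProductSpace ℂ H] [CompleteSpace H]
    (T P : H →L[ℂ] H) (hT : P * T = T * P) (b : ℂ) :
    adjoint (E (adjoint T) (adjoint P) (conj b)) = E T P b := by
  have h1 : ∀ A B : H →L[ℂ] H, adjoint (A * B) = adjoint B * adjoint A := fun A B =>
    star_mul A B
  have h2 : adjoint (1 : H →L[ℂ] H) = 1 := star_one _
  unfold E
  rw [map_add, map_sub, h1, map_sub, ContinuousLinearMap.adjoint_adjoint,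
    ContinuousLinearMap.adjoint_adjoint, h2]
  have h3 : adjoint ((conj b) • (1 : H →L[ℂ] H)) = b • (1 : H →L[ℂ] H) := by
    rw [LinearIsometryEquiv.map_smulₛₗ, h2]; simp
  rw [h3, mul_sub, sub_mul, hT]
  simp

theorem dub : S_DUB := by
  intro H _ _ _ T P hP hT b h
  have h1 : ∀ A B : H →L[ℂ] H, adjoint (A * B) = adjoint B * adjoint A := fun A B =>
    star_mul A B
  have hP' : adjoint P * adjoint P = adjoint P := by rw [← h1, hP]
  have hT' : adjoint P * adjoint T = adjoint T * adjoint P := by rw [← h1, ← h1, hT]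
  have hb := bij_of (adjoint T) (adjoint P) hP' hT' (conj b) h
  have hu : IsUnit (E (adjoint T) (adjoint P) (conj b)) :=
    ContinuousLinearMap.isUnit_iff_bijective.2 hb
  have hu' : IsUnit (E T P b) := by
    rw [← adj_E T P hT b]
    exact hu.star
  exact of_bij T P hP hT b (ContinuousLinearMap.isUnit_iff_bijective.1 hu')

end Pool.Agent.H50.SM.DUB

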