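import Pool.Agent.H50.SM.Stm2
import Pool.Agent.H50.SM.Dub

/-! # SM (helper50), module RSV: no chains of small radius at a point of the resolvent set -/

set_option autoImplicit false

namespace Pool.Agent.H50.SM.RSV

open MeasureTheory Set Metric Filter Topology
open scoped InnerProductSpace ComplexConjugate
open Pool.Agent.Y271.RO (IsChain)
open Pool.Agent.Q130.TR

theorem rsv : S_RSV := by
  intro H _ _ _ T P hP hT a hbij
  have hPP : ∀ x, P (P x) = P x := fun x => by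
    have := congrArg (fun A : H →L[ℂ] H => A x) hP
    simpa using this
  have hPT : ∀ x, P (T x) = T (P x) := fun x => by
    have := congrArg (fun A : H →L[ℂ] H => A x) hT
    simpa using this
  have hb := Pool.Agent.H50.SM.DUB.bij_of T P hP hT a hbij
  have hu : IsUnit (Pool.Agent.H50.SM.DUB.E T P a) := ContinuousLinearMap.isUnit_iff_bijective.2 hb
  obtain ⟨U, hU⟩ := hu
  set B : H →L[ℂ] H := (↑U⁻¹ : H →L[ℂ] H) with hB
  have hBE : ∀ x, B (Pool.Agent.H50.SM.DUB.E T P a x) = x := by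
    intro x
    have h1 : B * Pool.Agent.H50.SM.DUB.E T P a = 1 := by
      rw [← hU, hB]
      exact U.inv_mul
    have := congrArg (fun A : H →L[ℂ] H => A x) h1
    simpa using this
  set C : ℝ := ‖B‖ + 1 with hC
  have hC0 : 0 < C := by have := norm_nonneg B; linarith
  have hlow : ∀ y, P y = y → ‖y‖ ≤ C * ‖T y - a • y‖ := by
    intro y hy
    have h1 : Pool.Agent.H50.SM.DUB.E T P a y = T y - a • y := by
      rw [Pool.Agent.H50.SM.DUB.E_apply, hy]; simp
    have h2 : ‖y‖ ≤ ‖B‖ * ‖T y - a • y‖ := by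
      calc ‖y‖ = ‖B (Pool.Agent.H50.SM.DUB.E T P a y)‖ := by rw [hBE]
        _ ≤ ‖B‖ * ‖Pool.Agent.H50.SM.DUB.E T P a y‖ := B.le_opNorm _
        _ = _ := by rw [h1]
    have h3 : ‖B‖ * ‖T y - a • y‖ ≤ C * ‖T y - a • y‖ :=
      mul_le_mul_of_nonneg_right (by linarith) (norm_nonneg _)
    exact h2.trans h3
  refine ⟨1 / (2 * C), by positivity, ?_⟩
  rintro ⟨X, ⟨hX, C₀, hX0⟩, hne⟩
  apply hne
  have hstep : ∀ k, T (P (X k)) - a • P (X k) = P (X (k + 1)) := by
    intro k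
    rw [← hX k, map_sub, map_smul, hPT]
  have hpow : ∀ k, ‖P (X 0)‖ ≤ C ^ k * ‖P (X k)‖ := by
    intro k
    induction k with
    | zero => simp
    | succ k ih =>
      refine ih.trans ?_
      have h1 := hlow (P (X k)) (hPP _)
      rw [hstep] at h1
      calc C ^ k * ‖P (X k)‖ ≤ C ^ k * (C * ‖P (X (k + 1))‖) := mul_le_mul_of_nonneg_left h1 (by positivity)
        _ = _ := by ring
  have hle : ∀ k : ℕ, ‖P (X 0)‖ ≤ (‖P‖ * C₀) * (1 / 2) ^ k := by
    intro k
    have h1 : ‖P (X k)‖ ≤ ‖P‖ * (C₀ * (1 / (2 * C)) ^ k) :=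
      (P.le_opNorm _).trans (mul_le_mul_of_nonneg_left (hX0 k) (norm_nonneg _))
    calc ‖P (X 0)‖ ≤ C ^ k * ‖P (X k)‖ := hpow k
      _ ≤ C ^ k * (‖P‖ * (C₀ * (1 / (2 * C)) ^ k)) := mul_le_mul_of_nonneg_left h1 (by positivity)
      _ = (‖P‖ * C₀) * (C * (1 / (2 * C))) ^ k := by rw [mul_pow]; ring
      _ = _ := by
        congr 2
        field_simp
  have hlim : Filter.Tendsto (fun k : ℕ => (‖P‖ * C₀) * (1 / 2 : ℝ) ^ k) Filter.atTop (𝓝 0) := by
    have := (tendsto_pow_atTop_nhds_zero_of_lt_one (by norm_num : (0:ℝ) ≤ 1 / 2) (by norm_num)).const_mul (‖P‖ * C₀)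
    simpa using this
  have h0 : ‖P (X 0)‖ ≤ 0 := ge_of_tendsto' hlim hle
  exact norm_le_zero_iff.1 h0

end Pool.Agent.H50.SM.RSV
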