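import Mathlib
import Pool.Agent.H50.SM.Stm

/-!
# The spectrum of the restriction to the range of an idempotent (module SPC, written by helper40)
-/

set_option autoImplicit false
set_option linter.unusedSectionVars false

namespace Pool.Agent.H50.SM.SPC

open Filter Topology Pool.Agent.H50.SM
open scoped ENNReal NNReal

variable {H : Type} [NormedAddCommGroup H] [InnerProductSpace ℂ H] [CompleteSpace H]

/-- the range of the idempotent -/
def Mm (P : H →L[ℂ] H) : Submodule ℂ H where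
  carrier := {x | P x = x}
  add_mem' := fun {a b} ha hb => by
    simp only [Set.mem_ofPred_eq] at *
    rw [map_add, ha, hb]
  zero_mem' := by simp
  smul_mem' := fun c x hx => by
    simp only [Set.mem_ofPred_eq] at *
    rw [map_smul, hx]

theorem mem_Mm (P : H →L[ℂ] H) (x : H) : x ∈ Mm P ↔ P x = x := Iff.rfl

theorem closed_Mm (P : H →L[ℂ] H) : IsClosed (Mm P : Set H) :=
  isClosed_eq P.continuous continuous_id

/-- the restriction -/
noncomputable def T1 (T P : H →L[ℂ] H) (hTP : P * T = T * P) : Mm P →L[ℂ] Mm P :=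
  (T.comp (Mm P).subtypeL).codRestrict (Mm P) fun x => by
    have h1 := congrArg (fun A : H →L[ℂ] H => A (x : H)) hTP
    simp only [mul_apply_eq_comp] at h1
    rw [(mem_Mm P x).1 x.2] at h1
    exact h1

theorem T1_coe (T P : H →L[ℂ] H) (hTP : P * T = T * P) (x : Mm P) :
    ((T1 T P hTP x : Mm P) : H) = T (x : H) := rfl

theorem bij_unit (T P : H →L[ℂ] H) (hP : P * P = P) (hTP : P * T = T * P) (a : ℂ)
    (h : BijP T P a) : a ∉ spectrum ℂ (T1 T P hTP) := by
  have : CompleteSpace (Mm P) := (closed_Mm P).completeSpace_coe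
  rw [spectrum.notMem_iff, ContinuousLinearMap.isUnit_iff_bijective]
  have hPP : ∀ x, P (P x) = P x := fun x => by
    have h1 := congrArg (fun A : H →L[ℂ] H => A x) hP
    simpa only [mul_apply_eq_comp] using h1
  have hev : ∀ x : Mm P, (((algebraMap ℂ (Mm P →L[ℂ] Mm P) a - T1 T P hTP) x : Mm P) : H) =
      a • (x : H) - T x := by
    intro x
    rw [sub_apply, Submodule.coe_sub, T1_coe, Algebra.algebraMap_eq_smul_one]
    simp
  constructor
  · rw [injective_iff_map_eq_zero]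
    intro x hx
    have h1 := hev x
    rw [hx, Submodule.coe_zero] at h1
    have h2 := h.2 (x : H) ((mem_Mm P x).1 x.2) (sub_eq_zero.1 h1.symm).symm
    exact Subtype.ext h2
  · intro y
    obtain ⟨W, hW⟩ := h.1 (y : H)
    rw [(mem_Mm P y).1 y.2] at hW
    refine ⟨-⟨P W, hPP W⟩, Subtype.ext ?_⟩
    rw [hev, hW]
    simp only [Submodule.coe_neg, smul_neg, map_neg]
    abel

theorem pow_coe (T P : H →L[ℂ] H) (hTP : P * T = T * P) (a : ℂ) (n : ℕ) (x : Mm P) :
    ((((T1 T P hTP - algebraMap ℂ (Mm P →L[ℂ] Mm P) a) ^ n) x : Mm P) : H) =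
      ((T - a • (1 : H →L[ℂ] H)) ^ n) (x : H) := by
  induction n generalizing x with
  | zero => simp
  | succ n ih =>
    rw [pow_succ, pow_succ, mul_apply_eq_comp, mul_apply_eq_comp, ih]
    congr 1

/-- real numbers -/
theorem aux (x ε : ℝ) (n : ℕ) (hn : 1 ≤ n) (hx : 0 ≤ x) (h : x ^ (1 / n : ℝ) < ε) : x ≤ ε ^ n := by
  have hn0 : (n : ℝ) ≠ 0 := by positivity
  have h7 : x = (x ^ (1 / n : ℝ)) ^ n := by
    rw [← Real.rpow_natCast, ← Real.rpow_mul hx, one_div, inv_mul_cancel₀ hn0, Real.rpow_one]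
  rw [h7]
  exact pow_le_pow_left₀ (Real.rpow_nonneg hx _) h.le n

theorem spc : S_SPC := by
  intro H _ _ _ T P hP hTP hP0
  have : CompleteSpace (Mm P) := (closed_Mm P).completeSpace_coe
  have hPP : ∀ x, P (P x) = P x := fun x => by
    have h1 := congrArg (fun A : H →L[ℂ] H => A x) hP
    simpa only [mul_apply_eq_comp] using h1
  obtain ⟨x0, hx0⟩ : ∃ x, P x ≠ 0 := by
    by_contra h
    push Not at h
    exact hP0 (ContinuousLinearMap.ext h)
  have : Nontrivial (Mm P) := ⟨⟨⟨P x0, hPP x0⟩, 0, fun h => hx0 (congrArg Subtype.val h)⟩⟩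
  set S := T1 T P hTP with hS
  by_cases h2 : ∃ a b : ℂ, a ≠ b ∧ a ∈ spectrum ℂ S ∧ b ∈ spectrum ℂ S
  · obtain ⟨a, b, hab, ha, hb⟩ := h2
    exact Or.inl ⟨a, b, hab, fun h => bij_unit T P hP hTP a h ha,
      fun h => bij_unit T P hP hTP b h hb⟩
  · right
    obtain ⟨a, ha⟩ := spectrum.nonempty (A := Mm P →L[ℂ] Mm P) S
    refine ⟨a, ?_⟩
    have hone : ∀ b ∈ spectrum ℂ S, b = a := by
      intro b hb
      by_contra hne
      exact h2 ⟨b, a, hne, hb, ha⟩
    set Q := S - algebraMap ℂ (Mm P →L[ℂ] Mm P) a with hQ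
    have hrad : spectralRadius ℂ Q = 0 := by
      unfold spectralRadius
      refine le_antisymm (iSup₂_le fun b hb => ?_) bot_le
      have hb2 : b + a ∈ spectrum ℂ S := by
        rw [spectrum.mem_iff] at hb ⊢
        intro hu
        apply hb
        have h3 : algebraMap ℂ (Mm P →L[ℂ] Mm P) b - Q =
            algebraMap ℂ (Mm P →L[ℂ] Mm P) (b + a) - S := by
          rw [hQ, map_add]
          abel
        rw [h3]
        exact hu
      have h4 : b = 0 := by
        have h5 := hone _ hb2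
        simpa using h5
      simp [h4]
    have hlim := spectrum.pow_norm_pow_one_div_tendsto_nhds_spectralRadius Q
    rw [hrad] at hlim
    intro ε hε
    have hev : ∀ᶠ n : ℕ in atTop, ENNReal.ofReal (‖Q ^ n‖ ^ (1 / n : ℝ)) < ENNReal.ofReal ε :=
      hlim.eventually_lt_const (ENNReal.ofReal_pos.2 hε)
    obtain ⟨N, hN⟩ := eventually_atTop.1 hev
    have hbig : ∀ n, N ≤ n → 1 ≤ n → ‖Q ^ n‖ ≤ ε ^ n := by
      intro n hn h1
      have h6 := (ENNReal.ofReal_lt_ofReal_iff hε).1 (hN n hn)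
      exact aux _ _ n h1 (ContinuousLinearMap.opNorm_nonneg _) h6
    have hC : ∃ C : ℝ, 0 ≤ C ∧ ∀ n, ‖Q ^ n‖ ≤ C * ε ^ n := by
      refine ⟨1 + ∑ k ∈ Finset.range (N + 1), ‖Q ^ k‖ / ε ^ k, by positivity, fun n => ?_⟩
      have hεn : 0 < ε ^ n := pow_pos hε n
      by_cases hn : n < N + 1
      · have h8 : ‖Q ^ n‖ / ε ^ n ≤ ∑ k ∈ Finset.range (N + 1), ‖Q ^ k‖ / ε ^ k :=
          Finset.single_le_sum (f := fun k => ‖Q ^ k‖ / ε ^ k) (fun k _ => by positivity)
            (Finset.mem_range.2 hn)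
        rw [← div_le_iff₀ hεn]
        linarith
      · have h9 : ‖Q ^ n‖ ≤ ε ^ n := hbig n (by omega) (by omega)
        have h10 : 0 ≤ ∑ k ∈ Finset.range (N + 1), ‖Q ^ k‖ / ε ^ k :=
          Finset.sum_nonneg fun k _ => by positivity
        nlinarith
    obtain ⟨C, hC0, hC⟩ := hC
    refine ⟨C * ‖P‖, fun n => ?_⟩
    refine ContinuousLinearMap.opNorm_le_bound _ (by positivity) fun x => ?_
    rw [mul_apply_eq_comp]
    have h11 := pow_coe T P hTP a n ⟨P x, hPP x⟩
    have h12 : ‖((T - a • (1 : H →L[ℂ] H)) ^ n) (P x)‖ ≤ ‖Q ^ n‖ * ‖P x‖ := by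
      have h13 := (Q ^ n).le_opNorm ⟨P x, hPP x⟩
      have h14 : ‖(Q ^ n) ⟨P x, hPP x⟩‖ = ‖((T - a • (1 : H →L[ℂ] H)) ^ n) (P x)‖ := by
        rw [← h11]
        rfl
      rw [h14] at h13
      exact h13
    calc ‖((T - a • (1 : H →L[ℂ] H)) ^ n) (P x)‖ ≤ ‖Q ^ n‖ * ‖P x‖ := h12
      _ ≤ (C * ε ^ n) * (‖P‖ * ‖x‖) :=
        mul_le_mul (hC n) (P.le_opNorm x) (norm_nonneg _) (by positivity)
      _ = C * ‖P‖ * ε ^ n * ‖x‖ := by ring

end Pool.Agent.H50.SM.SPC
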