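import Pool.Graph.R_pool_sql_team_seeded_3997aac3.Q76.TR.Pos
import Pool.Agent.H50.SM.Stm

/-!
# Project SM, module SYS0: the relations between the four matrices

Adapted from the library modules `Q130/TR/Sys2.lean` (helper130) and `Q76/TR/Pos.lean` (helper76).
-/

set_option autoImplicit false

namespace Pool.Agent.H50.SM.SYS0

open MeasureTheory Filter Topology
open scoped InnerProductSpace ENNReal NNReal ComplexConjugate
open Pool.Agent.Y283.NK (ct IsMul HasHyp Repr fr)
open Pool.Agent.Q130.TR Pool.Agent.Q130.TC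
open ContinuousLinearMap (adjoint)

variable {S : Type} [MeasurableSpace S] {μ : Measure S} {φ : S → ℂ} {u v : ℕ → Lp ℂ 2 μ}

lemma cok_iff (Q : Lp ℂ 2 μ →L[ℂ] Lp ℂ 2 μ) (z : ℂ) :
    CokP φ u v Q z ↔ KerP (fun s => conj (φ s)) v u (adjoint Q) (conj z) := by
  have h1 : (fun i j => conj (Fm φ u v z j i)) = Fm (fun s => conj (φ s)) v u (conj z) := by
    funext i j
    rw [Fm, Fm, Pool.Agent.Y77.NK.ct_conj]
  have h2 : (fun i j => conj (Fm φ (pu Q u) v z j i)) =
      Fm (fun s => conj (φ s)) v (pv (adjoint Q) u) (conj z) := by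
    funext i j
    rw [Fm, Fm, Pool.Agent.Y77.NK.ct_conj, pu, pv, ContinuousLinearMap.adjoint_adjoint]
  unfold CokP KerP
  rw [h1, h2]

lemma ker_iff (Q : Lp ℂ 2 μ →L[ℂ] Lp ℂ 2 μ) (z : ℂ) :
    KerP φ u v Q z ↔ CokP (fun s => conj (φ s)) v u (adjoint Q) (conj z) := by
  have h := cok_iff (φ := fun s => conj (φ s)) (u := v) (v := u) (adjoint Q) (conj z)
  rw [h, ContinuousLinearMap.adjoint_adjoint]
  simp only [Complex.conj_conj]

theorem summ_op (A : Lp ℂ 2 μ →L[ℂ] Lp ℂ 2 μ) {u : ℕ → Lp ℂ 2 μ}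
    (hu : Summable fun j => ‖u j‖ ^ 2) : Summable fun j => ‖A (u j)‖ ^ 2 := by
  refine Summable.of_nonneg_of_le (fun _ => by positivity) (fun j => ?_) (hu.mul_left (‖A‖ ^ 2))
  rw [← mul_pow]
  exact pow_le_pow_left₀ (norm_nonneg _) (A.le_opNorm _) 2

theorem sys0 (h1 : S_STAR) (h2 : S_HSB) : S_SYS0 := by
  refine ⟨?_, fun S _ μ _ φ u v P z => ⟨cok_iff P z, ker_iff P z⟩⟩
  intro S _ μ _ φ N K hN u v hK P hP hPT
  have hφ := hN.meas
  have hu := hK.1
  have hv := hK.2.1
  have hpu : Summable fun j => ‖pu P u j‖ ^ 2 := summ_op P hu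
  have hpv : Summable fun j => ‖pv P v j‖ ^ 2 := summ_op (adjoint P) hv
  have hstar := h1 S μ φ N K hN u v hK P hPT
  have hadj : ∀ x, adjoint P (adjoint P x) = adjoint P x := by
    intro x
    have h4 : adjoint P * adjoint P = adjoint P := by
      have h5 := congrArg (fun A => adjoint A) hP
      rw [← ContinuousLinearMap.star_eq_adjoint, star_mul, ContinuousLinearMap.star_eq_adjoint] at h5
      exact h5
    exact congrArg (fun A => A x) h4
  · have a1 := (h2.1 S μ φ hφ u v hu hv).2.1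
    have a2 := (h2.1 S μ φ hφ u (pv P v) hu hpv).2.1
    have a3 := (h2.1 S μ φ hφ (pu P u) v hpu hv).2.1
    have a4 := (h2.1 S μ φ hφ (pu P u) (pv P v) hpu hpv).2.1
    have b1 : ∀ᵐ z : ℂ, ∀ i j, Dl φ u v P (v i) (u j) z = 0 := by
      rw [ae_all_iff]; intro i
      rw [ae_all_iff]; intro j
      exact hstar _ _
    have b2 : ∀ᵐ z : ℂ, ∀ i j, Dl φ u v P (adjoint P (v i)) (u j) z = 0 := by
      rw [ae_all_iff]; intro i
      rw [ae_all_iff]; intro j
      exact hstar _ _
    have b3 : ∀ᵐ z : ℂ, ∀ i j, Dl φ u v P (v i) (P (u j)) z = 0 := by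
      rw [ae_all_iff]; intro i
      rw [ae_all_iff]; intro j
      exact hstar _ _
    have hPP : ∀ x, P (P x) = P x := fun x => congrArg (fun A : Lp ℂ 2 μ →L[ℂ] Lp ℂ 2 μ => A x) hP
    filter_upwards [a1, a2, a3, a4, b1, b2, b3] with z c1 c2 c3 c4 d1 d2 d3
    refine ⟨c1, c2, c3, c4, ?_, ?_, ?_⟩
    · intro i j
      have h := d1 i j
      unfold Dl at h
      have e : Fm φ u (pv P v) z i j - Fm φ (pu P u) v z i j =
          pm (Fm φ u v z) (Fm φ u (pv P v) z) i j - pm (Fm φ (pu P u) v z) (Fm φ u v z) i j := by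
        unfold pm Fm
        simp only [pv, pu] at h ⊢
        linear_combination h
      linear_combination e
    · intro i j
      have h := d2 i j
      unfold Dl at h
      rw [hadj] at h
      have e : Fm φ u (pv P v) z i j - Fm φ (pu P u) (pv P v) z i j =
          pm (Fm φ u (pv P v) z) (Fm φ u (pv P v) z) i j -
            pm (Fm φ (pu P u) (pv P v) z) (Fm φ u v z) i j := by
        unfold pm Fm
        simp only [pv, pu] at h ⊢
        linear_combination h
      linear_combination e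
    · intro i j
      have h := d3 i j
      unfold Dl at h
      rw [hPP] at h
      have e : Fm φ (pu P u) (pv P v) z i j - Fm φ (pu P u) v z i j =
          pm (Fm φ u v z) (Fm φ (pu P u) (pv P v) z) i j -
            pm (Fm φ (pu P u) v z) (Fm φ (pu P u) v z) i j := by
        unfold pm Fm
        simp only [pv, pu] at h ⊢
        linear_combination h
      linear_combination -e

end Pool.Agent.H50.SM.SYS0
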