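import Pool.Agent.H50.SM.Stm2

/-!
# Module TCA (helper82): trace class operators form an ideal
-/

set_option autoImplicit false

namespace Pool.Agent.H50.SM.TCA

open scoped InnerProductSpace ComplexConjugate
open Pool.Agent.Y283.NK (Repr)
open ContinuousLinearMap (adjoint)

/-- interleaving of two sequences -/
def il {α : Type} (u u' : ℕ → α) (n : ℕ) : α := if n % 2 = 0 then u (n / 2) else u' (n / 2)

lemma il_even {α : Type} (u u' : ℕ → α) (k : ℕ) : il u u' (2 * k) = u k := by
  unfold il
  rw [if_pos (by omega), show 2 * k / 2 = k by omega]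

lemma il_odd {α : Type} (u u' : ℕ → α) (k : ℕ) : il u u' (2 * k + 1) = u' k := by
  unfold il
  rw [if_neg (by omega), show (2 * k + 1) / 2 = k by omega]

lemma summable_il {H : Type} [NormedAddCommGroup H] {u u' : ℕ → H}
    (h : Summable fun j => ‖u j‖ ^ 2) (h' : Summable fun j => ‖u' j‖ ^ 2) :
    Summable fun j => ‖il u u' j‖ ^ 2 := by
  apply HasSum.summable (a := (∑' j, ‖u j‖ ^ 2) + ∑' j, ‖u' j‖ ^ 2)
  apply HasSum.even_add_odd
  · simpa only [il_even] using h.hasSum
  · simpa only [il_odd] using h'.hasSum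

theorem tca : S_TCA := by
  intro H _ _ _ K K' u v u' v' hK hK'
  refine ⟨fun A => ⟨?_, hK.2.1, ?_⟩, fun A => ⟨hK.1, ?_, ?_⟩, ⟨il u u', il v v',
    summable_il hK.1 hK'.1, summable_il hK.2.1 hK'.2.1, ?_⟩⟩
  · apply Summable.of_nonneg_of_le (fun j => by positivity) _ (hK.1.mul_left (‖A‖ ^ 2))
    intro j
    rw [← mul_pow]
    exact pow_le_pow_left₀ (norm_nonneg _) (A.le_opNorm _) 2
  · intro f
    have h := (hK.2.2 f).mapL A
    show HasSum (fun j => ⟪v j, f⟫_ℂ • A (u j)) (A (K f))
    simpa only [map_smul] using h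
  · apply Summable.of_nonneg_of_le (fun j => by positivity) _
      (hK.2.1.mul_left (‖adjoint A‖ ^ 2))
    intro j
    rw [← mul_pow]
    exact pow_le_pow_left₀ (norm_nonneg _) ((adjoint A).le_opNorm _) 2
  · intro f
    have h := hK.2.2 (A f)
    show HasSum (fun j => ⟪adjoint A (v j), f⟫_ℂ • u j) (K (A f))
    simpa only [ContinuousLinearMap.adjoint_inner_left] using h
  · intro f
    show HasSum _ (K f + K' f)
    apply HasSum.even_add_odd
    · simpa only [il_even] using hK.2.2 f
    · simpa only [il_odd] using hK'.2.2 f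

end Pool.Agent.H50.SM.TCA
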