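import Pool.Graph.R_pool_sql_team_seeded_3997aac3.Q130.TR.Alt
import Pool.Graph.R_pool_sql_team_seeded_3997aac3.Q76.TR.Pos
import Pool.Agent.H50.SM.Stm

/-!
# Project SM, module THM: Thomson's scheme
-/

set_option autoImplicit false

namespace Pool.Agent.H50.SM.THM

open MeasureTheory Set Metric Filter Topology
open scoped InnerProductSpace ENNReal NNReal ComplexConjugate
open Pool.Agent.H352R3.SA (Den)
open Pool.Agent.Y283.NK (ct IsMul Repr)
open Pool.Agent.Y271.RO (IsChain pw fd Cheap)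
open Pool.Agent.Q130.TC (WT Inj)
open Pool.Agent.Q130.TR
open ContinuousLinearMap (adjoint)

lemma summ_op {S : Type} [MeasurableSpace S] {μ : Measure S} (A : Lp ℂ 2 μ →L[ℂ] Lp ℂ 2 μ)
    {u : ℕ → Lp ℂ 2 μ} (hu : Summable fun j => ‖u j‖ ^ 2) :
    Summable fun j => ‖A (u j)‖ ^ 2 := by
  refine Summable.of_nonneg_of_le (fun _ => by positivity) (fun j => ?_) (hu.mul_left (‖A‖ ^ 2))
  rw [← mul_pow]
  exact pow_le_pow_left₀ (norm_nonneg _) (A.le_opNorm _) 2

/-- the integral over the complement of four small sets -/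
lemma four (l W : ℂ → ℝ) (hl : Integrable l) (hl0 : ∀ z, 0 ≤ l z) (hW : Measurable W)
    (hW0 : ∀ z, 0 ≤ W z ∧ W z ≤ 1) (b : Fin 4 → Set ℂ) (η : ℝ) (hη : 0 < η)
    (h : ∀ᵐ z, (∀ i, z ∉ b i) → η ≤ W z) (B : ℝ) (hb : ∀ i, ∫ z in b i, l z ≤ B) :
    η * ∫ z, l z ≤ (∫ z, W z * l z) + η * (4 * B) := by
  -- replace the sets by measurable ones
  have hWl : Integrable fun z => W z * l z := by
    refine Integrable.mono' hl (hW.aestronglyMeasurable.mul hl.aestronglyMeasurable)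
      (Eventually.of_forall fun z => ?_)
    rw [norm_mul, Real.norm_of_nonneg (hW0 z).1, Real.norm_of_nonneg (hl0 z)]
    exact mul_le_of_le_one_left (hl0 z) (hW0 z).2
  have hsum : ∀ᵐ z, η * l z ≤ W z * l z + ∑ i, η * (toMeasurable (volume.withDensity
      fun z => ENNReal.ofReal (l z)) (b i)).indicator l z := by
    filter_upwards [h] with z hz
    by_cases hb' : ∀ i, z ∉ b i
    · have h1 : 0 ≤ ∑ i, η * (toMeasurable (volume.withDensity
          fun z => ENNReal.ofReal (l z)) (b i)).indicator l z :=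
        Finset.sum_nonneg fun i _ => mul_nonneg hη.le (indicator_nonneg (fun _ _ => hl0 _) _)
      have h2 := mul_le_mul_of_nonneg_right (hz hb') (hl0 z)
      linarith
    · push Not at hb'
      obtain ⟨i, hi⟩ := hb'
      have h1 : η * l z ≤ ∑ i, η * (toMeasurable (volume.withDensity
          fun z => ENNReal.ofReal (l z)) (b i)).indicator l z := by
        refine le_trans ?_ (Finset.single_le_sum (f := fun i => η * (toMeasurable
          (volume.withDensity fun z => ENNReal.ofReal (l z)) (b i)).indicator l z)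
          (fun j _ => mul_nonneg hη.le (indicator_nonneg (fun _ _ => hl0 _) _))
          (Finset.mem_univ i))
        rw [indicator_of_mem (subset_toMeasurable _ _ hi)]
      have h2 := mul_nonneg (hW0 z).1 (hl0 z)
      linarith
  have hint : ∀ i, ∫ z, (toMeasurable (volume.withDensity
      fun z => ENNReal.ofReal (l z)) (b i)).indicator l z = ∫ z in b i, l z := by
    intro i
    rw [integral_indicator (measurableSet_toMeasurable _ _)]
    rw [integral_eq_lintegral_of_nonneg_ae (Eventually.of_forall hl0)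
      hl.aestronglyMeasurable.restrict,
      integral_eq_lintegral_of_nonneg_ae (Eventually.of_forall hl0)
      hl.aestronglyMeasurable.restrict]
    congr 1
    rw [← withDensity_apply' _ (toMeasurable _ _), ← withDensity_apply' _ (b i),
      measure_toMeasurable]
  calc η * ∫ z, l z = ∫ z, η * l z := (integral_const_mul _ _).symm
    _ ≤ ∫ z, (W z * l z + ∑ i, η * (toMeasurable (volume.withDensity
      fun z => ENNReal.ofReal (l z)) (b i)).indicator l z) := by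
        refine integral_mono_ae (hl.const_mul _) (hWl.add (integrable_finsetSum _ fun i _ =>
          (hl.indicator (measurableSet_toMeasurable _ _)).const_mul _)) hsum
    _ = (∫ z, W z * l z) + ∑ i, η * ∫ z in b i, l z := by
        rw [integral_add hWl (integrable_finsetSum _ fun i _ =>
          (hl.indicator (measurableSet_toMeasurable _ _)).const_mul _),
          integral_finsetSum _ fun i _ =>
          (hl.indicator (measurableSet_toMeasurable _ _)).const_mul _]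
        congr 1
        refine Finset.sum_congr rfl fun i _ => ?_
        rw [integral_const_mul, hint]
    _ ≤ _ := by
        have h1 : ∑ i, η * ∫ z in b i, l z ≤ ∑ _i : Fin 4, η * B :=
          Finset.sum_le_sum fun i _ => mul_le_mul_of_nonneg_left (hb i) hη.le
        have h2 : ∑ _i : Fin 4, η * B = η * (4 * B) := by
          rw [Finset.sum_const, Finset.card_univ, Fintype.card_fin]
          simp
          ring
        linarith

theorem thm (hSYS : S_SYS0) (hALG : S_ALG) (hAPX : S_APX) (hLNK : S_LNK2) (hWGT : S_WGT)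
    (hHVY : S_HVY) (hEVI : S_EVI) : S_THM := by
  intro S _ μ _ φ N K hN u v hK P hP hPT hdim
  by_contra hcon
  push Not at hcon
  obtain ⟨hNI, hnot⟩ := hcon
  have hu := hK.1
  have hv := hK.2.1
  have hpu : Summable fun j => ‖pu P u j‖ ^ 2 := summ_op P hu
  have hpv : Summable fun j => ‖pv P v j‖ ^ 2 := summ_op (adjoint P) hv
  obtain ⟨C₀, hC₀, hA⟩ := hAPX
  obtain ⟨C, c, hC, hc, hL⟩ := hLNK
  have hS0 := hSYS.1 S μ φ N K hN u v hK P hP hPT
  have A1 := hA S μ φ hN.meas u v hu hv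
  have A2 := hA S μ φ hN.meas u (pv P v) hu hpv
  have A3 := hA S μ φ hN.meas (pu P u) v hpu hv
  have A4 := hA S μ φ hN.meas (pu P u) (pv P v) hpu hpv
  -- the point
  obtain ⟨a, ha⟩ : ∃ a, (CokP φ u v P a ∧ ¬ KerP φ u v P a) ∧
      Sys0 (Fm φ u v a) (Fm φ u (pv P v) a) (Fm φ (pu P u) v a) (Fm φ (pu P u) (pv P v) a) ∧
      (∀ κ ε C : ℝ, 0 < κ → 0 < ε → 0 ≤ C →
      ∃ ρ₀ : ℝ, 0 < ρ₀ ∧ ∀ (r δ : ℝ) (h : ℂ → ℝ), 0 < r → r ≤ ρ₀ → 0 ≤ δ → Integrable h →
        (∀ z, 0 ≤ h z) → (∀ z, z ∉ ball a r → h z = 0) → WT h C δ →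
        ∫ z in {z | κ ≤ hs (df (Fm φ u v z) (Fm φ u v a))}, h z ≤ ε * r + C₀ * δ) ∧
      (∀ κ ε C : ℝ, 0 < κ → 0 < ε → 0 ≤ C →
      ∃ ρ₀ : ℝ, 0 < ρ₀ ∧ ∀ (r δ : ℝ) (h : ℂ → ℝ), 0 < r → r ≤ ρ₀ → 0 ≤ δ → Integrable h →
        (∀ z, 0 ≤ h z) → (∀ z, z ∉ ball a r → h z = 0) → WT h C δ →
        ∫ z in {z | κ ≤ hs (df (Fm φ u (pv P v) z) (Fm φ u (pv P v) a))}, h z ≤ ε * r + C₀ * δ) ∧
      (∀ κ ε C : ℝ, 0 < κ → 0 < ε → 0 ≤ C →
      ∃ ρ₀ : ℝ, 0 < ρ₀ ∧ ∀ (r δ : ℝ) (h : ℂ → ℝ), 0 < r → r ≤ ρ₀ → 0 ≤ δ → Integrable h →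
        (∀ z, 0 ≤ h z) → (∀ z, z ∉ ball a r → h z = 0) → WT h C δ →
        ∫ z in {z | κ ≤ hs (df (Fm φ (pu P u) v z) (Fm φ (pu P u) v a))}, h z ≤ ε * r + C₀ * δ) ∧
      (∀ κ ε C : ℝ, 0 < κ → 0 < ε → 0 ≤ C →
      ∃ ρ₀ : ℝ, 0 < ρ₀ ∧ ∀ (r δ : ℝ) (h : ℂ → ℝ), 0 < r → r ≤ ρ₀ → 0 ≤ δ → Integrable h →
        (∀ z, 0 ≤ h z) → (∀ z, z ∉ ball a r → h z = 0) → WT h C δ →
        ∫ z in {z | κ ≤ hs (df (Fm φ (pu P u) (pv P v) z) (Fm φ (pu P u) (pv P v) a))}, h z ≤
          ε * r + C₀ * δ) := by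
    by_contra hall
    push Not at hall
    apply hnot
    filter_upwards [hS0, A1, A2, A3, A4] with z s0 s1 s2 s3 s4
    rintro ⟨hcok, hker⟩
    obtain ⟨κ, ε, C', h1, h2, h3, h4⟩ := hall z ⟨hcok, hker⟩ s0 s1 s2 s3
    obtain ⟨ρ₀, h5, h6⟩ := s4 κ ε C' h1 h2 h3
    obtain ⟨r, δ, h, g1, g2, g3, g4, g5, g6, g7, g8⟩ := h4 ρ₀ h5
    exact absurd (h6 r δ h g1 g2 g3 g4 g5 g6 g7) (not_le.2 g8)
  obtain ⟨⟨hcok, hker⟩, s0, s1, s2, s3, s4⟩ := ha
  -- the vector
  unfold KerP at hker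
  push Not at hker
  obtain ⟨c₀, hc₀, hc₀F, i₀, hi₀⟩ := hker
  obtain ⟨κ, η, hκ, hη, hpert⟩ := hALG _ _ _ _ s0 hcok c₀ i₀ hc₀ hc₀F hi₀
  set x : Lp ℂ 2 μ := pv P v i₀ with hx
  have hPx : adjoint P x = x := by
    have h4 : adjoint P * adjoint P = adjoint P := by
      have h5 := congrArg (fun A => adjoint A) hP
      rw [← ContinuousLinearMap.star_eq_adjoint, star_mul, ContinuousLinearMap.star_eq_adjoint]
        at h5
      exact h5
    exact congrArg (fun A => A (v i₀)) h4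
  obtain ⟨W, hWm, hW01, hWup, hWlo⟩ := hWGT S μ φ N K hN u v hK x
  set η' : ℝ := min 1 η with hη'
  have hη'0 : 0 < η' := lt_min one_pos hη
  have hgood : ∀ᵐ z, hs (df (Fm φ u v z) (Fm φ u v a)) ≤ κ →
      hs (df (Fm φ u (pv P v) z) (Fm φ u (pv P v) a)) ≤ κ →
      hs (df (Fm φ (pu P u) v z) (Fm φ (pu P u) v a)) ≤ κ →
      hs (df (Fm φ (pu P u) (pv P v) z) (Fm φ (pu P u) (pv P v) a)) ≤ κ → η' ≤ W z := by
    filter_upwards [hS0, hWlo] with z h0 h1 g1 g2 g3 g4
    obtain ⟨d, hd1, hd2, hd3, hd4⟩ := hpert _ _ _ _ h0 g1 g2 g3 g4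
    refine le_trans ?_ (h1 d hd1 hd2 hd3)
    exact min_le_min le_rfl hd4
  -- the scale
  have hε : 0 < c / 16 := by positivity
  obtain ⟨ρ1, hρ1, B1⟩ := s1 κ (c / 16) C hκ hε hC.le
  obtain ⟨ρ2, hρ2, B2⟩ := s2 κ (c / 16) C hκ hε hC.le
  obtain ⟨ρ3, hρ3, B3⟩ := s3 κ (c / 16) C hκ hε hC.le
  obtain ⟨ρ4, hρ4, B4⟩ := s4 κ (c / 16) C hκ hε hC.le
  set r : ℝ := min (min ρ1 ρ2) (min ρ3 ρ4) with hr
  have hr0 : 0 < r := lt_min (lt_min hρ1 hρ2) (lt_min hρ3 hρ4)
  rcases dich3 W hWm hW01 a r hr0 with h | ⟨τ, h1, h2, h3⟩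
  · have hwm : Measurable (fun z => (W z : ℂ)) := Complex.measurable_ofReal.comp hWm
    have hwi : IntegrableOn (fun z => (W z : ℂ)) (ball a r) := by
      refine Measure.integrableOn_of_bounded (M := 1) measure_ball_lt_top.ne
        hwm.aestronglyMeasurable (Eventually.of_forall fun z => ?_)
      rw [Complex.norm_real, Real.norm_eq_abs, abs_of_nonneg (hW01 z).1]
      exact (hW01 z).2
    obtain ⟨l, δ, hl, hls, hli, hδ0, hδ, hWT, hlim⟩ := hL _ a r hr0 hwm hwi h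
    have key : ∀ n, η' * (c * r) ≤ (∫ z, ‖(W z : ℂ)‖ * l n z) +
        η' * (4 * (c / 16 * r + C₀ * δ n)) := by
      intro n
      have hint : Integrable (l n) := (hl n).cont.integrable_of_hasCompactSupport (hl n).supp
      have h5 := four (l n) W hint (hl n).nonneg hWm hW01
        ![{z | κ ≤ hs (df (Fm φ u v z) (Fm φ u v a))},
          {z | κ ≤ hs (df (Fm φ u (pv P v) z) (Fm φ u (pv P v) a))},
          {z | κ ≤ hs (df (Fm φ (pu P u) v z) (Fm φ (pu P u) v a))},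
          {z | κ ≤ hs (df (Fm φ (pu P u) (pv P v) z) (Fm φ (pu P u) (pv P v) a))}]
        η' hη'0 ?_ (c / 16 * r + C₀ * δ n) ?_
      · rw [hli n] at h5
        have e : ∀ z, ‖(W z : ℂ)‖ * l n z = W z * l n z := fun z => by
          rw [Complex.norm_real, Real.norm_eq_abs, abs_of_nonneg (hW01 z).1]
        simp only [e]
        exact h5
      · filter_upwards [hgood] with z hz hz2
        have q1 := hz2 0
        have q2 := hz2 1
        have q3 := hz2 2
        have q4 := hz2 3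
        simp only [Matrix.cons_val_zero, Matrix.cons_val_one, Matrix.cons_val, mem_ofPred_eq,
          not_le] at q1 q2 q3 q4
        exact hz q1.le q2.le q3.le q4.le
      · intro i
        fin_cases i
        · exact B1 r (δ n) (l n) hr0 ((min_le_left _ _).trans (min_le_left _ _)) (hδ0 n) hint
            (hl n).nonneg (hls n) (hWT n)
        · exact B2 r (δ n) (l n) hr0 ((min_le_left _ _).trans (min_le_right _ _)) (hδ0 n) hint
            (hl n).nonneg (hls n) (hWT n)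
        · exact B3 r (δ n) (l n) hr0 ((min_le_right _ _).trans (min_le_left _ _)) (hδ0 n) hint
            (hl n).nonneg (hls n) (hWT n)
        · exact B4 r (δ n) (l n) hr0 ((min_le_right _ _).trans (min_le_right _ _)) (hδ0 n) hint
            (hl n).nonneg (hls n) (hWT n)
    have hlim2 : Tendsto (fun n => (∫ z, ‖(W z : ℂ)‖ * l n z) +
        η' * (4 * (c / 16 * r + C₀ * δ n))) atTop (𝓝 (0 + η' * (4 * (c / 16 * r + C₀ * 0)))) :=
      hlim.add (((tendsto_const_nhds.add (hδ.const_mul C₀)).const_mul 4).const_mul η')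
    have h6 := ge_of_tendsto' hlim2 key
    have h7 : 0 < η' * (c * r) := by positivity
    nlinarith
  · obtain ⟨C1, hC1⟩ := hHVY S μ φ N K hN u v hK x W hWm hW01 hWup a τ (2 * r) h1 h2 h3
    exact hNI (hEVI _ (N + K) P hP hPT hdim x a C1 hPx hC1)

end Pool.Agent.H50.SM.THM
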