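import Pool.Agent.H50.SM.Aez
import Pool.Agent.H50.SM.Sys0
import Pool.Agent.H50.SM.Thm
import Pool.Agent.H50.SM.Alg
import Pool.Agent.H50.SM.Apx
import Pool.Agent.H50.SM.Lnk2
import Pool.Agent.H50.SM.Wgt
import Pool.Agent.H50.SM.Evl
import Pool.Agent.H50.SM.Hvy
import Pool.Agent.H50.SM.Evi
import Pool.Agent.H50.SM.Adj
import Pool.Agent.H50.SM.Ort
import Pool.Agent.H50.SM.Spc
import Pool.Agent.H50.SM.Qnc
import Pool.Agent.H50.SM.Lom
import Pool.Agent.H50.SM.Dub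
import Pool.Agent.H50.SM.Fin
import Pool.Agent.H50.SM.Fnh
import Pool.Agent.H50.SM.Eig
import Pool.Agent.H50.SM.Duh
import Pool.Agent.H50.SM.Lmh
import Pool.Agent.H50.SM.Rsv
import Pool.Agent.H50.SM.Tca

/-!
# Project SM (helper50): the theorems from their parts
-/

set_option autoImplicit false

namespace Pool.Agent.H50.SM

open MeasureTheory Set
open scoped InnerProductSpace
open Pool.Agent.Y283.NK (Repr)
open Pool.Agent.Q130.TR
open ContinuousLinearMap (adjoint)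

theorem tSYS : S_SYS0 := SYS0.sys0 Pool.Agent.Q86.TR.star rHSB

theorem tTHM : S_THM :=
  THM.thm tSYS (ALG.alg rL2B) (APX.apx rL2B rHSB)
    (LNK2.lnk2 Pool.Agent.Q130.TC.wML2 Pool.Agent.Q88.TC.ply)
    (WGT.wgt (EVL.evl rL2B rHSB) rL2B rHSB) (HVY.hvy rL2B rHSB) EVI.evi

/-- **invariant subspaces in the range of an idempotent commuting with normal plus trace class** -/
theorem main : S_FIN :=
  FIN.fin (MOD.mod tSYS tTHM ALT.alt ADJ.adj ORT.ort SPC.spc QNC.qnc LOM.lom DUB.dub)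

/-- **hyperinvariant subspaces if the spectrum of the part has area zero** -/
theorem mainH : S_FNH :=
  FNH.fnh (AEZ.mdh RSV.rsv tSYS ALT.alt EIG.eig DUH.duh SPC.spc QNC.qnc LMH.lmh DUB.dub)

section Summand

variable {E H : Type} [NormedAddCommGroup E] [NormedSpace ℂ E] [NormedAddCommGroup H]
  [InnerProductSpace ℂ H]

/-- the data of a direct summand -/
structure Sum1 (T : E →L[ℂ] E) (A : H →L[ℂ] H) (J : E →L[ℂ] H) (R : H →L[ℂ] E) : Prop where
  rj : ∀ x, R (J x) = x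
  aj : ∀ x, A (J x) = J (T x)
  ra : ∀ y, R (A y) = T (R y)

namespace Sum1

variable {T : E →L[ℂ] E} {A : H →L[ℂ] H} {J : E →L[ℂ] H} {R : H →L[ℂ] E} (h : Sum1 T A J R)

include h

theorem idem : (J ∘L R) * (J ∘L R) = J ∘L R := by
  ext1 x
  show J (R (J (R x))) = J (R x)
  rw [h.rj]

theorem comm : (J ∘L R) * A = A * (J ∘L R) := by
  ext1 x
  show J (R (A x)) = A (J (R x))
  rw [h.ra, h.aj]

theorem mem_iff (x : H) : (J ∘L R) x = x ↔ ∃ w, J w = x := by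
  constructor
  · intro hx
    exact ⟨R x, hx⟩
  · rintro ⟨w, rfl⟩
    show J (R (J w)) = J w
    rw [h.rj]

theorem dim2 (hd : ¬ ∃ x : E, ∀ y, ∃ t : ℂ, y = t • x) : Dim2 (J ∘L R) := by
  intro x
  push Not at hd
  obtain ⟨y, hy⟩ := hd (R x)
  refine ⟨J y, (h.mem_iff _).2 ⟨y, rfl⟩, fun t ht => hy t ?_⟩
  rw [← h.rj y, ht, map_smul]

theorem ni (hni : NI A (J ∘L R)) :
    ∃ V : Submodule ℂ E, IsClosed (V : Set E) ∧ V ≠ ⊥ ∧ V ≠ ⊤ ∧ ∀ x ∈ V, T x ∈ V := by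
  obtain ⟨V, g1, g2, g3, ⟨x, hx, hxV⟩, g5⟩ := hni
  refine ⟨V.comap (J : E →ₗ[ℂ] H), g1.preimage J.continuous, ?_, ?_, ?_⟩
  · intro h0
    apply g2
    rw [eq_bot_iff]
    intro y hy
    have h1 : R y ∈ V.comap (J : E →ₗ[ℂ] H) := by
      rw [Submodule.mem_comap]
      show (J ∘L R) y ∈ V
      rw [g3 y hy]
      exact hy
    rw [h0, Submodule.mem_bot] at h1
    rw [Submodule.mem_bot, ← g3 y hy]
    show J (R y) = 0
    rw [h1, map_zero]
  · intro h0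
    apply hxV
    have h1 : R x ∈ V.comap (J : E →ₗ[ℂ] H) := by
      rw [h0]
      exact Submodule.mem_top
    rw [Submodule.mem_comap] at h1
    have h2 : (J ∘L R) x ∈ V := h1
    rwa [hx] at h2
  · intro w hw
    rw [Submodule.mem_comap] at hw ⊢
    show J (T w) ∈ V
    rw [← h.aj]
    exact g5 _ hw

theorem nh (hnh : NH A (J ∘L R)) :
    ∃ V : Submodule ℂ E, IsClosed (V : Set E) ∧ V ≠ ⊥ ∧ V ≠ ⊤ ∧
      ∀ Q : E →L[ℂ] E, Q * T = T * Q → ∀ x ∈ V, Q x ∈ V := by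
  obtain ⟨V, g1, g2, g3, ⟨x, hx, hxV⟩, g5⟩ := hnh
  refine ⟨V.comap (J : E →ₗ[ℂ] H), g1.preimage J.continuous, ?_, ?_, ?_⟩
  · intro h0
    apply g2
    rw [eq_bot_iff]
    intro y hy
    have h1 : R y ∈ V.comap (J : E →ₗ[ℂ] H) := by
      rw [Submodule.mem_comap]
      show (J ∘L R) y ∈ V
      rw [g3 y hy]
      exact hy
    rw [h0, Submodule.mem_bot] at h1
    rw [Submodule.mem_bot, ← g3 y hy]
    show J (R y) = 0
    rw [h1, map_zero]
  · intro h0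
    apply hxV
    have h1 : R x ∈ V.comap (J : E →ₗ[ℂ] H) := by
      rw [h0]
      exact Submodule.mem_top
    rw [Submodule.mem_comap] at h1
    have h2 : (J ∘L R) x ∈ V := h1
    rwa [hx] at h2
  · intro Q hQ w hw
    have hQx : ∀ w, Q (T w) = T (Q w) := fun w => congrArg (fun B : E →L[ℂ] E => B w) hQ
    rw [Submodule.mem_comap] at hw ⊢
    have h1 := g5 (J ∘L Q ∘L R) ?_ ?_ _ hw
    · have h2 : (J ∘L Q ∘L R) (J w) = J (Q w) := by
        show J (Q (R (J w))) = J (Q w)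
        rw [h.rj]
      have h3 : (J ∘L Q ∘L R) (J w) ∈ V := h1
      rwa [h2] at h3
    · ext1 y
      show J (Q (R (A y))) = A (J (Q (R y)))
      rw [h.ra, h.aj, hQx]
    · ext1 y
      show J (Q (R (J (R y)))) = J (R (J (Q (R y))))
      rw [h.rj, h.rj]

theorem sc' (hsc : SC A (J ∘L R)) : ∃ c : ℂ, T = c • (1 : E →L[ℂ] E) := by
  obtain ⟨c, hc⟩ := hsc
  refine ⟨c, ?_⟩
  ext1 w
  have h1 := hc (J w) ((h.mem_iff _).2 ⟨w, rfl⟩)
  rw [h.aj] at h1
  have h2 := congrArg R h1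
  rw [h.rj, map_smul, h.rj] at h2
  exact h2

theorem bij [CompleteSpace E] {z : ℂ} (hz : z ∉ spectrum ℂ T) : BijP A (J ∘L R) z := by
  rw [spectrum.notMem_iff, ← IsUnit.neg_iff, neg_sub] at hz
  obtain ⟨B, hB⟩ := hz
  set D : E →L[ℂ] E := ((B⁻¹ : (E →L[ℂ] E)ˣ) : E →L[ℂ] E) with hD
  have e1 : ∀ w, T w - z • w = (B : E →L[ℂ] E) w := by
    intro w
    rw [hB, Algebra.algebraMap_eq_smul_one]
    rfl
  have e2 : ∀ w, (B : E →L[ℂ] E) (D w) = w := fun w =>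
    congrArg (fun C : E →L[ℂ] E => C w) B.mul_inv
  have e3 : ∀ w, D ((B : E →L[ℂ] E) w) = w := fun w =>
    congrArg (fun C : E →L[ℂ] E => C w) B.inv_mul
  constructor
  · intro x
    refine ⟨J (D (R x)), ?_⟩
    have h1 : (J ∘L R) (J (D (R x))) = J (D (R x)) := (h.mem_iff _).2 ⟨_, rfl⟩
    rw [h1, h.aj, ← map_smul, ← map_sub, e1, e2]
    rfl
  · intro y hy hAy
    have h1 : T (R y) = z • R y := by rw [← h.ra, hAy, map_smul]
    have h2 : (B : E →L[ℂ] E) (R y) = 0 := by rw [← e1, h1, sub_self]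
    have h3 : R y = 0 := by rw [← e3 (R y), h2, map_zero]
    rw [← hy]
    show J (R y) = 0
    rw [h3, map_zero]

end Sum1

end Summand

/-- compressions -/
theorem compr {H : Type} [NormedAddCommGroup H] [InnerProductSpace ℂ H] [CompleteSpace H]
    (N K Q : H →L[ℂ] H)
    {u v : ℕ → H} (hK : Repr K u v) (hQ : Q * Q = Q) {u' v' : ℕ → H}
    (hC : Repr (N * Q - Q * N) u' v') :
    ∃ K' : H →L[ℂ] H, (∃ p q, Repr K' p q) ∧ Q * (N + K') = (N + K') * Q ∧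
      (N + K') * Q = Q * (N + K) * Q := by
  obtain ⟨a1, -, -⟩ := TCA.tca H (N * Q - Q * N) K u' v' u v hC hK
  obtain ⟨b1, b2, -⟩ := TCA.tca H (N * Q - Q * N) K u' v' u v hC hK
  obtain ⟨k1, k2, -⟩ := TCA.tca H K K u v u v hK hK
  -- `K' = Q C - C Q + Q K Q`
  have c1 := a1 Q
  have c2 := b2 (-Q)
  have c3 := (TCA.tca H (Q * K) K _ _ u v (k1 Q) hK).2.1 Q
  obtain ⟨p, q, hpq⟩ := (TCA.tca H _ _ _ _ _ _ c1 c2).2.2
  obtain ⟨p', q', hpq'⟩ := (TCA.tca H _ _ _ _ _ _ hpq c3).2.2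
  have hQ2 : ∀ x, Q (Q x) = Q x := fun x => congrArg (fun A : H →L[ℂ] H => A x) hQ
  refine ⟨Q * (N * Q - Q * N) + (N * Q - Q * N) * -Q + Q * K * Q, ⟨p', q', hpq'⟩, ?_, ?_⟩
  · ext1 x
    simp only [ContinuousLinearMap.mul_apply, ContinuousLinearMap.add_apply,
      ContinuousLinearMap.sub_apply, ContinuousLinearMap.neg_apply, map_add, map_sub, map_neg,
      hQ2]
    abel
  · ext1 x
    simp only [ContinuousLinearMap.mul_apply, ContinuousLinearMap.add_apply,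
      ContinuousLinearMap.sub_apply, ContinuousLinearMap.neg_apply, map_add, map_sub, map_neg,
      hQ2]
    abel

end Pool.Agent.H50.SM
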