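import Pool.Graph.R_pool_sql_team_seeded_3997aac3.Q130.TR.Sep
import Pool.Agent.H50.SM.All

/-!
# Project SM, module SEPX: separable summands of operators on arbitrary Hilbert spaces
-/

set_option autoImplicit false

namespace Pool.Agent.H50.SM.SEPX

open MeasureTheory Set Metric Filter Topology
open scoped InnerProductSpace ENNReal NNReal ComplexConjugate
open Pool.Agent.Y283.NK (Repr)
open Pool.Agent.Q130.TC (hTRC)
open Pool.Agent.Q130.TR (exists_sep)
open Pool.Agent.W706.HIR (adj_restrict)
open ContinuousLinearMap (adjoint)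

variable {E H : Type} [NormedAddCommGroup E] [NormedSpace ℂ E]
  [NormedAddCommGroup H] [InnerProductSpace ℂ H] [CompleteSpace H]

/-- a separable summand is a summand of an operator of the same kind on a separable space -/
theorem sepx [TopologicalSpace.SeparableSpace E] {T : E →L[ℂ] E} {N K : H →L[ℂ] H}
    (hN : IsStarNormal N) {u v : ℕ → H} (hK : Repr K u v) {J : E →L[ℂ] H} {R : H →L[ℂ] E}
    (h : Sum1 T (N + K) J R) :
    ∃ (M : Submodule ℂ H) (_ : CompleteSpace M) (_ : TopologicalSpace.SeparableSpace M)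
      (N' K' : M →L[ℂ] M) (u' v' : ℕ → M) (J' : E →L[ℂ] M) (R' : M →L[ℂ] E),
      IsStarNormal N' ∧ Repr K' u' v' ∧ Sum1 T (N' + K') J' R' := by
  obtain ⟨e, he⟩ := TopologicalSpace.exists_dense_seq E
  obtain ⟨M, hM, hsep, h1, h2, hu, hv⟩ := exists_sep N
    (fun j => if j % 2 = 0 then u (j / 2) else J (e (j / 2))) v
  have hcs : CompleteSpace M := hM.completeSpace_coe
  have hu1 : ∀ j, u j ∈ M := by
    intro j
    have := hu (2 * j)
    simpa using this
  have he1 : ∀ j, J (e j) ∈ M := by
    intro j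
    have h3 := hu (2 * j + 1)
    have h4 : (2 * j + 1) % 2 = 1 := by omega
    have h5 : (2 * j + 1) / 2 = j := by omega
    simpa [h4, h5] using h3
  have hJM : ∀ x, J x ∈ M := by
    intro x
    have h3 : x ∈ closure (Set.range e) := he x
    have h4 : J x ∈ closure (M : Set H) := by
      refine map_mem_closure J.continuous h3 ?_
      rintro _ ⟨j, rfl⟩
      exact he1 j
    rwa [hM.closure_eq] at h4
  have hKM : ∀ x, K x ∈ M := fun x =>
    hM.mem_of_tendsto (hK.2.2 x) (Eventually.of_forall fun t =>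
      M.sum_mem fun j _ => M.smul_mem _ (hu1 j))
  have hNN : ∀ x, adjoint N (N x) = N (adjoint N x) := fun x => by
    have := hN.star_comm_self
    rw [ContinuousLinearMap.star_eq_adjoint] at this
    exact congrArg (fun L : H →L[ℂ] H => L x) this.eq
  set N' : M →L[ℂ] M := N.restrict h1 with hN'
  set K' : M →L[ℂ] M := K.restrict (fun x _ => hKM x) with hK'
  have hN's : IsStarNormal N' := by
    constructor
    rw [Commute, SemiconjBy, ContinuousLinearMap.star_eq_adjoint, hN', adj_restrict h1 h2]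
    ext x
    exact hNN x
  have hK's : Repr K' (fun j => (⟨u j, hu1 j⟩ : M)) (fun j => ⟨v j, hv j⟩) := by
    refine ⟨hK.1, hK.2.1, fun f => ?_⟩
    have h3 := hK.2.2 (f : H)
    have h4 : HasSum (fun j => ((⟪(⟨v j, hv j⟩ : M), f⟫_ℂ • (⟨u j, hu1 j⟩ : M) : M) : H))
        ((K' f : M) : H) := h3
    exact (Topology.IsInducing.subtypeVal.hasSum_iff (g := M.subtype.toAddMonoidHom) _ _).1 h4
  refine ⟨M, hcs, hsep, N', K', _, _, J.codRestrict M hJM, R ∘L M.subtypeL, hN's, hK's,
    ⟨fun x => h.rj x, fun x => Subtype.ext (h.aj x), fun y => h.ra y⟩⟩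

end Pool.Agent.H50.SM.SEPX
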